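import Pool.Agent.H4Sail.Defs

namespace Pool.Agent.H4Sail

open Set

/-! ## The action of `GL(3, ℤ)` -/

theorem mem_intLattice {x : E3} : x ∈ intLattice ↔ ∀ i, ∃ n : ℤ, x i = (n : ℝ) := Iff.rfl

theorem mem_intLattice_iff_cast {x : E3} :
    x ∈ intLattice ↔ ∃ n : Fin 3 → ℤ, x = fun i => ((n i : ℤ) : ℝ) := by
  constructor
  · intro h
    choose n hn using h
    exact ⟨n, funext hn⟩
  · rintro ⟨n, rfl⟩ i
    exact ⟨n i, rfl⟩

/-- The linear map given by an element of `GL(3, ℤ)`. -/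
noncomputable def intLin (g : GL (Fin 3) ℤ) : E3 →ₗ[ℝ] E3 :=
  Matrix.mulVecLin ((g : Matrix (Fin 3) (Fin 3) ℤ).map (fun n : ℤ => (n : ℝ)))

theorem intLin_apply (g : GL (Fin 3) ℤ) (x : E3) : intLin g x = intAct g x := rfl

theorem intAct_add (g : GL (Fin 3) ℤ) (x y : E3) : intAct g (x + y) = intAct g x + intAct g y :=
  (intLin g).map_add x y

theorem intAct_sub (g : GL (Fin 3) ℤ) (x y : E3) : intAct g (x - y) = intAct g x - intAct g y :=
  (intLin g).map_sub x y

theorem intAct_smul (g : GL (Fin 3) ℤ) (c : ℝ) (x : E3) : intAct g (c • x) = c • intAct g x :=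
  (intLin g).map_smul c x

theorem intAct_zero (g : GL (Fin 3) ℤ) : intAct g 0 = 0 := (intLin g).map_zero

theorem intAct_one (x : E3) : intAct 1 x = x := by
  have : ((1 : Matrix (Fin 3) (Fin 3) ℤ).map (fun n : ℤ => (n : ℝ))) = 1 := by
    ext i j
    by_cases h : i = j <;> simp [Matrix.one_apply, h]
  simp [intAct, this]

theorem intAct_mul (g h : GL (Fin 3) ℤ) (x : E3) : intAct (g * h) x = intAct g (intAct h x) := by
  have : (((g * h : GL (Fin 3) ℤ) : Matrix (Fin 3) (Fin 3) ℤ).map (fun n : ℤ => (n : ℝ))) =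
      ((g : Matrix (Fin 3) (Fin 3) ℤ).map (fun n : ℤ => (n : ℝ))) *
      ((h : Matrix (Fin 3) (Fin 3) ℤ).map (fun n : ℤ => (n : ℝ))) := by
    ext i j
    simp [Matrix.mul_apply]
  simp only [intAct]
  rw [this, Matrix.mulVec_mulVec]

theorem intAct_inv_intAct (g : GL (Fin 3) ℤ) (x : E3) : intAct g⁻¹ (intAct g x) = x := by
  rw [← intAct_mul, inv_mul_cancel, intAct_one]

theorem intAct_intAct_inv (g : GL (Fin 3) ℤ) (x : E3) : intAct g (intAct g⁻¹ x) = x := by
  rw [← intAct_mul, mul_inv_cancel, intAct_one]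

theorem intAct_injective (g : GL (Fin 3) ℤ) : Function.Injective (intAct g) := fun x y h => by
  rw [← intAct_inv_intAct g x, h, intAct_inv_intAct]

theorem intAct_cast (g : GL (Fin 3) ℤ) (n : Fin 3 → ℤ) :
    intAct g (fun i => ((n i : ℤ) : ℝ)) =
      fun i => ((((g : Matrix (Fin 3) (Fin 3) ℤ).mulVec n) i : ℤ) : ℝ) := by
  ext i
  simp [intAct, Matrix.mulVec, dotProduct]

theorem intAct_mem_intLattice {g : GL (Fin 3) ℤ} {x : E3} (hx : x ∈ intLattice) :
    intAct g x ∈ intLattice := by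
  obtain ⟨n, rfl⟩ := mem_intLattice_iff_cast.1 hx
  exact mem_intLattice_iff_cast.2 ⟨_, intAct_cast g n⟩

theorem intAct_mem_intLattice_iff {g : GL (Fin 3) ℤ} {x : E3} :
    intAct g x ∈ intLattice ↔ x ∈ intLattice := by
  refine ⟨fun h => ?_, intAct_mem_intLattice⟩
  have := intAct_mem_intLattice (g := g⁻¹) h
  rwa [intAct_inv_intAct] at this

theorem continuous_intAct (g : GL (Fin 3) ℤ) : Continuous (intAct g) :=
  (intLin g).continuous_of_finiteDimensional

/-- The homeomorphism given by an element of `GL(3, ℤ)`. -/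
noncomputable def intHomeo (g : GL (Fin 3) ℤ) : E3 ≃ₜ E3 where
  toFun := intAct g
  invFun := intAct g⁻¹
  left_inv := intAct_inv_intAct g
  right_inv := intAct_intAct_inv g
  continuous_toFun := continuous_intAct g
  continuous_invFun := continuous_intAct g⁻¹

theorem intAct_image_convexHull (g : GL (Fin 3) ℤ) (S : Set E3) :
    intAct g '' convexHull ℝ S = convexHull ℝ (intAct g '' S) :=
  (intLin g).image_convexHull S

/-! ## Automorphisms preserving the three planes -/

/-- `g` preserves the three forms up to positive factors `t`. -/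
structure EigenAct (P : PlaneTriple) (g : GL (Fin 3) ℤ) (t : Fin 3 → ℝ) : Prop where
  pos : ∀ k, 0 < t k
  eig : ∀ k x, P.form k (intAct g x) = t k * P.form k x

theorem EigenAct.one (P : PlaneTriple) : EigenAct P 1 (fun _ => 1) :=
  ⟨fun _ => one_pos, fun k x => by rw [intAct_one, one_mul]⟩

theorem EigenAct.mul {P : PlaneTriple} {g h : GL (Fin 3) ℤ} {t u : Fin 3 → ℝ}
    (hg : EigenAct P g t) (hh : EigenAct P h u) : EigenAct P (g * h) (fun k => t k * u k) :=
  ⟨fun k => mul_pos (hg.pos k) (hh.pos k), fun k x => by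
    rw [intAct_mul, hg.eig, hh.eig, mul_assoc]⟩

theorem EigenAct.inv {P : PlaneTriple} {g : GL (Fin 3) ℤ} {t : Fin 3 → ℝ}
    (hg : EigenAct P g t) : EigenAct P g⁻¹ (fun k => (t k)⁻¹) :=
  ⟨fun k => inv_pos.2 (hg.pos k), fun k x => by
    have h := hg.eig k (intAct g⁻¹ x)
    rw [intAct_intAct_inv] at h
    rw [h, inv_mul_cancel_left₀ (hg.pos k).ne']⟩

theorem EigenAct.pow {P : PlaneTriple} {g : GL (Fin 3) ℤ} {t : Fin 3 → ℝ}
    (hg : EigenAct P g t) (n : ℕ) : EigenAct P (g ^ n) (fun k => t k ^ n) := by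
  induction n with
  | zero => simpa using EigenAct.one P
  | succ n ih =>
    have := ih.mul hg
    simpa [pow_succ] using this

theorem EigenAct.zpow {P : PlaneTriple} {g : GL (Fin 3) ℤ} {t : Fin 3 → ℝ}
    (hg : EigenAct P g t) (n : ℤ) : EigenAct P (g ^ n) (fun k => t k ^ n) := by
  cases n with
  | ofNat n => simpa using hg.pow n
  | negSucc n =>
    have := (hg.pow (n + 1)).inv
    simpa [zpow_negSucc] using this

theorem EigenAct.mem_cone_iff {P : PlaneTriple} {g : GL (Fin 3) ℤ} {t : Fin 3 → ℝ}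
    (hg : EigenAct P g t) {s : Fin 3 → ℤˣ} {x : E3} : intAct g x ∈ P.cone s ↔ x ∈ P.cone s := by
  simp only [PlaneTriple.cone, mem_ofPred_eq]
  refine forall_congr' fun k => ?_
  rw [hg.eig, mul_left_comm]
  constructor
  · intro h
    exact pos_of_mul_pos_right h (hg.pos k).le |> fun h' => h'
  · intro h
    exact mul_pos (hg.pos k) h

theorem EigenAct.image_cone {P : PlaneTriple} {g : GL (Fin 3) ℤ} {t : Fin 3 → ℝ}
    (hg : EigenAct P g t) (s : Fin 3 → ℤˣ) : intAct g '' P.cone s = P.cone s := by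
  apply Subset.antisymm
  · rintro _ ⟨x, hx, rfl⟩
    exact hg.mem_cone_iff.2 hx
  · intro x hx
    exact ⟨intAct g⁻¹ x, hg.inv.mem_cone_iff.2 hx, intAct_intAct_inv g x⟩

theorem EigenAct.image_closure_cone {P : PlaneTriple} {g : GL (Fin 3) ℤ} {t : Fin 3 → ℝ}
    (hg : EigenAct P g t) (s : Fin 3 → ℤˣ) :
    intAct g '' closure (P.cone s) = closure (P.cone s) := by
  have := (intHomeo g).image_closure (P.cone s)
  change intAct g '' closure (P.cone s) = closure (intAct g '' P.cone s) at this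
  rw [this, hg.image_cone]

theorem EigenAct.image_hull {P : PlaneTriple} {g : GL (Fin 3) ℤ} {t : Fin 3 → ℝ}
    (hg : EigenAct P g t) (s : Fin 3 → ℤˣ) : intAct g '' P.hull s = P.hull s := by
  have h1 : ∀ {g : GL (Fin 3) ℤ} {t : Fin 3 → ℝ} (_ : EigenAct P g t),
      intAct g '' ((closure (P.cone s) ∩ (intLattice : Set E3)) \ {0}) ⊆
      ((closure (P.cone s) ∩ (intLattice : Set E3)) \ {0}) := by
    rintro g t hg _ ⟨x, ⟨⟨hx1, hx2⟩, hx3⟩, rfl⟩
    refine ⟨⟨?_, intAct_mem_intLattice hx2⟩, ?_⟩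
    · rw [← hg.image_closure_cone]
      exact mem_image_of_mem _ hx1
    · intro h
      apply hx3
      have h' : intAct g x = 0 := h
      rw [← intAct_zero g] at h'
      exact intAct_injective g h'
  have h2 : intAct g '' ((closure (P.cone s) ∩ (intLattice : Set E3)) \ {0}) =
      ((closure (P.cone s) ∩ (intLattice : Set E3)) \ {0}) := by
    apply Subset.antisymm (h1 hg)
    intro x hx
    exact ⟨intAct g⁻¹ x, h1 hg.inv (mem_image_of_mem _ hx), intAct_intAct_inv g x⟩
  rw [PlaneTriple.hull, intAct_image_convexHull, h2]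

theorem EigenAct.image_sail {P : PlaneTriple} {g : GL (Fin 3) ℤ} {t : Fin 3 → ℝ}
    (hg : EigenAct P g t) (s : Fin 3 → ℤˣ) : intAct g '' P.sail s = P.sail s := by
  have := (intHomeo g).image_frontier (P.hull s)
  change intAct g '' frontier (P.hull s) = frontier (intAct g '' P.hull s) at this
  rw [PlaneTriple.sail, this, hg.image_hull]

end Pool.Agent.H4Sail
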