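import Pool.Agent.H4Sail.Radial

namespace Pool.Agent.H4Sail

open Set Topology

variable {ι κ : Type}

/-- Combinatorial conditions on an abstract triangulated surface. -/
structure GoodVerts (verts : ι → Fin 3 → κ) : Prop where
  inj : ∀ τ, Function.Injective (verts τ)
  nbr : ∀ τ, ∀ J : Finset (Fin 3), J.Nonempty → ∃ τ', ∀ i, verts τ i ∈ range (verts τ') ↔ i ∈ J

/-- A model of a sail by unimodular triangles. -/
structure SailModel (P : PlaneTriple) (s : Fin 3 → ℤˣ) (verts : ι → Fin 3 → κ) (D : ι → ℕ) where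
  V : κ → E3
  f : ι → (E3 →ₗ[ℝ] ℝ)
  N : ι → Fin 3 → ℤ
  irr : Irrational P
  V_inj : Function.Injective V
  V_lat : ∀ p, V p ∈ intLattice
  V_cone : ∀ p, V p ∈ P.cone s
  f_ge : ∀ τ, ∀ x ∈ intLattice, x ∈ P.cone s → 1 ≤ f τ x
  f_eq : ∀ τ, ∀ x ∈ intLattice, x ∈ P.cone s → f τ x = 1 → ∃ i, x = V (verts τ i)
  f_vert : ∀ τ i, f τ (V (verts τ i)) = 1
  indep : ∀ τ, LinearIndependent ℝ (fun i => V (verts τ i))
  cover : ∀ x ∈ P.cone s, ∃ τ, ∃ c : Fin 3 → ℝ, (∀ i, 0 ≤ c i) ∧ x = ∑ i, c i • V (verts τ i)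
  locfin : ∀ x ∈ P.cone s, ∀ R : ℝ, ∃ U ∈ 𝓝 x, {τ | ∃ y ∈ U, f τ y ≤ R}.Finite
  gen : ∀ τ, ∀ z ∈ intLattice, f τ z = 0 → ∃ m n : ℤ,
    z = m • (V (verts τ 1) - V (verts τ 0)) + n • (V (verts τ 2) - V (verts τ 0))
  D_pos : ∀ τ, 0 < D τ
  N_eq : ∀ τ x, ∑ i, (N τ i : ℝ) * x i = D τ * f τ x
  N_prim : ∀ τ, ∀ d : ℤ, (∀ i, d ∣ N τ i) → IsUnit d

namespace SailModel

variable {P : PlaneTriple} {s : Fin 3 → ℤˣ} {verts : ι → Fin 3 → κ} {D : ι → ℕ}
variable (M : SailModel P s verts D)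

/-- The simplex spanned by the vertices of `τ` with index in `J`. -/
def simplex (τ : ι) (J : Set (Fin 3)) : Set E3 :=
  convexHull ℝ ((fun i => M.V (verts τ i)) '' J)

theorem V_mem_hull (p : κ) : M.V p ∈ P.hull s := by
  rw [M.irr.hull_eq]
  exact subset_convexHull _ _ ⟨M.V_cone p, M.V_lat p⟩

theorem one_le_of_mem_hull {x : E3} (hx : x ∈ P.hull s) (τ : ι) : 1 ≤ M.f τ x := by
  rw [M.irr.hull_eq] at hx
  have : convexHull ℝ (P.cone s ∩ (intLattice : Set E3)) ⊆ {y | 1 ≤ M.f τ y} := by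
    apply convexHull_min
    · rintro y ⟨h1, h2⟩
      exact M.f_ge τ y h2 h1
    · exact convex_halfSpace_ge (M.f τ).isLinear 1
  exact this hx

include M in
theorem mem_cone_of_mem_hull {x : E3} (hx : x ∈ P.hull s) : x ∈ P.cone s :=
  M.irr.closure_hull_subset s (subset_closure hx)

/-- A point of the hull lying in the cone over `τ` and at level one lies in the simplex. -/
theorem f_sum (τ τ' : ι) (c : Fin 3 → ℝ) :
    M.f τ (∑ i, c i • M.V (verts τ' i)) = ∑ i, c i * M.f τ (M.V (verts τ' i)) := by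
  rw [map_sum]
  exact Finset.sum_congr rfl fun i _ => by rw [map_smul, smul_eq_mul]

theorem f_sum_self (τ : ι) (c : Fin 3 → ℝ) :
    M.f τ (∑ i, c i • M.V (verts τ i)) = ∑ i, c i := by
  rw [M.f_sum]
  exact Finset.sum_congr rfl fun i _ => by rw [M.f_vert, mul_one]

theorem mem_hull_iff {x : E3} : x ∈ P.hull s ↔ x ∈ P.cone s ∧ ∀ τ, 1 ≤ M.f τ x := by
  constructor
  · intro hx
    exact ⟨M.mem_cone_of_mem_hull hx, M.one_le_of_mem_hull hx⟩
  · rintro ⟨hx, hf⟩
    obtain ⟨τ, c, hc, rfl⟩ := M.cover x hx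
    have h1 := hf τ
    rw [M.f_sum_self] at h1
    have hpos : 0 < ∑ i, c i := lt_of_lt_of_le one_pos h1
    have h2 : (∑ i, (c i / ∑ j, c j) • M.V (verts τ i)) ∈ P.hull s := by
      apply (convex_convexHull ℝ _).sum_mem
      · intro i _
        exact div_nonneg (hc i) hpos.le
      · rw [← Finset.sum_div, div_self hpos.ne']
      · intro i _
        exact M.V_mem_hull _
    have h3 := M.irr.smul_mem_hull h2 h1
    rw [Finset.smul_sum] at h3
    convert h3 using 2 with i
    rw [smul_smul, mul_div_cancel₀ _ hpos.ne']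

include M in
theorem isClosed_hull : IsClosed (P.hull s) := by
  rw [← closure_subset_iff_isClosed]
  intro x hx
  rw [M.mem_hull_iff]
  refine ⟨M.irr.closure_hull_subset s hx, fun τ => ?_⟩
  have : closure (P.hull s) ⊆ {y | 1 ≤ M.f τ y} := by
    apply closure_minimal
    · intro y hy
      exact M.one_le_of_mem_hull hy τ
    · exact isClosed_le continuous_const (M.f τ).continuous_of_finiteDimensional
  exact this hx

theorem mem_interior_hull {x : E3} (hx : x ∈ P.cone s) (hf : ∀ τ, 1 < M.f τ x) :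
    x ∈ interior (P.hull s) := by
  obtain ⟨U, hU, hfin⟩ := M.locfin x hx 1
  rw [mem_interior_iff_mem_nhds]
  have h1 : ∀ᶠ y in 𝓝 x, ∀ τ ∈ {τ | ∃ y ∈ U, M.f τ y ≤ 1}, 1 < M.f τ y := by
    rw [Filter.eventually_all_finite hfin]
    intro τ _
    exact ((M.f τ).continuous_of_finiteDimensional.continuousAt).eventually (lt_mem_nhds (hf τ))
  filter_upwards [h1, hU, (P.isOpen_cone s).mem_nhds hx] with y hy1 hy2 hy3
  rw [M.mem_hull_iff]
  refine ⟨hy3, fun τ => ?_⟩
  by_contra hcon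
  have hle : M.f τ y ≤ 1 := (not_le.1 hcon).le
  have := hy1 τ ⟨y, hy2, hle⟩
  linarith

theorem one_lt_of_mem_interior {x : E3} (hx : x ∈ interior (P.hull s)) (τ : ι) : 1 < M.f τ x := by
  have hge := M.one_le_of_mem_hull (interior_subset hx) τ
  rcases hge.lt_or_eq with h | h
  · exact h
  exfalso
  have hcont : Continuous fun t : ℝ => t • x := continuous_id.smul continuous_const
  have h1 : ∀ᶠ t in 𝓝 (1 : ℝ), t • x ∈ P.hull s := by
    have := hcont.continuousAt (x := (1 : ℝ))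
    refine this.eventually ?_
    simp only [one_smul]
    exact mem_interior_iff_mem_nhds.1 hx
  rw [Metric.eventually_nhds_iff] at h1
  obtain ⟨δ, hδ, h2⟩ := h1
  have h3 : (1 - δ / 2) • x ∈ P.hull s := by
    apply h2
    rw [Real.dist_eq, show 1 - δ / 2 - 1 = -(δ / 2) by ring, abs_neg, abs_of_pos (by linarith)]
    linarith
  have h4 := M.one_le_of_mem_hull h3 τ
  rw [map_smul, smul_eq_mul, ← h] at h4
  linarith

theorem mem_sail_iff {x : E3} : x ∈ P.sail s ↔ x ∈ P.hull s ∧ ∃ τ, M.f τ x = 1 := by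
  rw [PlaneTriple.sail, M.isClosed_hull.frontier_eq]
  constructor
  · rintro ⟨h1, h2⟩
    refine ⟨h1, ?_⟩
    by_contra hcon
    push Not at hcon
    exact h2 (M.mem_interior_hull (M.mem_cone_of_mem_hull h1) fun τ =>
      lt_of_le_of_ne (M.one_le_of_mem_hull h1 τ) (hcon τ).symm)
  · rintro ⟨h1, τ, h2⟩
    refine ⟨h1, fun h3 => ?_⟩
    have := M.one_lt_of_mem_interior h3 τ
    linarith

theorem simplex_subset_hull (τ : ι) (J : Set (Fin 3)) : M.simplex τ J ⊆ P.hull s := by
  apply convexHull_min _ (convex_convexHull ℝ _)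
  rintro _ ⟨i, _, rfl⟩
  exact M.V_mem_hull _

theorem simplex_f_eq {τ τ' : ι} {J : Set (Fin 3)}
    (hJ : ∀ i ∈ J, verts τ i ∈ range (verts τ')) {x : E3} (hx : x ∈ M.simplex τ J) :
    M.f τ' x = 1 := by
  have : M.simplex τ J ⊆ {y | M.f τ' y = 1} := by
    apply convexHull_min
    · rintro _ ⟨i, hi, rfl⟩
      obtain ⟨j, hj⟩ := hJ i hi
      change M.f τ' (M.V (verts τ i)) = 1
      rw [← hj]
      exact M.f_vert τ' j
    · exact convex_hyperplane (M.f τ').isLinear 1
  exact this hx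

theorem simplex_f_self {τ : ι} {J : Set (Fin 3)} {x : E3} (hx : x ∈ M.simplex τ J) :
    M.f τ x = 1 :=
  M.simplex_f_eq (fun i _ => ⟨i, rfl⟩) hx

/-- If a convex combination of numbers that are at least one equals one, then the numbers with
positive weight equal one. -/
theorem eq_one_of_sum {α : Type*} {T : Finset α} {c g : α → ℝ} (hc : ∀ i ∈ T, 0 ≤ c i)
    (hg : ∀ i ∈ T, 1 ≤ g i) (hsum : ∑ i ∈ T, c i = 1) (h : ∑ i ∈ T, c i * g i = 1) :
    ∀ i ∈ T, 0 < c i → g i = 1 := by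
  have h1 : ∑ i ∈ T, c i * (g i - 1) = 0 := by
    simp only [mul_sub, mul_one, Finset.sum_sub_distrib]
    rw [h, hsum, sub_self]
  have h2 := (Finset.sum_eq_zero_iff_of_nonneg
    (fun i hi => mul_nonneg (hc i hi) (by linarith [hg i hi]))).1 h1
  intro i hi hpos
  have h3 := h2 i hi
  rcases mul_eq_zero.1 h3 with h4 | h4
  · linarith
  · linarith

theorem mem_convexHull_of_sum {α : Type*} [Fintype α] {p : α → E3} {c : α → ℝ} {J : Set α}
    (hc : ∀ i, 0 ≤ c i) (hsum : ∑ i, c i = 1) (hJ : ∀ i, 0 < c i → i ∈ J) :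
    ∑ i, c i • p i ∈ convexHull ℝ (p '' J) := by
  classical
  have h0 : ∀ i, i ∉ Finset.univ.filter (fun i => 0 < c i) → c i = 0 := by
    intro i hi
    have : ¬ 0 < c i := by simpa using hi
    exact le_antisymm (not_lt.1 this) (hc i)
  have h1 : ∑ i, c i • p i = ∑ i ∈ Finset.univ.filter (fun i => 0 < c i), c i • p i := by
    symm
    apply Finset.sum_subset (Finset.subset_univ _)
    intro i _ hi
    rw [h0 i hi, zero_smul]
  have h2 : ∑ i ∈ Finset.univ.filter (fun i => 0 < c i), c i = 1 := by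
    rw [← hsum]
    apply Finset.sum_subset (Finset.subset_univ _)
    intro i _ hi
    exact h0 i hi
  rw [h1]
  apply (convex_convexHull ℝ _).sum_mem
  · intro i _; exact hc i
  · exact h2
  · intro i hi
    apply subset_convexHull
    exact ⟨i, hJ i (by simpa using hi), rfl⟩

theorem exists_sum_of_mem_hull_of_f {x : E3} (hx : x ∈ P.hull s) {τ : ι} (h : M.f τ x = 1) :
    ∃ c : Fin 3 → ℝ, (∀ i, 0 ≤ c i) ∧ ∑ i, c i = 1 ∧ x = ∑ i, c i • M.V (verts τ i) := by
  obtain ⟨τ', c, hc, hxc⟩ := M.cover x (M.mem_cone_of_mem_hull hx)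
  have h1 : 1 ≤ ∑ i, c i := by
    have := M.one_le_of_mem_hull hx τ'
    rwa [hxc, M.f_sum_self] at this
  have h2 : ∑ i, c i * M.f τ (M.V (verts τ' i)) = 1 := by
    rw [← M.f_sum, ← hxc, h]
  have h3 : ∀ i, 1 ≤ M.f τ (M.V (verts τ' i)) := fun i =>
    M.one_le_of_mem_hull (M.V_mem_hull _) τ
  have h4 : ∑ i, c i ≤ ∑ i, c i * M.f τ (M.V (verts τ' i)) :=
    Finset.sum_le_sum fun i _ => by nlinarith [hc i, h3 i]
  have h5 : ∑ i, c i = 1 := le_antisymm (h4.trans h2.le) h1
  have h6 := eq_one_of_sum (T := Finset.univ) (fun i _ => hc i) (fun i _ => h3 i) h5 h2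
  -- so x lies in the convex hull of the vertices of τ
  have h7 : x ∈ convexHull ℝ (range fun i => M.V (verts τ i)) := by
    rw [hxc]
    have := mem_convexHull_of_sum (p := fun i => M.V (verts τ' i)) (J := {i | 0 < c i}) hc h5
      (fun i hi => hi)
    refine convexHull_mono ?_ this
    rintro _ ⟨i, hi, rfl⟩
    obtain ⟨j, hj⟩ := M.f_eq τ _ (M.V_lat _) (M.V_cone _) (h6 i (Finset.mem_univ _) hi)
    exact ⟨j, hj.symm⟩
  rw [convexHull_range_eq_exists_affineCombination] at h7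
  obtain ⟨S, w, hw0, hw1, hw2⟩ := h7
  classical
  refine ⟨fun i => if i ∈ S then w i else 0, ?_, ?_, ?_⟩
  · intro i
    by_cases hi : i ∈ S
    · simp [hi, hw0 i hi]
    · simp [hi]
  · rw [Finset.sum_ite_mem, Finset.univ_inter, hw1]
  · rw [← hw2, Finset.affineCombination_eq_linear_combination _ _ _ hw1]
    simp only [ite_smul, zero_smul]
    rw [Finset.sum_ite_mem, Finset.univ_inter]

theorem mem_simplex_of_f_eq {x : E3} (hx : x ∈ P.hull s) {τ τ' : ι} {J : Set (Fin 3)}
    (hJ : ∀ i, verts τ i ∈ range (verts τ') → i ∈ J)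
    (h : M.f τ x = 1) (h' : M.f τ' x = 1) : x ∈ M.simplex τ J := by
  obtain ⟨c, hc, hsum, hxc⟩ := M.exists_sum_of_mem_hull_of_f hx h
  rw [hxc]
  apply mem_convexHull_of_sum hc hsum
  intro i hi
  apply hJ
  have h2 : ∑ i, c i * M.f τ' (M.V (verts τ i)) = 1 := by
    rw [← M.f_sum, ← hxc, h']
  have h3 : ∀ i, 1 ≤ M.f τ' (M.V (verts τ i)) := fun i =>
    M.one_le_of_mem_hull (M.V_mem_hull _) τ'
  have h6 := eq_one_of_sum (T := Finset.univ) (fun i _ => hc i) (fun i _ => h3 i) hsum h2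
  obtain ⟨j, hj⟩ := M.f_eq τ' _ (M.V_lat _) (M.V_cone _) (h6 i (Finset.mem_univ _) hi)
  exact ⟨j, M.V_inj hj.symm⟩

theorem mem_simplex_univ_iff {x : E3} {τ : ι} :
    x ∈ M.simplex τ univ ↔ x ∈ P.hull s ∧ M.f τ x = 1 := by
  constructor
  · intro h
    exact ⟨M.simplex_subset_hull τ _ h, M.simplex_f_self h⟩
  · rintro ⟨h1, h2⟩
    exact M.mem_simplex_of_f_eq h1 (fun i _ => mem_univ i) h2 h2

theorem sail_eq : P.sail s = ⋃ τ, M.simplex τ univ := by
  ext x
  rw [M.mem_sail_iff, mem_iUnion]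
  simp only [M.mem_simplex_univ_iff]
  constructor
  · rintro ⟨h, τ, hτ⟩; exact ⟨τ, h, hτ⟩
  · rintro ⟨τ, h, hτ⟩; exact ⟨h, τ, hτ⟩

theorem simplex_subset_sail (τ : ι) (J : Set (Fin 3)) : M.simplex τ J ⊆ P.sail s := by
  intro x hx
  exact M.mem_sail_iff.2 ⟨M.simplex_subset_hull τ J hx, τ, M.simplex_f_self hx⟩

/-- Every convex subset of the sail lies in one of the triangles. -/
theorem exists_triangle_of_convex {F : Set E3} (hF : Convex ℝ F) (hne : F.Nonempty)
    (hsub : F ⊆ P.sail s) : ∃ τ, ∀ x ∈ F, M.f τ x = 1 := by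
  obtain ⟨t, htF, hspan, hind⟩ := exists_affineIndependent ℝ E3 F
  have hfin : t.Finite := finite_set_of_fin_dim_affineIndependent ℝ hind
  have htne : t.Nonempty := by
    rw [← affineSpan_nonempty ℝ, hspan, affineSpan_nonempty]
    exact hne
  set T := hfin.toFinset with hT
  have hTne : T.Nonempty := by simpa [hT] using htne
  have hcard : (0 : ℝ) < (T.card : ℝ) := by exact_mod_cast hTne.card_pos
  have hx : ∑ p ∈ T, ((T.card : ℝ)⁻¹) • p ∈ F := by
    apply hF.sum_mem
    · intro i _; positivity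
    · rw [Finset.sum_const, nsmul_eq_mul, mul_inv_cancel₀ hcard.ne']
    · intro p hp
      exact htF (by simpa [hT] using hp)
  obtain ⟨h1, τ, hτ⟩ := M.mem_sail_iff.1 (hsub hx)
  refine ⟨τ, ?_⟩
  have h2 : ∑ p ∈ T, (T.card : ℝ)⁻¹ * M.f τ p = 1 := by
    rw [← hτ, map_sum]
    exact Finset.sum_congr rfl fun p _ => by rw [map_smul, smul_eq_mul]
  have h3 : ∀ p ∈ T, 1 ≤ M.f τ p := by
    intro p hp
    have : p ∈ P.sail s := hsub (htF (by simpa [hT] using hp))
    exact M.one_le_of_mem_hull (M.mem_sail_iff.1 this).1 τ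
  have h4 := eq_one_of_sum (T := T) (c := fun _ => (T.card : ℝ)⁻¹) (g := fun p => M.f τ p)
    (fun _ _ => by positivity) h3
    (by rw [Finset.sum_const, nsmul_eq_mul, mul_inv_cancel₀ hcard.ne']) h2
  have h5 : ∀ p ∈ t, M.f τ p = 1 := fun p hp => h4 p (by simpa [hT] using hp) (by positivity)
  obtain ⟨p0, hp0⟩ := htne
  have h6 : affineSpan ℝ t ≤ AffineSubspace.mk' p0 (LinearMap.ker (M.f τ)) := by
    rw [affineSpan_le]
    intro p hp
    change p ∈ AffineSubspace.mk' p0 (LinearMap.ker (M.f τ))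
    rw [AffineSubspace.mem_mk', vsub_eq_sub, LinearMap.mem_ker, map_sub, h5 p hp, h5 p0 hp0,
      sub_self]
  intro x hxF
  have h7 : x ∈ affineSpan ℝ t := by
    rw [hspan]
    exact subset_affineSpan ℝ F hxF
  have h8 := h6 h7
  rw [AffineSubspace.mem_mk', vsub_eq_sub, LinearMap.mem_ker, map_sub, h5 p0 hp0,
    sub_eq_zero] at h8
  exact h8

theorem affineIndependent_V (τ : ι) : AffineIndependent ℝ (fun i => M.V (verts τ i)) :=
  (M.indep τ).affineIndependent

theorem finrank_simplex (τ : ι) (J : Finset (Fin 3)) (hJ : J.Nonempty) :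
    Module.finrank ℝ (vectorSpan ℝ (M.simplex τ (J : Set (Fin 3)))) = J.card - 1 := by
  classical
  have h1 : vectorSpan ℝ (M.simplex τ (J : Set (Fin 3))) =
      vectorSpan ℝ ((fun i => M.V (verts τ i)) '' (J : Set (Fin 3))) := by
    rw [← direction_affineSpan, ← direction_affineSpan, simplex, affineSpan_convexHull]
  rw [h1]
  have h2 := (M.affineIndependent_V τ).finrank_vectorSpan_image_finset (s := J) (n := J.card - 1)
    (by have := hJ.card_pos; omega)
  rw [Finset.coe_image] at h2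
  exact h2

include M in
theorem hull_span (τ : ι) : vectorSpan ℝ (P.hull s) = ⊤ := by
  have h1 : ∀ i, M.V (verts τ i) ∈ vectorSpan ℝ (P.hull s) := by
    intro i
    have h2 : (2 : ℝ) • M.V (verts τ i) ∈ P.hull s :=
      M.irr.smul_mem_hull (M.V_mem_hull _) (by norm_num)
    have h3 := vsub_mem_vectorSpan ℝ h2 (M.V_mem_hull (verts τ i))
    rw [vsub_eq_sub, two_smul, add_sub_cancel_right] at h3
    exact h3
  rw [eq_top_iff, ← (M.indep τ).span_eq_top_of_card_eq_finrank' (by simp), Submodule.span_le]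
  rintro _ ⟨i, rfl⟩
  exact h1 i

/-- An exposed subset of the hull contained in a triangle is a face of the triangle. -/
theorem exposed_eq_simplex {F : Set E3} (hne : F.Nonempty) (hexp : IsExposed ℝ (P.hull s) F)
    {τ : ι} (hτ : ∀ x ∈ F, M.f τ x = 1) :
    ∃ J : Finset (Fin 3), J.Nonempty ∧ F = M.simplex τ (J : Set (Fin 3)) := by
  classical
  have hconv : Convex ℝ F := hexp.convex (convex_convexHull ℝ _)
  obtain ⟨l, hl⟩ := hexp hne
  have hFh : F ⊆ P.hull s := hexp.subset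
  have key : ∀ x ∈ F, x ∈ M.simplex τ {i | M.V (verts τ i) ∈ F} := by
    intro x hx
    obtain ⟨c, hc, hsum, hxc⟩ := M.exists_sum_of_mem_hull_of_f (hFh hx) (hτ x hx)
    rw [hxc]
    apply mem_convexHull_of_sum hc hsum
    intro i hi
    have hx' := hx
    rw [hl] at hx'
    have hle : ∀ j, l (M.V (verts τ j)) ≤ l x := fun j => hx'.2 _ (M.V_mem_hull _)
    have hsum2 : ∑ j, c j * (l x - l (M.V (verts τ j))) = 0 := by
      simp only [mul_sub, Finset.sum_sub_distrib]
      rw [← Finset.sum_mul, hsum, one_mul, sub_eq_zero]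
      conv_lhs => rw [hxc]
      rw [map_sum]
      exact Finset.sum_congr rfl fun j _ => by rw [map_smul, smul_eq_mul]
    have h2 := (Finset.sum_eq_zero_iff_of_nonneg
      (fun j _ => mul_nonneg (hc j) (by linarith [hle j]))).1 hsum2 i (Finset.mem_univ _)
    have h3 : l (M.V (verts τ i)) = l x := by
      rcases mul_eq_zero.1 h2 with h4 | h4
      · linarith
      · linarith
    change M.V (verts τ i) ∈ F
    rw [hl]
    exact ⟨M.V_mem_hull _, fun y hy => by rw [h3]; exact hx'.2 y hy⟩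
  refine ⟨Finset.univ.filter (fun i => M.V (verts τ i) ∈ F), ?_, ?_⟩
  · obtain ⟨x, hx⟩ := hne
    have h1 := key x hx
    have h2 : ((fun i => M.V (verts τ i)) '' {i | M.V (verts τ i) ∈ F}).Nonempty := by
      rw [← convexHull_nonempty_iff (𝕜 := ℝ)]
      exact ⟨x, h1⟩
    obtain ⟨_, i, hi, rfl⟩ := h2
    exact ⟨i, by simpa using hi⟩
  · apply Subset.antisymm
    · intro x hx
      have := key x hx
      simpa using this
    · apply convexHull_min _ hconv
      rintro _ ⟨i, hi, rfl⟩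
      simpa using hi

theorem isExposed_simplex (hG : GoodVerts verts) (τ : ι) (J : Finset (Fin 3)) (hJ : J.Nonempty) :
    IsExposed ℝ (P.hull s) (M.simplex τ (J : Set (Fin 3))) := by
  intro _
  obtain ⟨τ', hτ'⟩ := hG.nbr τ J hJ
  refine ⟨-(LinearMap.toContinuousLinearMap (M.f τ) + LinearMap.toContinuousLinearMap (M.f τ')),
    ?_⟩
  obtain ⟨j, hj⟩ := hJ
  have hVj : M.V (verts τ j) ∈ P.hull s := M.V_mem_hull _
  have hf1 : M.f τ (M.V (verts τ j)) = 1 := M.f_vert τ j
  have hf2 : M.f τ' (M.V (verts τ j)) = 1 := by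
    obtain ⟨i, hi⟩ := (hτ' j).2 hj
    rw [← hi]; exact M.f_vert τ' i
  ext x
  constructor
  · intro hx
    refine ⟨M.simplex_subset_hull _ _ hx, fun y hy => ?_⟩
    have h1 : M.f τ x = 1 := M.simplex_f_self hx
    have h2 : M.f τ' x = 1 := M.simplex_f_eq (fun i hi => (hτ' i).2 hi) hx
    have h3 := M.one_le_of_mem_hull hy τ
    have h4 := M.one_le_of_mem_hull hy τ'
    change -(M.f τ y + M.f τ' y) ≤ -(M.f τ x + M.f τ' x)
    linarith
  · rintro ⟨hx, hmax⟩
    have h1 := hmax _ hVj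
    change -(M.f τ (M.V (verts τ j)) + M.f τ' (M.V (verts τ j))) ≤ -(M.f τ x + M.f τ' x) at h1
    have h3 := M.one_le_of_mem_hull hx τ
    have h4 := M.one_le_of_mem_hull hx τ'
    exact M.mem_simplex_of_f_eq hx (fun i hi => (hτ' i).1 hi) (by linarith) (by linarith)

/-- Classification of cells. -/
theorem isCell_iff (hG : GoodVerts verts) {F : Set E3} {d : ℕ} (hd : d ≤ 2) :
    IsCell (P.hull s) F d ↔
      ∃ τ, ∃ J : Finset (Fin 3), J.card = d + 1 ∧ F = M.simplex τ (J : Set (Fin 3)) := by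
  constructor
  · rintro ⟨hne, hexp, hrank⟩
    obtain ⟨l, hl⟩ := hexp hne
    have hτ0 : Nonempty ι := by
      obtain ⟨x, hx⟩ := hne
      obtain ⟨τ, _⟩ := M.cover x (M.mem_cone_of_mem_hull (hexp.subset hx))
      exact ⟨τ⟩
    obtain ⟨τ0⟩ := hτ0
    have hl0 : l ≠ 0 := by
      rintro rfl
      have hFe : F = P.hull s := by
        rw [hl]; ext x; simp
      rw [hFe, M.hull_span τ0] at hrank
      simp at hrank
      omega
    have hFs : F ⊆ P.sail s := by
      intro x hx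
      rw [PlaneTriple.sail, M.isClosed_hull.frontier_eq]
      refine ⟨hexp.subset hx, fun hint => ?_⟩
      obtain ⟨v, hv⟩ : ∃ v, l v ≠ 0 := by
        by_contra hcon
        push Not at hcon
        exact hl0 (ContinuousLinearMap.ext hcon)
      wlog hv0 : 0 < l v generalizing v
      · exact this (-v) (by simpa using hv) (by
          have : l v < 0 := lt_of_le_of_ne (not_lt.1 hv0) hv
          rw [map_neg]; linarith)
      have hcont : Continuous fun t : ℝ => x + t • v :=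
        continuous_const.add (continuous_id.smul continuous_const)
      have h1 : ∀ᶠ t in 𝓝 (0 : ℝ), x + t • v ∈ P.hull s := by
        have := hcont.continuousAt (x := (0 : ℝ))
        refine this.eventually ?_
        simp only [zero_smul, add_zero]
        exact mem_interior_iff_mem_nhds.1 hint
      rw [Metric.eventually_nhds_iff] at h1
      obtain ⟨δ, hδ, h2⟩ := h1
      have h3 : x + (δ / 2) • v ∈ P.hull s := by
        apply h2
        rw [Real.dist_eq, sub_zero, abs_of_pos (by linarith)]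
        linarith
      rw [hl] at hx
      have h4 := hx.2 _ h3
      rw [map_add, map_smul, smul_eq_mul] at h4
      nlinarith
    obtain ⟨τ, hτ⟩ := M.exists_triangle_of_convex (hexp.convex (convex_convexHull ℝ _)) hne hFs
    obtain ⟨J, hJ, hFJ⟩ := M.exposed_eq_simplex hne hexp hτ
    refine ⟨τ, J, ?_, hFJ⟩
    rw [hFJ, M.finrank_simplex τ J hJ] at hrank
    have := hJ.card_pos
    omega
  · rintro ⟨τ, J, hJ, rfl⟩
    have hJne : J.Nonempty := by
      rw [← Finset.card_pos]; omega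
    refine ⟨?_, M.isExposed_simplex hG τ J hJne, ?_⟩
    · obtain ⟨j, hj⟩ := hJne
      exact ⟨M.V (verts τ j), subset_convexHull _ _ ⟨j, hj, rfl⟩⟩
    · rw [M.finrank_simplex τ J hJne, hJ]
      simp

end SailModel

end Pool.Agent.H4Sail
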