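import Mathlib

/-!
# Two-dimensional (Klein) continued fractions and the integer invariants of their sails

Definitions used in the statement for problem MP_97563e_nt.
-/

namespace Pool.Agent.H4Sail

/-- Real 3-space. -/
abbrev E3 : Type := Fin 3 → ℝ

/-- The lattice of integer points of real 3-space, as an additive subgroup. -/
def intLattice : AddSubgroup E3 where
  carrier := {x | ∀ i, ∃ n : ℤ, x i = (n : ℝ)}
  zero_mem' := fun _ => ⟨0, by simp⟩
  add_mem' := by
    intro x y hx hy i
    obtain ⟨n, hn⟩ := hx i
    obtain ⟨m, hm⟩ := hy i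
    exact ⟨n + m, by simp [hn, hm]⟩
  neg_mem' := by
    intro x hx i
    obtain ⟨n, hn⟩ := hx i
    exact ⟨-n, by simp [hn]⟩

/-- Three planes through the origin in general position: the kernels of three linearly
independent linear forms. -/
structure PlaneTriple where
  /-- the linear forms whose kernels are the three planes -/
  form : Fin 3 → (E3 →ₗ[ℝ] ℝ)
  /-- general position -/
  indep : LinearIndependent ℝ form

/-- The eight open cones cut out by the three planes, indexed by sign vectors. -/
def PlaneTriple.cone (P : PlaneTriple) (s : Fin 3 → ℤˣ) : Set E3 :=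
  {x | ∀ i, 0 < (((s i : ℤˣ) : ℤ) : ℝ) * P.form i x}

/-- The convex hull of the nonzero integer points of the closure of the cone. -/
def PlaneTriple.hull (P : PlaneTriple) (s : Fin 3 → ℤˣ) : Set E3 :=
  convexHull ℝ ((closure (P.cone s) ∩ (intLattice : Set E3)) \ {0})

/-- The sail of a cone: the boundary of the convex hull of the nonzero integer points of the
closure of the cone. -/
def PlaneTriple.sail (P : PlaneTriple) (s : Fin 3 → ℤˣ) : Set E3 :=
  frontier (P.hull s)

/-- The union of the eight sails. -/
def PlaneTriple.sailUnion (P : PlaneTriple) : Set E3 := ⋃ s, P.sail s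

/-- The action of `GL(3, ℤ)` on real 3-space. -/
def intAct (g : GL (Fin 3) ℤ) (x : E3) : E3 :=
  ((g : Matrix (Fin 3) (Fin 3) ℤ).map (fun n : ℤ => (n : ℝ))).mulVec x

/-- Two two-dimensional continued fractions are equivalent if some element of `GL(3, ℤ)` maps the
union of the sails of the first onto the union of the sails of the second. -/
def Equivalent (P Q : PlaneTriple) : Prop :=
  ∃ g : GL (Fin 3) ℤ, intAct g '' P.sailUnion = Q.sailUnion

/-- `F` is a `d`-dimensional cell of the boundary of the convex set `K`: a nonempty exposed
subset of `K` whose affine span has dimension `d`.  For `K` the convex hull whose boundary is a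
sail, the cells with `d = 2`, `1`, `0` are the faces, the edges and the vertices of the sail. -/
def IsCell (K F : Set E3) (d : ℕ) : Prop :=
  F.Nonempty ∧ IsExposed ℝ K F ∧ Module.finrank ℝ (vectorSpan ℝ F) = d

/-- The integer vectors parallel to the affine span of `F`; for a lattice polygon or a lattice
triangle `F` this is the lattice of its plane (translated to the origin). -/
def dirLattice (F : Set E3) : AddSubgroup E3 :=
  intLattice ⊓ (vectorSpan ℝ F).toAddSubgroup

/-- The integer length of a lattice segment `e`: the number of lattice points on it minus one. -/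
noncomputable def intLength (e : Set E3) : ℕ∞ := (e ∩ (intLattice : Set E3)).encard - 1

/-- The integer area of the lattice triangle with vertex set `t`: the index, in the lattice of its
plane, of the subgroup generated by the edge vectors. -/
noncomputable def triArea (t : Set E3) : ℕ :=
  (AddSubgroup.closure {z | ∃ x ∈ t, ∃ y ∈ t, z = y - x}).relIndex (dirLattice t)

/-- `T` (a finite set of vertex sets) is a triangulation of `F` into lattice triangles. -/
structure IsLatticeTriangulation (F : Set E3) (T : Finset (Finset E3)) : Prop where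
  /-- all vertices are lattice points -/
  lattice : ∀ t ∈ T, ∀ x ∈ t, x ∈ intLattice
  /-- every member of `T` is the set of the three vertices of a nondegenerate triangle -/
  triangle : ∀ t ∈ T, t.card = 3 ∧ AffineIndependent ℝ (fun x : t => (x : E3))
  /-- the triangles cover `F` -/
  cover : F = ⋃ t ∈ T, convexHull ℝ (t : Set E3)
  /-- two triangles meet in a common vertex, a common edge, or not at all -/
  inter : ∀ t ∈ T, ∀ u ∈ T, convexHull ℝ (t : Set E3) ∩ convexHull ℝ (u : Set E3) =
    convexHull ℝ ((t : Set E3) ∩ (u : Set E3))

/-- The lattice polygon `F` has integer area `n`: `n` is the sum of the integer areas of the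
triangles of a lattice triangulation of `F`. -/
def HasIntArea (F : Set E3) (n : ℕ) : Prop :=
  ∃ T : Finset (Finset E3), IsLatticeTriangulation F T ∧ ∑ t ∈ T, triArea (t : Set E3) = n

/-- `F` lies in a plane at integer distance `n` from the origin: the plane is given by an equation
`a 0 * x 0 + a 1 * x 1 + a 2 * x 2 = c` where `a` is a primitive integer vector and `|c| = n`. -/
def HasIntDist (F : Set E3) (n : ℕ) : Prop :=
  ∃ a : Fin 3 → ℤ, (∀ d : ℤ, (∀ i, d ∣ a i) → IsUnit d) ∧
    ∃ c : ℤ, c.natAbs = n ∧ ∀ x ∈ F, ∑ i, (a i : ℝ) * x i = (c : ℝ)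

/-- The ray from `v` through the segment `e` with endpoint `v`. -/
def rayFrom (v : E3) (e : Set E3) : Set E3 :=
  {x | ∃ y ∈ e, ∃ t : ℝ, 0 ≤ t ∧ x = v + t • (y - v)}

/-- The integer angle at the common endpoint `v` of the segments `e₁`, `e₂`: the index, in the
lattice of their plane, of the subgroup generated by the lattice points on the two rays from `v`
(with `v` as the origin). -/
noncomputable def intAngle (v : E3) (e₁ e₂ : Set E3) : ℕ :=
  (AddSubgroup.closure {z | ∃ x ∈ (intLattice : Set E3),
    (x ∈ rayFrom v e₁ ∨ x ∈ rayFrom v e₂) ∧ z = x - v}).relIndex (dirLattice (e₁ ∪ e₂))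

/-- The image of a subset `F` of `S` under a map `S → S'`, as a subset of real 3-space. -/
def carry {S S' : Set E3} (φ : S → S') (F : Set E3) : Set E3 :=
  {y | ∃ x : S, (x : E3) ∈ F ∧ ((φ x : S') : E3) = y}

/-- The homeomorphism `φ` from the sail of the cone `s` of `P` onto the sail of the cone `t`
of `Q` carries faces to faces, edges to edges and vertices to vertices (in both directions), and
corresponding faces have the same integer area and the same integer distance to the origin (each of
the two is well defined for both faces), corresponding edges have the same integer length, and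
corresponding pairs of adjacent edges of a face have the same integer angle. -/
structure PreservesInvariants (P Q : PlaneTriple) (s t : Fin 3 → ℤˣ)
    (φ : P.sail s ≃ₜ Q.sail t) : Prop where
  cell : ∀ d : ℕ, d ≤ 2 → ∀ F ⊆ P.sail s, (IsCell (P.hull s) F d ↔ IsCell (Q.hull t) (carry φ F) d)
  area : ∀ F ⊆ P.sail s, IsCell (P.hull s) F 2 →
    ∃ n, (∀ m, HasIntArea F m ↔ m = n) ∧ (∀ m, HasIntArea (carry φ F) m ↔ m = n)
  dist : ∀ F ⊆ P.sail s, IsCell (P.hull s) F 2 →
    ∃ n, (∀ m, HasIntDist F m ↔ m = n) ∧ (∀ m, HasIntDist (carry φ F) m ↔ m = n)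
  length : ∀ e ⊆ P.sail s, IsCell (P.hull s) e 1 → intLength e = intLength (carry φ e)
  angle : ∀ F ⊆ P.sail s, IsCell (P.hull s) F 2 →
    ∀ e₁ ⊆ F, ∀ e₂ ⊆ F, IsCell (P.hull s) e₁ 1 → IsCell (P.hull s) e₂ 1 →
      ∀ v : P.sail s, e₁ ∩ e₂ = {(v : E3)} →
        intAngle (v : E3) e₁ e₂ = intAngle ((φ v : Q.sail t) : E3) (carry φ e₁) (carry φ e₂)

/-- None of the three planes contains a nonzero integer point. -/
def PlaneTriple.TotallyIrrational (P : PlaneTriple) : Prop :=
  ∀ k, ∀ x ∈ intLattice, P.form k x = 0 → x = 0

/-- The continued fraction is doubly periodic: there are two commuting independent elements of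
`GL(3, ℤ)`, both of infinite order, each of which maps every one of the eight sails onto itself. -/
def PlaneTriple.DoublyPeriodic (P : PlaneTriple) : Prop :=
  ∃ A B : GL (Fin 3) ℤ, A * B = B * A ∧ (∀ i j : ℤ, A ^ i * B ^ j = 1 → i = 0 ∧ j = 0) ∧
    ∀ s, intAct A '' P.sail s = P.sail s ∧ intAct B '' P.sail s = P.sail s

end Pool.Agent.H4Sail
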