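import Pool.Agent.H4Sail.Numeric

namespace Pool.Agent.H4Sail

open Set Topology

/-! ## First example: the cubic field of `x^3 - 12 x^2 + 11 x - 1` -/

/-- First automorphism of the first example. -/
def A1 : GL (Fin 3) ℤ where
  val := !![0, -9, -8; 1, 11, 9; 0, 1, 1]
  inv := !![2, 1, 7; -1, 0, -8; 1, 0, 9]
  val_inv := by decide
  inv_val := by decide

/-- Second automorphism of the first example. -/
def B1 : GL (Fin 3) ℤ where
  val := !![7, 0, 55; -8, 0, -63; 9, 1, 71]
  inv := !![63, 55, 0; 1, 2, 1; -8, -7, 0]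
  val_inv := by decide
  inv_val := by decide

theorem intAct_A1 (x : E3) :
    intAct A1 x = ![-9 * x 1 - 8 * x 2, x 0 + 11 * x 1 + 9 * x 2, x 1 + x 2] := by
  apply ext3 <;> simp [intAct, A1, Matrix.mulVec, dotProduct, Fin.sum_univ_three] <;> ring

theorem intAct_B1 (x : E3) :
    intAct B1 x = ![7 * x 0 + 55 * x 2, -8 * x 0 - 63 * x 2, 9 * x 0 + x 1 + 71 * x 2] := by
  apply ext3 <;> simp [intAct, B1, Matrix.mulVec, dotProduct, Fin.sum_univ_three] <;> ring

theorem ex1U (x0 x1 x2 : ℤ)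
    (h0 : CI 1022 1023 78861 78862 10000 x0 x1 x2)
    (h1 : CI 8887 8888 139 140 10000 x0 x1 x2)
    (h2 : CI 110090 110091 90999 91000 10000 x0 x1 x2) :
    1 ≤ x0 + x1 + x2 ∧ (x0 + x1 + x2 = 1 → (x0 = 1 ∧ x1 = 0 ∧ x2 = 0) ∨
      (x0 = 0 ∧ x1 = 1 ∧ x2 = 0) ∨ (x0 = 0 ∧ x1 = 0 ∧ x2 = 1)) := by
  simp only [CI] at h0 h1 h2
  refine ⟨by omega, fun h => ?_⟩
  have b1 : 0 ≤ x2 := by omega
  have b2 : x2 ≤ 1 := by omega
  interval_cases x2 <;> omega

theorem ex1D (x0 x1 x2 : ℤ)
    (h0 : CI 1022 1023 78861 78862 10000 x0 x1 x2)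
    (h1 : CI 8887 8888 139 140 10000 x0 x1 x2)
    (h2 : CI 110090 110091 90999 91000 10000 x0 x1 x2) :
    8 ≤ 8 * x0 + 15 * x1 + 8 * x2 ∧ (8 * x0 + 15 * x1 + 8 * x2 = 8 →
      (x0 = 1 ∧ x1 = 0 ∧ x2 = 0) ∨ (x0 = 0 ∧ x1 = 0 ∧ x2 = 1) ∨
      (x0 = 7 ∧ x1 = -8 ∧ x2 = 9)) := by
  simp only [CI] at h0 h1 h2
  have b0 : 1 ≤ 8 * x0 + 15 * x1 + 8 * x2 := by omega
  by_cases hm : 9 ≤ 8 * x0 + 15 * x1 + 8 * x2
  · exact ⟨by omega, by omega⟩
  have hm' : 8 * x0 + 15 * x1 + 8 * x2 ≤ 8 := by omega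
  have b1 : -9 ≤ x1 := by omega
  have b2 : x1 ≤ 1 := by omega
  interval_cases x1 <;> omega

/-- The covectors of the two base triangles of the first example. -/
def N1 : Bool → Fin 3 → ℤ
  | false => ![1, 1, 1]
  | true => ![8, 15, 8]

theorem fB1_false (x : E3) : fB (N1 false) (stdDist false) x = x 0 + x 1 + x 2 := by
  simp [fB_apply, N1, stdDist, Fin.sum_univ_three]

theorem fB1_true (x : E3) :
    fB (N1 true) (stdDist true) x = (8 * x 0 + 15 * x 1 + 8 * x 2) / 8 := by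
  simp [fB_apply, N1, stdDist, Fin.sum_univ_three]
  ring

theorem vtx1_00 : vtx A1 B1 (0, 0) = ![1, 0, 0] := by
  simp [vtx, e0, intAct_one]

theorem vtx1_10 : vtx A1 B1 (1, 0) = ![0, 1, 0] := by
  simp [vtx, e0, intAct_A1]

theorem vtx1_11 : vtx A1 B1 (1, 1) = ![0, 0, 1] := by
  rw [vtx, zpow_one, zpow_one, intAct_mul, intAct_B1, intAct_A1]
  apply ext3 <;> simp [e0] <;> norm_num

theorem vtx1_01 : vtx A1 B1 (0, 1) = ![7, -8, 9] := by
  rw [vtx, zpow_zero, zpow_one, one_mul, intAct_B1]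
  apply ext3 <;> simp [e0]

theorem exists_ex1 : ∃ (P : PlaneTriple) (W : OneVertexData P stdDist), W.A = A1 := by
  have hcont : Continuous fun x : ℝ => x ^ 3 - 12 * x ^ 2 + 11 * x - 1 := by fun_prop
  obtain ⟨r0, h0l, h0u, h0⟩ := exists_root hcont (u := 0.1022082) (v := 0.1022083)
    (by norm_num) (by norm_num)
  obtain ⟨r1, h1l, h1u, h1⟩ := exists_root hcont (u := 0.8887165) (v := 0.8887166)
    (by norm_num) (by norm_num)
  obtain ⟨r2, h2l, h2u, h2⟩ := exists_root hcont (u := 11.0090751) (v := 11.0090752)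
    (by norm_num) (by norm_num)
  -- the parameters
  set al : Fin 3 → ℝ := ![r0, r1, r2] with hal
  set ga : Fin 3 → ℝ := fun k => al k ^ 2 - 11 * al k + 9 with hga
  set be : Fin 3 → ℝ := fun k => 7 - 8 * al k + 9 * ga k with hbe
  have hroot : ∀ k, al k ^ 3 - 12 * al k ^ 2 + 11 * al k - 1 = 0 := forall_fin3 h0 h1 h2
  have hal0 : al 0 = r0 := rfl
  have hal1 : al 1 = r1 := rfl
  have hal2 : al 2 = r2 := rfl
  have g0l : 7.88615 < ga 0 := by
    simp only [hga, hal0]; nlinarith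
  have g0u : ga 0 < 7.88616 := by
    simp only [hga, hal0]; nlinarith
  have g1l : 0.013934 < ga 1 := by
    simp only [hga, hal1]; nlinarith
  have g1u : ga 1 < 0.013936 := by
    simp only [hga, hal1]; nlinarith
  have g2l : 9.099908 < ga 2 := by
    simp only [hga, hal2]; nlinarith
  have g2u : ga 2 < 9.099911 := by
    simp only [hga, hal2]; nlinarith
  have hindep : LinearIndependent ℝ (fun k => mkForm (al k) (ga k)) :=
    mkForm_indep (p := 9) (q := -11) (r := 1) one_ne_zero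
      (fun k => by simp only [hga]; ring) (by rw [hal0, hal1]; linarith)
      (by rw [hal1, hal2]; linarith)
  let P : PlaneTriple := ⟨fun k => mkForm (al k) (ga k), hindep⟩
  have hP : ∀ k x, P.form k x = x 0 + al k * x 1 + ga k * x 2 := fun k x => rfl
  have halpos : ∀ k, 0 < al k := forall_fin3 (by rw [hal0]; linarith) (by rw [hal1]; linarith)
    (by rw [hal2]; linarith)
  have hbepos : ∀ k, 0 < be k := forall_fin3 (by simp only [hbe, hal0]; linarith)
    (by simp only [hbe, hal1]; linarith) (by simp only [hbe, hal2]; linarith)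
  have hA : EigenAct P A1 al := by
    refine ⟨halpos, fun k x => ?_⟩
    rw [intAct_A1, hP, hP]
    simp only [Matrix.cons_val_zero, Matrix.cons_val_one, Matrix.cons_val]
    simp only [hga]
    linear_combination (x 2) * (-hroot k)
  have hB : EigenAct P B1 be := by
    refine ⟨hbepos, fun k x => ?_⟩
    rw [intAct_B1, hP, hP]
    simp only [Matrix.cons_val_zero, Matrix.cons_val_one, Matrix.cons_val]
    simp only [hbe, hga]
    linear_combination (-(9 : ℝ) * x 1) * (hroot k) +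
      (x 2) * (98 - 9 * al k) * (hroot k)
  have hcone : ∀ x ∈ P.cone 1, 0 < x 0 + r0 * x 1 + ga 0 * x 2 ∧
      0 < x 0 + r1 * x 1 + ga 1 * x 2 ∧ 0 < x 0 + r2 * x 1 + ga 2 * x 2 := by
    intro x hx
    rw [mem_cone_one] at hx
    exact ⟨hx 0, hx 1, hx 2⟩
  have hCI : ∀ x ∈ P.cone 1, ∀ x0 x1 x2 : ℤ, x 0 = x0 → x 1 = x1 → x 2 = x2 →
      CI 1022 1023 78861 78862 10000 x0 x1 x2 ∧ CI 8887 8888 139 140 10000 x0 x1 x2 ∧
      CI 110090 110091 90999 91000 10000 x0 x1 x2 := by
    intro x hx x0 x1 x2 e0 e1 e2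
    obtain ⟨k0, k1, k2⟩ := hcone x hx
    rw [e0, e1, e2] at k0 k1 k2
    refine ⟨ci_of_pos (by norm_num) ?_ ?_ ?_ ?_ k0, ci_of_pos (by norm_num) ?_ ?_ ?_ ?_ k1,
      ci_of_pos (by norm_num) ?_ ?_ ?_ ?_ k2⟩ <;> push_cast <;> linarith
  refine ⟨P, {
    A := A1
    B := B1
    a := al
    b := be
    hA := hA
    hB := hB
    h0 := ?_
    ha0 := ?_
    ha1 := ?_
    hb0 := ?_
    hb1 := ?_
    hb2 := ?_
    hab0 := ?_
    hab2 := ?_
    N := N1
    D_pos := ?_
    low := ?_
    ge := ?_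
    eq := ?_
    vert := ?_
    indep := ?_
    gen := ?_
    prim := ?_ }, rfl⟩
  · intro k; rw [hP]; simp [e0]
  · rw [hal0]; linarith
  · rw [hal1]; linarith
  · simp only [hbe, hal0]; linarith
  · simp only [hbe, hal1]; linarith
  · simp only [hbe, hal2]; linarith
  · have : al 0 * be 0 = ga 0 := by
      simp only [hbe, hga]; linear_combination 9 * hroot 0
    rw [this]; linarith
  · have : al 2 * be 2 = ga 2 := by
      simp only [hbe, hga]; linear_combination 9 * hroot 2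
    rw [this]; linarith
  · intro β; cases β <;> simp [stdDist]
  · -- low
    refine ⟨0.01, by norm_num, fun x hx => ?_⟩
    obtain ⟨k0, k1, k2⟩ := hcone x hx
    have hf : ∀ k, P.form k x = x 0 + al k * x 1 + ga k * x 2 := fun k => rfl
    rcases le_total 0 (x 1) with s1 | s1 <;> rcases le_total 0 (x 2) with s2 | s2
    all_goals
      have m0 := mul_nonneg (sub_nonneg.2 h0l.le) (abs_nonneg (x 1))
      have m0' := mul_nonneg (sub_nonneg.2 h0u.le) (abs_nonneg (x 1))
      have m1 := mul_nonneg (sub_nonneg.2 h1l.le) (abs_nonneg (x 1))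
      have m1' := mul_nonneg (sub_nonneg.2 h1u.le) (abs_nonneg (x 1))
      have m2 := mul_nonneg (sub_nonneg.2 h2l.le) (abs_nonneg (x 1))
      have m2' := mul_nonneg (sub_nonneg.2 h2u.le) (abs_nonneg (x 1))
      have n0 := mul_nonneg (sub_nonneg.2 g0l.le) (abs_nonneg (x 2))
      have n0' := mul_nonneg (sub_nonneg.2 g0u.le) (abs_nonneg (x 2))
      have n1 := mul_nonneg (sub_nonneg.2 g1l.le) (abs_nonneg (x 2))
      have n1' := mul_nonneg (sub_nonneg.2 g1u.le) (abs_nonneg (x 2))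
      have n2 := mul_nonneg (sub_nonneg.2 g2l.le) (abs_nonneg (x 2))
      have n2' := mul_nonneg (sub_nonneg.2 g2u.le) (abs_nonneg (x 2))
      first | rw [abs_of_nonneg s1] at m0 m0' m1 m1' m2 m2' | rw [abs_of_nonpos s1] at m0 m0' m1 m1' m2 m2'
      first | rw [abs_of_nonneg s2] at n0 n0' n1 n1' n2 n2' | rw [abs_of_nonpos s2] at n0 n0' n1 n1' n2 n2'
      intro β
      cases β
      · rw [fB1_false]
        apply forall_fin3
        · rw [hf, hal0]; linarith
        · rw [hf, hal1]; linarith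
        · rw [hf, hal2]; linarith
      · rw [fB1_true]
        apply forall_fin3
        · rw [hf, hal0]; linarith
        · rw [hf, hal1]; linarith
        · rw [hf, hal2]; linarith
  · -- ge
    intro β x hx hxc
    obtain ⟨x0, x1, x2, e0, e1, e2⟩ := lattice_cast hx
    obtain ⟨c0, c1, c2⟩ := hCI x hxc x0 x1 x2 e0 e1 e2
    cases β
    · rw [fB1_false, e0, e1, e2]
      have := (ex1U x0 x1 x2 c0 c1 c2).1
      exact_mod_cast this
    · rw [fB1_true, e0, e1, e2, le_div_iff₀ (by norm_num)]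
      have := (ex1D x0 x1 x2 c0 c1 c2).1
      have h : (8 : ℝ) ≤ 8 * x0 + 15 * x1 + 8 * x2 := by exact_mod_cast this
      linarith
  · -- eq
    intro β x hx hxc hval
    obtain ⟨x0, x1, x2, e0, e1, e2⟩ := lattice_cast hx
    obtain ⟨c0, c1, c2⟩ := hCI x hxc x0 x1 x2 e0 e1 e2
    cases β
    · rw [fB1_false, e0, e1, e2] at hval
      have hval' : x0 + x1 + x2 = 1 := by exact_mod_cast hval
      rcases (ex1U x0 x1 x2 c0 c1 c2).2 hval' with ⟨q0, q1, q2⟩ | ⟨q0, q1, q2⟩ | ⟨q0, q1, q2⟩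
      · refine ⟨0, ?_⟩
        change x = vtx A1 B1 (0, 0)
        rw [vtx1_00]
        apply ext3 <;> simp [e0, e1, e2, q0, q1, q2]
      · refine ⟨1, ?_⟩
        change x = vtx A1 B1 (1, 0)
        rw [vtx1_10]
        apply ext3 <;> simp [e0, e1, e2, q0, q1, q2]
      · refine ⟨2, ?_⟩
        change x = vtx A1 B1 (1, 1)
        rw [vtx1_11]
        apply ext3 <;> simp [e0, e1, e2, q0, q1, q2]
    · rw [fB1_true, e0, e1, e2, div_eq_one_iff_eq (by norm_num)] at hval
      have hval' : 8 * x0 + 15 * x1 + 8 * x2 = 8 := by exact_mod_cast hval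
      rcases (ex1D x0 x1 x2 c0 c1 c2).2 hval' with ⟨q0, q1, q2⟩ | ⟨q0, q1, q2⟩ | ⟨q0, q1, q2⟩
      · refine ⟨0, ?_⟩
        change x = vtx A1 B1 (0, 0)
        rw [vtx1_00]
        apply ext3 <;> simp [e0, e1, e2, q0, q1, q2]
      · refine ⟨1, ?_⟩
        change x = vtx A1 B1 (1, 1)
        rw [vtx1_11]
        apply ext3 <;> simp [e0, e1, e2, q0, q1, q2]
      · refine ⟨2, ?_⟩
        change x = vtx A1 B1 (0, 1)
        rw [vtx1_01]
        apply ext3 <;> simp [e0, e1, e2, q0, q1, q2]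
  · -- vert
    intro β
    cases β
    · apply forall_fin3
      · change fB (N1 false) (stdDist false) (vtx A1 B1 (0, 0)) = 1
        rw [fB1_false, vtx1_00]; simp
      · change fB (N1 false) (stdDist false) (vtx A1 B1 (1, 0)) = 1
        rw [fB1_false, vtx1_10]; simp
      · change fB (N1 false) (stdDist false) (vtx A1 B1 (1, 1)) = 1
        rw [fB1_false, vtx1_11]; simp
    · apply forall_fin3
      · change fB (N1 true) (stdDist true) (vtx A1 B1 (0, 0)) = 1
        rw [fB1_true, vtx1_00]; simp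
      · change fB (N1 true) (stdDist true) (vtx A1 B1 (1, 1)) = 1
        rw [fB1_true, vtx1_11]; simp
      · change fB (N1 true) (stdDist true) (vtx A1 B1 (0, 1)) = 1
        rw [fB1_true, vtx1_01]; simp; norm_num
  · -- indep
    intro β
    cases β
    · rw [Fintype.linearIndependent_iff]
      intro c hc
      have hc' : c 0 • (![1, 0, 0] : E3) + c 1 • ![0, 1, 0] + c 2 • ![0, 0, 1] = 0 := by
        rw [← hc, Fin.sum_univ_three]
        change _ = c 0 • vtx A1 B1 (0, 0) + c 1 • vtx A1 B1 (1, 0) + c 2 • vtx A1 B1 (1, 1)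
        rw [vtx1_00, vtx1_10, vtx1_11]
      have q0 := congrFun hc' 0
      have q1 := congrFun hc' 1
      have q2 := congrFun hc' 2
      simp at q0 q1 q2
      exact forall_fin3 q0 q1 q2
    · rw [Fintype.linearIndependent_iff]
      intro c hc
      have hc' : c 0 • (![1, 0, 0] : E3) + c 1 • ![0, 0, 1] + c 2 • ![7, -8, 9] = 0 := by
        rw [← hc, Fin.sum_univ_three]
        change _ = c 0 • vtx A1 B1 (0, 0) + c 1 • vtx A1 B1 (1, 1) + c 2 • vtx A1 B1 (0, 1)
        rw [vtx1_00, vtx1_11, vtx1_01]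
      have q0 := congrFun hc' 0
      have q1 := congrFun hc' 1
      have q2 := congrFun hc' 2
      simp at q0 q1 q2
      refine forall_fin3 ?_ ?_ ?_
      · rw [q1] at q0; linarith
      · rw [q1] at q2; linarith
      · exact q1
  · -- gen
    intro β z hz hval
    obtain ⟨z0, z1, z2, e0, e1, e2⟩ := lattice_cast hz
    cases β
    · rw [fB1_false, e0, e1, e2] at hval
      have hval' : z0 + z1 + z2 = 0 := by exact_mod_cast hval
      refine ⟨z1, z2, ?_⟩
      change z = z1 • (vtx A1 B1 (1, 0) - vtx A1 B1 (0, 0)) +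
        z2 • (vtx A1 B1 (1, 1) - vtx A1 B1 (0, 0))
      rw [vtx1_00, vtx1_10, vtx1_11]
      have hz0 : (z0 : ℝ) = -z1 - z2 := by
        have : z0 = -z1 - z2 := by omega
        rw [this]; push_cast; ring
      apply ext3
      · simp [e0, hz0]; ring
      · simp [e1]
      · simp [e2]
    · rw [fB1_true, e0, e1, e2, div_eq_zero_iff] at hval
      have hval' : 8 * z0 + 15 * z1 + 8 * z2 = 0 := by
        rcases hval with h | h
        · exact_mod_cast h
        · norm_num at h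
      obtain ⟨n, hn⟩ : ∃ n, z1 = -8 * n := ⟨-z1 / 8, by omega⟩
      refine ⟨z2 - 9 * n, n, ?_⟩
      change z = (z2 - 9 * n) • (vtx A1 B1 (1, 1) - vtx A1 B1 (0, 0)) +
        n • (vtx A1 B1 (0, 1) - vtx A1 B1 (0, 0))
      rw [vtx1_00, vtx1_11, vtx1_01]
      have hz0 : (z0 : ℝ) = -(z2 - 9 * n) + 6 * n := by
        have : z0 = -(z2 - 9 * n) + 6 * n := by omega
        rw [this]; push_cast; ring
      have hz1 : (z1 : ℝ) = -8 * n := by rw [hn]; push_cast; ring
      apply ext3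
      · simp [e0, hz0]; ring
      · simp [e1, hz1]; ring
      · simp [e2]; ring
  · -- prim
    intro β
    cases β
    · exact ⟨![1, 0, 0], by simp [N1, Fin.sum_univ_three]⟩
    · exact ⟨![2, -1, 0], by simp [N1, Fin.sum_univ_three]⟩

end Pool.Agent.H4Sail
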