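import Pool.Agent.H4Sail.Complex

namespace Pool.Agent.H4Sail

open Set Topology

variable {ι κ : Type}

namespace SailModel

variable {P Q : PlaneTriple} {s t : Fin 3 → ℤˣ} {verts : ι → Fin 3 → κ} {D : ι → ℕ}
variable (M : SailModel P s verts D) (M' : SailModel Q t verts D)

/-- The basis given by the vertices of a triangle. -/
noncomputable def basis (τ : ι) : Module.Basis (Fin 3) ℝ E3 :=
  basisOfLinearIndependentOfCardEqFinrank (M.indep τ) (by simp)

theorem basis_apply (τ : ι) (i : Fin 3) : M.basis τ i = M.V (verts τ i) := by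
  simp [basis]

/-- The linear map carrying the vertices of a triangle to the corresponding vertices. -/
noncomputable def trans (τ : ι) : E3 →ₗ[ℝ] E3 :=
  (M.basis τ).constr ℝ (fun i => M'.V (verts τ i))

theorem trans_vert (τ : ι) (i : Fin 3) : M.trans M' τ (M.V (verts τ i)) = M'.V (verts τ i) := by
  rw [trans, ← M.basis_apply, Module.Basis.constr_basis]

theorem trans_sum (τ : ι) (c : Fin 3 → ℝ) :
    M.trans M' τ (∑ i, c i • M.V (verts τ i)) = ∑ i, c i • M'.V (verts τ i) := by
  rw [map_sum]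
  exact Finset.sum_congr rfl fun i _ => by rw [map_smul, trans_vert]

theorem trans_image (τ : ι) (J : Set (Fin 3)) :
    M.trans M' τ '' M.simplex τ J = M'.simplex τ J := by
  rw [simplex, LinearMap.image_convexHull, image_image]
  have : (fun i => M.trans M' τ (M.V (verts τ i))) = fun i => M'.V (verts τ i) := by
    funext i; exact M.trans_vert M' τ i
  rw [this]
  rfl

theorem trans_eq_of_mem {x : E3} {τ τ' : ι} (h : x ∈ M.simplex τ univ)
    (h' : x ∈ M.simplex τ' univ) : M.trans M' τ x = M.trans M' τ' x := by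
  have h1 := M.mem_simplex_univ_iff.1 h
  have h2 := M.mem_simplex_univ_iff.1 h'
  have h3 : x ∈ M.simplex τ {i | verts τ i ∈ range (verts τ')} :=
    M.mem_simplex_of_f_eq h1.1 (fun i hi => hi) h1.2 h2.2
  have h4 : M.simplex τ {i | verts τ i ∈ range (verts τ')} ⊆
      (LinearMap.eqLocus (M.trans M' τ) (M.trans M' τ') : Set E3) := by
    apply convexHull_min
    · rintro _ ⟨i, ⟨j, hj⟩, rfl⟩
      change M.trans M' τ (M.V (verts τ i)) = M.trans M' τ' (M.V (verts τ i))
      rw [trans_vert, ← hj, trans_vert]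
    · exact (LinearMap.eqLocus (M.trans M' τ) (M.trans M' τ')).convex
  exact h4 h3

open Classical in
/-- The piecewise linear map between two sails with the same combinatorial structure. -/
noncomputable def plMap (x : E3) : E3 :=
  if h : ∃ τ, x ∈ M.simplex τ univ then M.trans M' h.choose x else 0

theorem plMap_eq {x : E3} {τ : ι} (h : x ∈ M.simplex τ univ) :
    M.plMap M' x = M.trans M' τ x := by
  have hex : ∃ τ, x ∈ M.simplex τ univ := ⟨τ, h⟩
  rw [plMap, dif_pos hex]
  exact M.trans_eq_of_mem M' hex.choose_spec h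

theorem simplex_mono (τ : ι) {J J' : Set (Fin 3)} (h : J ⊆ J') :
    M.simplex τ J ⊆ M.simplex τ J' :=
  convexHull_mono (image_mono h)

theorem plMap_eq' {x : E3} {τ : ι} {J : Set (Fin 3)} (h : x ∈ M.simplex τ J) :
    M.plMap M' x = M.trans M' τ x :=
  M.plMap_eq M' (M.simplex_mono τ (subset_univ _) h)

theorem plMap_image (τ : ι) (J : Set (Fin 3)) :
    M.plMap M' '' M.simplex τ J = M'.simplex τ J := by
  rw [← M.trans_image M' τ J]
  exact image_congr fun x hx => M.plMap_eq' M' hx

theorem plMap_mem {x : E3} (hx : x ∈ P.sail s) : M.plMap M' x ∈ Q.sail t := by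
  rw [M.sail_eq, mem_iUnion] at hx
  obtain ⟨τ, hτ⟩ := hx
  apply M'.simplex_subset_sail τ univ
  rw [← M.plMap_image M' τ univ]
  exact mem_image_of_mem _ hτ

theorem plMap_plMap {x : E3} (hx : x ∈ P.sail s) : M'.plMap M (M.plMap M' x) = x := by
  rw [M.sail_eq, mem_iUnion] at hx
  obtain ⟨τ, hτ⟩ := hx
  have h1 : M.plMap M' x ∈ M'.simplex τ univ := by
    rw [← M.plMap_image M' τ univ]
    exact mem_image_of_mem _ hτ
  rw [M'.plMap_eq M h1, M.plMap_eq M' hτ]
  obtain ⟨c, hc, hsum, hxc⟩ := M.exists_sum_of_mem_hull_of_f (M.mem_simplex_univ_iff.1 hτ).1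
    (M.mem_simplex_univ_iff.1 hτ).2
  rw [hxc, trans_sum, trans_sum]

theorem isClosed_simplex (τ : ι) : IsClosed (M.simplex τ univ) := by
  have : M.simplex τ univ = P.hull s ∩ {x | M.f τ x = 1} := by
    ext x; exact M.mem_simplex_univ_iff
  rw [this]
  exact M.isClosed_hull.inter
    (isClosed_eq (M.f τ).continuous_of_finiteDimensional continuous_const)

theorem locallyFinite_simplex : LocallyFinite (fun τ => M.simplex τ univ) := by
  intro x
  by_cases hx : x ∈ P.sail s
  · obtain ⟨U, hU, hfin⟩ := M.locfin x (M.irr.sail_subset_cone s hx) 1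
    refine ⟨U, hU, hfin.subset ?_⟩
    rintro τ ⟨y, hy1, hy2⟩
    exact ⟨y, hy2, (M.simplex_f_self hy1).le⟩
  · refine ⟨(P.sail s)ᶜ, isClosed_frontier.isOpen_compl.mem_nhds hx, ?_⟩
    convert Set.finite_empty
    ext τ
    simp only [mem_empty_iff_false, iff_false]
    rintro ⟨y, hy1, hy2⟩
    exact hy2 (M.simplex_subset_sail τ univ hy1)

theorem continuousOn_plMap : ContinuousOn (M.plMap M') (P.sail s) := by
  rw [M.sail_eq]
  apply LocallyFinite.continuousOn_iUnion M.locallyFinite_simplex M.isClosed_simplex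
  intro τ
  have h1 : ContinuousOn (M.trans M' τ) (M.simplex τ univ) :=
    (M.trans M' τ).continuous_of_finiteDimensional.continuousOn
  exact h1.congr fun x hx => M.plMap_eq M' hx

/-- The piecewise linear homeomorphism between two sails with the same combinatorial structure. -/
noncomputable def plHomeo : P.sail s ≃ₜ Q.sail t where
  toFun x := ⟨M.plMap M' x, M.plMap_mem M' x.2⟩
  invFun y := ⟨M'.plMap M y, M'.plMap_mem M y.2⟩
  left_inv x := Subtype.ext (M.plMap_plMap M' x.2)
  right_inv y := Subtype.ext (M'.plMap_plMap M y.2)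
  continuous_toFun := by
    refine Continuous.subtype_mk ?_ _
    exact continuousOn_iff_continuous_domRestrict.1 (M.continuousOn_plMap M')
  continuous_invFun := by
    refine Continuous.subtype_mk ?_ _
    exact continuousOn_iff_continuous_domRestrict.1 (M'.continuousOn_plMap M)

theorem carry_eq {F : Set E3} (hF : F ⊆ P.sail s) :
    carry (M.plHomeo M') F = M.plMap M' '' F := by
  ext y
  constructor
  · rintro ⟨x, hx, rfl⟩
    exact ⟨x, hx, rfl⟩
  · rintro ⟨x, hx, rfl⟩
    exact ⟨⟨x, hF hx⟩, hx, rfl⟩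

theorem carry_simplex (τ : ι) (J : Set (Fin 3)) :
    carry (M.plHomeo M') (M.simplex τ J) = M'.simplex τ J := by
  rw [M.carry_eq M' (M.simplex_subset_sail τ J), M.plMap_image]

theorem plMap_injOn {F G : Set E3} (hF : F ⊆ P.sail s) (hG : G ⊆ P.sail s)
    (h : M.plMap M' '' F = M.plMap M' '' G) : F = G := by
  have key : ∀ {F : Set E3}, F ⊆ P.sail s → M'.plMap M '' (M.plMap M' '' F) = F := by
    intro F hF
    rw [image_image]
    ext x
    constructor
    · rintro ⟨y, hy, rfl⟩
      change M'.plMap M (M.plMap M' y) ∈ F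
      rwa [M.plMap_plMap M' (hF hy)]
    · intro hx
      exact ⟨x, hx, M.plMap_plMap M' (hF hx)⟩
  rw [← key hF, ← key hG, h]

theorem cell_iff (hG : GoodVerts verts) {d : ℕ} (hd : d ≤ 2) {F : Set E3} (hF : F ⊆ P.sail s) :
    IsCell (P.hull s) F d ↔ IsCell (Q.hull t) (carry (M.plHomeo M') F) d := by
  rw [M.isCell_iff hG hd, M'.isCell_iff hG hd]
  constructor
  · rintro ⟨τ, J, hJ, rfl⟩
    exact ⟨τ, J, hJ, M.carry_simplex M' τ J⟩
  · rintro ⟨τ, J, hJ, h⟩
    refine ⟨τ, J, hJ, ?_⟩
    rw [M.carry_eq M' hF, ← M.plMap_image M' τ J] at h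
    exact M.plMap_injOn M' hF (M.simplex_subset_sail τ J) h

end SailModel

end Pool.Agent.H4Sail
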