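import Pool.Agent.H4Sail.Homeo

namespace Pool.Agent.H4Sail

open Set Topology

variable {ι κ : Type}

theorem prim_unique {a N : Fin 3 → ℤ} (ha : ∀ d : ℤ, (∀ i, d ∣ a i) → IsUnit d)
    (hN : ∀ d : ℤ, (∀ i, d ∣ N i) → IsUnit d) {D : ℕ} (hD : 0 < D) {c : ℤ}
    (h : ∀ j, (D : ℤ) * a j = c * N j) : c.natAbs = D := by
  have hg : 0 < Int.gcd c (D : ℤ) := Int.gcd_pos_of_ne_zero_right _ (by exact_mod_cast hD.ne')
  obtain ⟨c', D', hcop, hc, hD'⟩ := Int.exists_gcd_one (m := c) (n := (D : ℤ)) hg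
  have hg0 : ((Int.gcd c (D : ℤ) : ℕ) : ℤ) ≠ 0 := by exact_mod_cast hg.ne'
  set g : ℕ := Int.gcd c (D : ℤ) with hgdef
  have h1 : ∀ j, D' * a j = c' * N j := by
    intro j
    have h0 := h j
    have h0' : D' * (g : ℤ) * a j = (c' * (g : ℤ)) * N j := by
      rw [← hD', ← hc]; exact h0
    apply mul_left_cancel₀ hg0
    linarith
  have hcop' : IsCoprime c' D' := Int.isCoprime_iff_gcd_eq_one.2 hcop
  have h2 : IsUnit D' := by
    apply hN
    intro i
    have h3 : D' ∣ c' * N i := ⟨a i, (h1 i).symm⟩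
    exact hcop'.symm.dvd_of_dvd_mul_left h3
  have h4 : IsUnit c' := by
    apply ha
    intro i
    have h3 : c' ∣ D' * a i := ⟨N i, h1 i⟩
    exact hcop'.dvd_of_dvd_mul_left h3
  have h5 : c.natAbs = g := by
    rw [hc, Int.natAbs_mul, Int.isUnit_iff_natAbs_eq.1 h4, one_mul, Int.natAbs_natCast]
  have h6 : D = g := by
    have h7 : ((D : ℤ)).natAbs = g := by
      rw [hD', Int.natAbs_mul, Int.isUnit_iff_natAbs_eq.1 h2, one_mul, Int.natAbs_natCast]
    simpa using h7
  rw [h5, h6]

namespace SailModel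

variable {P Q : PlaneTriple} {s t : Fin 3 → ℤˣ} {verts : ι → Fin 3 → κ} {D : ι → ℕ}
variable (M : SailModel P s verts D) (M' : SailModel Q t verts D)

theorem vert_injective (hG : GoodVerts verts) (τ : ι) :
    Function.Injective (fun i => M.V (verts τ i)) :=
  fun _ _ h => hG.inj τ (M.V_inj h)

theorem lattice_simplex (hG : GoodVerts verts) (τ : ι) (J : Finset (Fin 3)) (hJ : J.Nonempty) :
    M.simplex τ (J : Set (Fin 3)) ∩ (intLattice : Set E3) =
      (fun i => M.V (verts τ i)) '' (J : Set (Fin 3)) := by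
  obtain ⟨τ', hτ'⟩ := hG.nbr τ J hJ
  ext x
  constructor
  · rintro ⟨h1, h2⟩
    have hcone := M.mem_cone_of_mem_hull (M.simplex_subset_hull _ _ h1)
    obtain ⟨i, hi⟩ := M.f_eq τ x h2 hcone (M.simplex_f_self h1)
    have h3 : M.f τ' x = 1 := M.simplex_f_eq (fun i hi => (hτ' i).2 hi) h1
    obtain ⟨j, hj⟩ := M.f_eq τ' x h2 hcone h3
    refine ⟨i, (hτ' i).1 ⟨j, ?_⟩, hi.symm⟩
    apply M.V_inj
    rw [← hi, ← hj]
  · rintro ⟨i, hi, rfl⟩
    exact ⟨subset_convexHull _ _ ⟨i, hi, rfl⟩, M.V_lat _⟩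

theorem intLength_simplex (hG : GoodVerts verts) (τ : ι) (J : Finset (Fin 3)) (hJ : J.Nonempty) :
    intLength (M.simplex τ (J : Set (Fin 3))) = (J.card : ℕ∞) - 1 := by
  rw [intLength, M.lattice_simplex hG τ J hJ, (M.vert_injective hG τ).encard_image,
    Set.encard_coe_eq_coe_finsetCard]

theorem hasIntDist_iff (τ : ι) (n : ℕ) : HasIntDist (M.simplex τ univ) n ↔ n = D τ := by
  constructor
  · rintro ⟨a, ha, c, hc, hF⟩
    rw [← hc]
    apply prim_unique ha (M.N_prim τ) (M.D_pos τ)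
    -- the two functionals agree on the vertices
    let La : E3 →ₗ[ℝ] ℝ := ∑ j, (a j : ℝ) • LinearMap.proj j
    have hLa : ∀ x, La x = ∑ j, (a j : ℝ) * x j := by
      intro x
      simp [La]
    have heq : La = (c : ℝ) • M.f τ := by
      apply (M.basis τ).ext
      intro i
      rw [M.basis_apply, hLa, hF _ (subset_convexHull _ _ ⟨i, mem_univ i, rfl⟩),
        LinearMap.smul_apply, M.f_vert, smul_eq_mul, mul_one]
    intro j
    have h1 : (a j : ℝ) = c * M.f τ (Pi.single j 1) := by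
      have := congrArg (fun L : E3 →ₗ[ℝ] ℝ => L (Pi.single j 1)) heq
      simp only [hLa, LinearMap.smul_apply, smul_eq_mul] at this
      rw [← this]
      simp [Pi.single_apply]
    have h2 : (M.N τ j : ℝ) = D τ * M.f τ (Pi.single j 1) := by
      rw [← M.N_eq]
      simp [Pi.single_apply]
    have h3 : ((D τ : ℕ) : ℝ) * (a j : ℝ) = (c : ℝ) * (M.N τ j : ℝ) := by
      rw [h1, h2]; ring
    exact_mod_cast h3
  · rintro rfl
    refine ⟨M.N τ, M.N_prim τ, (D τ : ℤ), by simp, fun x hx => ?_⟩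
    rw [M.N_eq, M.simplex_f_self hx]
    simp

theorem dirLattice_le {τ : ι} {F : Set E3} (hF : ∀ x ∈ F, M.f τ x = 1) {H : AddSubgroup E3}
    (h1 : M.V (verts τ 1) - M.V (verts τ 0) ∈ H) (h2 : M.V (verts τ 2) - M.V (verts τ 0) ∈ H) :
    dirLattice F ≤ H := by
  rintro z ⟨hz1, hz2⟩
  have hker : vectorSpan ℝ F ≤ LinearMap.ker (M.f τ) := by
    rw [vectorSpan_def, Submodule.span_le]
    rintro _ ⟨x, hx, y, hy, rfl⟩
    change M.f τ (x - y) = 0
    rw [map_sub, hF x hx, hF y hy, sub_self]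
  have hz3 : M.f τ z = 0 := hker hz2
  obtain ⟨m, n, rfl⟩ := M.gen τ z hz1 hz3
  exact H.add_mem (H.zsmul_mem h1 m) (H.zsmul_mem h2 n)

open Classical in
/-- The vertex set of a triangle. -/
noncomputable def vertSet (τ : ι) : Finset E3 := Finset.univ.image fun i => M.V (verts τ i)

theorem coe_vertSet (τ : ι) :
    (M.vertSet τ : Set E3) = (fun i => M.V (verts τ i)) '' (univ : Set (Fin 3)) := by
  classical
  rw [vertSet]
  simp

theorem card_vertSet (hG : GoodVerts verts) (τ : ι) : (M.vertSet τ).card = 3 := by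
  classical
  rw [vertSet, Finset.card_image_of_injective _ (M.vert_injective hG τ)]
  simp

theorem triArea_vertSet (τ : ι) : triArea (M.vertSet τ : Set E3) = 1 := by
  rw [triArea, AddSubgroup.relIndex_eq_one]
  have hmem : ∀ i, M.V (verts τ i) ∈ (M.vertSet τ : Set E3) := by
    intro i; rw [coe_vertSet]; exact ⟨i, mem_univ i, rfl⟩
  apply M.dirLattice_le (τ := τ)
  · intro x hx
    rw [coe_vertSet] at hx
    obtain ⟨i, _, rfl⟩ := hx
    exact M.f_vert τ i
  · exact AddSubgroup.subset_closure ⟨_, hmem 0, _, hmem 1, rfl⟩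
  · exact AddSubgroup.subset_closure ⟨_, hmem 0, _, hmem 2, rfl⟩

theorem hasIntArea_iff (hG : GoodVerts verts) (τ : ι) (n : ℕ) :
    HasIntArea (M.simplex τ univ) n ↔ n = 1 := by
  constructor
  · rintro ⟨T, hT, hsum⟩
    have h1 : ∀ t ∈ T, t = M.vertSet τ := by
      intro u hu
      apply Finset.eq_of_subset_of_card_le
      · intro x hx
        have h2 : x ∈ M.simplex τ univ ∩ (intLattice : Set E3) := by
          refine ⟨?_, hT.lattice u hu x hx⟩
          rw [hT.cover]
          exact mem_biUnion hu (subset_convexHull _ _ hx)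
        have h3 := M.lattice_simplex hG τ Finset.univ Finset.univ_nonempty
        rw [Finset.coe_univ] at h3
        rw [h3, ← M.coe_vertSet] at h2
        exact h2
      · rw [M.card_vertSet hG, (hT.triangle u hu).1]
    have h2 : T = {M.vertSet τ} := by
      apply Finset.eq_singleton_iff_nonempty_unique_mem.2 ⟨?_, h1⟩
      have hne : (M.simplex τ univ).Nonempty :=
        ⟨M.V (verts τ 0), subset_convexHull _ _ ⟨0, mem_univ _, rfl⟩⟩
      rw [hT.cover] at hne
      obtain ⟨x, hx⟩ := hne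
      simp only [mem_iUnion] at hx
      obtain ⟨u, hu, _⟩ := hx
      exact ⟨u, hu⟩
    rw [← hsum, h2, Finset.sum_singleton, M.triArea_vertSet]
  · rintro rfl
    refine ⟨{M.vertSet τ}, ?_, ?_⟩
    · constructor
      · intro u hu x hx
        rw [Finset.mem_singleton] at hu
        subst hu
        have hx' : x ∈ (M.vertSet τ : Set E3) := hx
        rw [coe_vertSet] at hx'
        obtain ⟨i, _, rfl⟩ := hx'
        exact M.V_lat _
      · intro u hu
        rw [Finset.mem_singleton] at hu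
        subst hu
        refine ⟨M.card_vertSet hG τ, ?_⟩
        have h1 := (M.affineIndependent_V τ).range
        have h2 : (M.vertSet τ : Set E3) = range fun i => M.V (verts τ i) := by
          rw [coe_vertSet, image_univ]
        have h3 : AffineIndependent ℝ (fun x : (M.vertSet τ : Set E3) => (x : E3)) := by
          rw [h2]; exact h1
        exact h3
      · simp only [Finset.mem_singleton, iUnion_iUnion_eq_left]
        rw [coe_vertSet]
        rfl
      · intro u hu v hv
        rw [Finset.mem_singleton] at hu hv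
        subst hu; subst hv
        simp
    · rw [Finset.sum_singleton, M.triArea_vertSet]

theorem intAngle_eq_one (hG : GoodVerts verts) {τ : ι} {J₁ J₂ : Finset (Fin 3)}
    (h₁ : J₁.card = 2) (h₂ : J₂.card = 2) {v : E3}
    (hv : M.simplex τ (J₁ : Set (Fin 3)) ∩ M.simplex τ (J₂ : Set (Fin 3)) = {v}) :
    intAngle v (M.simplex τ (J₁ : Set (Fin 3))) (M.simplex τ (J₂ : Set (Fin 3))) = 1 := by
  classical
  have hVmem : ∀ {i : Fin 3} {J : Finset (Fin 3)}, i ∈ J →
      M.V (verts τ i) ∈ M.simplex τ (J : Set (Fin 3)) := by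
    intro i J hi
    exact subset_convexHull _ _ ⟨i, hi, rfl⟩
  -- the index sets are different
  have hne : J₁ ≠ J₂ := by
    rintro rfl
    rw [inter_self] at hv
    obtain ⟨a, b, hab, rfl⟩ := Finset.card_eq_two.1 h₁
    have ha : M.V (verts τ a) ∈ ({v} : Set E3) := by rw [← hv]; exact hVmem (by simp)
    have hb : M.V (verts τ b) ∈ ({v} : Set E3) := by rw [← hv]; exact hVmem (by simp)
    rw [mem_singleton_iff] at ha hb
    exact hab (M.vert_injective hG τ (ha.trans hb.symm))
  obtain ⟨i₀, hi₁, hi₂⟩ : ∃ i, i ∈ J₁ ∧ i ∈ J₂ := by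
    by_contra hcon
    push Not at hcon
    have hdis : Disjoint J₁ J₂ := Finset.disjoint_left.2 hcon
    have := Finset.card_union_of_disjoint hdis
    have h3 : (J₁ ∪ J₂).card ≤ 3 := by
      simpa using Finset.card_le_univ (J₁ ∪ J₂)
    omega
  have hvi : v = M.V (verts τ i₀) := by
    have : M.V (verts τ i₀) ∈ ({v} : Set E3) := by
      rw [← hv]; exact ⟨hVmem hi₁, hVmem hi₂⟩
    exact (mem_singleton_iff.1 this).symm
  have hunion : ∀ i, i ∈ J₁ ∨ i ∈ J₂ := by
    intro i
    by_contra hcon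
    push Not at hcon
    have h3 : (J₁ ∪ J₂).card ≤ 2 := by
      have h4 : (J₁ ∪ J₂) ⊆ Finset.univ.erase i := by
        intro j hj
        rw [Finset.mem_erase]
        refine ⟨?_, Finset.mem_univ _⟩
        rintro rfl
        rcases Finset.mem_union.1 hj with h | h
        · exact hcon.1 h
        · exact hcon.2 h
      have := Finset.card_le_card h4
      simpa using this
    have h5 : J₁ = J₁ ∪ J₂ := Finset.eq_of_subset_of_card_le Finset.subset_union_left (by omega)
    have h6 : J₂ = J₁ ∪ J₂ := Finset.eq_of_subset_of_card_le Finset.subset_union_right (by omega)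
    exact hne (h5.trans h6.symm)
  rw [intAngle, AddSubgroup.relIndex_eq_one]
  set H := AddSubgroup.closure {z | ∃ x ∈ (intLattice : Set E3),
    (x ∈ rayFrom v (M.simplex τ (J₁ : Set (Fin 3))) ∨
      x ∈ rayFrom v (M.simplex τ (J₂ : Set (Fin 3)))) ∧ z = x - v} with hH
  have hdiff0 : ∀ i, M.V (verts τ i) - v ∈ H := by
    intro i
    apply AddSubgroup.subset_closure
    refine ⟨_, M.V_lat (verts τ i), ?_, rfl⟩
    rcases hunion i with h | h
    · left
      exact ⟨_, hVmem h, 1, zero_le_one, by rw [one_smul]; abel⟩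
    · right
      exact ⟨_, hVmem h, 1, zero_le_one, by rw [one_smul]; abel⟩
  have hdiff : ∀ i j, M.V (verts τ i) - M.V (verts τ j) ∈ H := by
    intro i j
    have := H.sub_mem (hdiff0 i) (hdiff0 j)
    rwa [sub_sub_sub_cancel_right] at this
  apply M.dirLattice_le (τ := τ) _ (hdiff 1 0) (hdiff 2 0)
  rintro x (hx | hx)
  · exact M.simplex_f_self hx
  · exact M.simplex_f_self hx

theorem face_eq (hG : GoodVerts verts) {F : Set E3} (hF : IsCell (P.hull s) F 2) :
    ∃ τ, F = M.simplex τ univ := by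
  obtain ⟨τ, J, hJ, rfl⟩ := (M.isCell_iff hG le_rfl).1 hF
  refine ⟨τ, ?_⟩
  have : J = Finset.univ := by
    rw [← Finset.card_eq_iff_eq_univ]; simpa using hJ
  rw [this, Finset.coe_univ]

theorem edge_of_face {τ : ι} {e : Set E3} (he : e ⊆ M.simplex τ univ)
    (hcell : IsCell (P.hull s) e 1) :
    ∃ J : Finset (Fin 3), J.card = 2 ∧ e = M.simplex τ (J : Set (Fin 3)) := by
  obtain ⟨hne, hexp, hrank⟩ := hcell
  obtain ⟨J, hJ, rfl⟩ := M.exposed_eq_simplex hne hexp (τ := τ)
    (fun x hx => M.simplex_f_self (he hx))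
  refine ⟨J, ?_, rfl⟩
  rw [M.finrank_simplex τ J hJ] at hrank
  have := hJ.card_pos
  omega

/-- Two sails with models over the same combinatorial data are related by a homeomorphism
preserving cells and integer invariants. -/
theorem preservesInvariants (hG : GoodVerts verts) :
    PreservesInvariants P Q s t (M.plHomeo M') where
  cell d hd F hF := M.cell_iff M' hG hd hF
  area F hF hcell := by
    obtain ⟨τ, rfl⟩ := M.face_eq hG hcell
    rw [M.carry_simplex]
    exact ⟨1, M.hasIntArea_iff hG τ, M'.hasIntArea_iff hG τ⟩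
  dist F hF hcell := by
    obtain ⟨τ, rfl⟩ := M.face_eq hG hcell
    rw [M.carry_simplex]
    exact ⟨D τ, M.hasIntDist_iff τ, M'.hasIntDist_iff τ⟩
  length e he hcell := by
    obtain ⟨τ, J, hJ, rfl⟩ := (M.isCell_iff hG (by norm_num)).1 hcell
    have hJne : J.Nonempty := by rw [← Finset.card_pos]; omega
    rw [M.carry_simplex, M.intLength_simplex hG τ J hJne, M'.intLength_simplex hG τ J hJne]
  angle F hF hcell e₁ he₁ e₂ he₂ hc₁ hc₂ v hv := by
    obtain ⟨τ, rfl⟩ := M.face_eq hG hcell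
    obtain ⟨J₁, hJ₁, rfl⟩ := M.edge_of_face he₁ hc₁
    obtain ⟨J₂, hJ₂, rfl⟩ := M.edge_of_face he₂ hc₂
    rw [M.intAngle_eq_one hG hJ₁ hJ₂ hv, M.carry_simplex, M.carry_simplex]
    symm
    apply M'.intAngle_eq_one hG hJ₁ hJ₂
    rw [← M.carry_simplex M', ← M.carry_simplex M']
    ext y
    constructor
    · rintro ⟨⟨x, hx, hxy⟩, ⟨x', hx', hxy'⟩⟩
      have hxx : x = x' := by
        apply (M.plHomeo M').injective
        exact Subtype.ext (hxy.trans hxy'.symm)
      subst hxx
      have h1 : (x : E3) ∈ ({(v : E3)} : Set E3) := by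
        rw [← hv]; exact ⟨hx, hx'⟩
      have h2 : x = v := Subtype.ext (mem_singleton_iff.1 h1)
      rw [mem_singleton_iff, ← hxy, h2]
    · intro hy
      rw [mem_singleton_iff] at hy
      have h1 : (v : E3) ∈ M.simplex τ (J₁ : Set (Fin 3)) ∩ M.simplex τ (J₂ : Set (Fin 3)) := by
        rw [hv]; exact mem_singleton _
      exact ⟨⟨v, h1.1, hy.symm⟩, ⟨v, h1.2, hy.symm⟩⟩

end SailModel

end Pool.Agent.H4Sail
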