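import Pool.Agent.H4Sail.SailDefs
import Pool.Agent.H4Sail.Ex1
import Pool.Agent.H4Sail.Ex2

namespace Pool.Agent.H4Sail

open Set Topology

/-! ## Translation to the definitions of the statement -/

/-- The normal vectors of the three planes. -/
def PlaneTriple.normal (P : PlaneTriple) : Fin 3 → Fin 3 → ℝ :=
  fun i j => P.form i (Pi.single j 1)

theorem PlaneTriple.sum_normal (P : PlaneTriple) (i : Fin 3) (x : E3) :
    ∑ j, P.normal i j * x j = P.form i x := by
  conv_rhs => rw [← Finset.univ_sum_single x]
  rw [map_sum]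
  refine Finset.sum_congr rfl fun j _ => ?_
  have : (Pi.single j (x j) : E3) = x j • Pi.single j 1 := by
    ext k
    by_cases h : k = j
    · subst h; simp
    · simp [h]
  rw [this, map_smul, smul_eq_mul, mul_comm]
  rfl

theorem PlaneTriple.normal_indep (P : PlaneTriple) : LinearIndependent ℝ P.normal := by
  rw [Fintype.linearIndependent_iff]
  intro c hc
  have h1 := Fintype.linearIndependent_iff.1 P.indep c
  apply h1
  refine LinearMap.ext fun x => ?_
  rw [LinearMap.sum_apply, LinearMap.zero_apply]
  have h2 : ∀ j, ∑ i, c i * P.normal i j = 0 := by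
    intro j
    have := congrFun hc j
    simpa using this
  calc ∑ i, (c i • P.form i) x = ∑ i, ∑ j, c i * P.normal i j * x j := by
        refine Finset.sum_congr rfl fun i _ => ?_
        rw [LinearMap.smul_apply, smul_eq_mul, ← P.sum_normal, Finset.mul_sum]
        exact Finset.sum_congr rfl fun j _ => by ring
    _ = ∑ j, (∑ i, c i * P.normal i j) * x j := by
        rw [Finset.sum_comm]
        exact Finset.sum_congr rfl fun j _ => by rw [Finset.sum_mul]
    _ = 0 := by simp [h2]

theorem intPts_eq : KleinSail.intPts = (intLattice : Set E3) := rfl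

theorem cone_eq (P : PlaneTriple) (s : Fin 3 → ℤˣ) : KleinSail.cone P.normal s = P.cone s := by
  ext x
  simp only [KleinSail.cone, PlaneTriple.cone, P.sum_normal]

theorem hull_eq (P : PlaneTriple) (s : Fin 3 → ℤˣ) : KleinSail.hull P.normal s = P.hull s := by
  rw [KleinSail.hull, PlaneTriple.hull, cone_eq, intPts_eq]

theorem sail_eq (P : PlaneTriple) (s : Fin 3 → ℤˣ) : KleinSail.sail P.normal s = P.sail s := by
  rw [KleinSail.sail, PlaneTriple.sail, hull_eq]

theorem sailUnion_eq (P : PlaneTriple) : KleinSail.sailUnion P.normal = P.sailUnion := by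
  ext x
  simp only [KleinSail.sailUnion, PlaneTriple.sailUnion, sail_eq, mem_iUnion]
  rfl

theorem act_eq (g : GL (Fin 3) ℤ) : KleinSail.act g = intAct g := by
  funext x i
  rfl

theorem equivalent_iff (P Q : PlaneTriple) :
    KleinSail.Equivalent P.normal Q.normal ↔ Equivalent P Q := by
  simp only [KleinSail.Equivalent, Equivalent, sailUnion_eq, act_eq]

theorem isCell_eq (K F : Set E3) (d : ℕ) : KleinSail.IsCell K F d ↔ IsCell K F d := Iff.rfl

theorem dirLattice_eq (F : Set E3) : KleinSail.dirLattice F = dirLattice F := by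
  rw [KleinSail.dirLattice]
  have : {z | z ∈ KleinSail.intPts ∧ z ∈ vectorSpan ℝ F} = (dirLattice F : Set E3) := rfl
  rw [this, AddSubgroup.closure_eq]

theorem intLength_eq (e : Set E3) : KleinSail.intLength e = intLength e := rfl

theorem triArea_eq (t : Set E3) : KleinSail.triArea t = triArea t := by
  rw [KleinSail.triArea, triArea, dirLattice_eq]

theorem isLatticeTriangulation_iff (F : Set E3) (T : Finset (Finset E3)) :
    KleinSail.IsLatticeTriangulation F T ↔ IsLatticeTriangulation F T := by
  have hset : {x | ∃ t ∈ T, x ∈ convexHull ℝ (t : Set E3)} =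
      ⋃ t ∈ T, convexHull ℝ (t : Set E3) := by
    ext x
    simp only [mem_iUnion, exists_prop]
    rfl
  constructor
  · rintro ⟨h1, h2, h3, h4⟩
    exact ⟨h1, h2, h3.trans hset, h4⟩
  · rintro ⟨h1, h2, h3, h4⟩
    exact ⟨h1, h2, h3.trans hset.symm, h4⟩

theorem hasIntArea_iff' (F : Set E3) (n : ℕ) : KleinSail.HasIntArea F n ↔ HasIntArea F n := by
  simp only [KleinSail.HasIntArea, HasIntArea, isLatticeTriangulation_iff, triArea_eq]

theorem hasIntDist_iff' (F : Set E3) (n : ℕ) : KleinSail.HasIntDist F n ↔ HasIntDist F n := Iff.rfl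

theorem intAngle_eq (v : E3) (e₁ e₂ : Set E3) :
    KleinSail.intAngle v e₁ e₂ = intAngle v e₁ e₂ := by
  rw [KleinSail.intAngle, intAngle, dirLattice_eq]
  rfl

theorem totallyIrrational {P : PlaneTriple} (W : OneVertexData P stdDist) :
    KleinSail.TotallyIrrational P.normal := by
  intro i x hx h
  rw [P.sum_normal] at h
  exact W.irrational.irr i x hx h

theorem doublyPeriodic {P : PlaneTriple} (W : OneVertexData P stdDist) :
    KleinSail.DoublyPeriodic P.normal := by
  refine ⟨W.A, W.B, W.comm, fun i j h => ?_, fun s => ?_⟩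
  · apply W.index_eq_zero
    intro k
    have h1 := W.form_vtx (i, j) k
    rw [W.vtx_eq] at h1
    have h2 : W.g (i, j) = 1 := h
    rw [h2, intAct_one, W.h0] at h1
    exact h1.symm
  · rw [act_eq, act_eq, sail_eq]
    exact ⟨W.hA.image_sail s, W.hB.image_sail s⟩

theorem mod_eigen (z : Fin 3 → ZMod 3) (h : modAct A2 z = (2 : ZMod 3) • z) :
    ∃ c : ZMod 3, z = c • ![1, 1, 2] := by
  revert h z
  unfold modAct A2
  decide +kernel

theorem mod_no_eigen (z : Fin 3 → ZMod 3) (hz : z ≠ 0) (c : ZMod 3) : modAct A1 z ≠ c • z := by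
  revert c hz z
  unfold modAct A1
  decide +kernel

theorem main :
    ∃ (N M : Fin 3 → Fin 3 → ℝ), LinearIndependent ℝ N ∧ LinearIndependent ℝ M ∧
      KleinSail.TotallyIrrational N ∧ KleinSail.TotallyIrrational M ∧
      KleinSail.DoublyPeriodic N ∧ KleinSail.DoublyPeriodic M ∧
      (∃ (s t : Fin 3 → ℤˣ) (f g : (Fin 3 → ℝ) → (Fin 3 → ℝ)),
        KleinSail.IsHomeo (KleinSail.sail N s) (KleinSail.sail M t) f g ∧
        KleinSail.PreservesInvariants N M s t f) ∧
      ¬ KleinSail.Equivalent N M := by
  obtain ⟨P, W, hW⟩ := exists_ex1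
  obtain ⟨Q, W', hW'⟩ := exists_ex2
  refine ⟨P.normal, Q.normal, P.normal_indep, Q.normal_indep, totallyIrrational W,
    totallyIrrational W', doublyPeriodic W, doublyPeriodic W', ?_, ?_⟩
  · refine ⟨1, 1, W.model.plMap W'.model, W'.model.plMap W.model, ?_, ?_⟩
    · rw [sail_eq, sail_eq]
      exact ⟨W.model.continuousOn_plMap W'.model, W'.model.continuousOn_plMap W.model,
        fun x hx => ⟨W.model.plMap_mem W'.model hx, W.model.plMap_plMap W'.model hx⟩,
        fun y hy => ⟨W'.model.plMap_mem W.model hy, W'.model.plMap_plMap W.model hy⟩⟩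
    · have key := W.model.preservesInvariants W'.model goodVerts_std
      have hcarry : ∀ {F : Set E3}, F ⊆ P.sail 1 →
          carry (W.model.plHomeo W'.model) F = W.model.plMap W'.model '' F :=
        fun hF => W.model.carry_eq W'.model hF
      unfold KleinSail.PreservesInvariants
      simp only [sail_eq, hull_eq, isCell_eq, hasIntArea_iff', hasIntDist_iff', intLength_eq,
        intAngle_eq]
      refine ⟨?_, ?_, ?_, ?_, ?_⟩
      · intro d hd F hF
        rw [← hcarry hF]
        exact key.cell d hd F hF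
      · intro F hF hcell
        rw [← hcarry hF]
        obtain ⟨n, h1, h2⟩ := key.area F hF hcell
        exact ⟨n, fun m => ⟨h1 m, h2 m⟩⟩
      · intro F hF hcell
        rw [← hcarry hF]
        obtain ⟨n, h1, h2⟩ := key.dist F hF hcell
        exact ⟨n, fun m => ⟨h1 m, h2 m⟩⟩
      · intro e he hcell
        rw [← hcarry he]
        exact key.length e he hcell
      · intro F hF hcell e₁ he₁ e₂ he₂ hc₁ hc₂ v hv
        rw [← hcarry (he₁.trans hF), ← hcarry (he₂.trans hF)]
        have hv1 : v ∈ e₁ ∩ e₂ := by rw [hv]; exact mem_singleton v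
        exact key.angle F hF hcell e₁ he₁ e₂ he₂ hc₁ hc₂ ⟨v, hF (he₁ hv1.1)⟩ hv
  · rw [equivalent_iff]
    have hA := W.hA
    rw [hW] at hA
    have hA' := W'.hA
    rw [hW'] at hA'
    refine not_equivalent W.irrational W'.irrational hA hA' (y := ![1, 1, 2]) (μ := 2) ?_ ?_
      mod_eigen mod_no_eigen
    · decide
    · unfold modAct A2
      decide +kernel

end Pool.Agent.H4Sail
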