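import Pool.Agent.H4Sail.Radial

namespace Pool.Agent.H4Sail

open Set Topology

variable {P Q : PlaneTriple}

theorem form_ne_zero_transfer (hP : Irrational P) (hQ : Irrational Q) {g : GL (Fin 3) ℤ}
    (hg : intAct g '' P.sailUnion = Q.sailUnion) (y : E3) :
    (∀ k, P.form k y ≠ 0) ↔ (∀ k, Q.form k (intAct g y) ≠ 0) := by
  rw [hP.form_ne_zero_iff, hQ.form_ne_zero_iff]
  refine exists_congr fun t => and_congr_right fun _ => ?_
  rw [← hg, ← intAct_smul]
  constructor
  · intro h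
    exact mem_image_of_mem _ h
  · rintro ⟨x, hx, hxy⟩
    rwa [intAct_injective g hxy] at hx

theorem form_correspond (hP : Irrational P) (hQ : Irrational Q) {g : GL (Fin 3) ℤ}
    (hg : intAct g '' P.sailUnion = Q.sailUnion) (m : Fin 3) :
    ∃ k, ∃ c : ℝ, ∀ y, Q.form m (intAct g y) = c * P.form k y := by
  set M : E3 →ₗ[ℝ] ℝ := (Q.form m).comp (intLin g) with hM
  have hMapp : ∀ y, M y = Q.form m (intAct g y) := fun y => rfl
  have hne : ∃ y0, M y0 ≠ 0 := by
    have h1 : Q.form m ≠ 0 := Q.indep.ne_zero m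
    obtain ⟨z, hz⟩ : ∃ z, Q.form m z ≠ 0 := by
      by_contra hcon
      push Not at hcon
      exact h1 (LinearMap.ext hcon)
    exact ⟨intAct g⁻¹ z, by rw [hMapp, intAct_intAct_inv]; exact hz⟩
  obtain ⟨y0, hy0⟩ := hne
  have hcov : ⋃ k, ((Submodule.comap (LinearMap.ker M).subtype (LinearMap.ker (P.form k)) :
      Submodule ℝ (LinearMap.ker M)) : Set (LinearMap.ker M)) = Set.univ := by
    rw [eq_univ_iff_forall]
    rintro ⟨y, hy⟩
    rw [mem_iUnion]
    by_contra hcon
    push Not at hcon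
    have h1 : ∀ k, P.form k y ≠ 0 := fun k hk => hcon k (by simpa using hk)
    have h2 := (form_ne_zero_transfer hP hQ hg y).1 h1 m
    exact h2 hy
  obtain ⟨k, hk⟩ := Subspace.exists_eq_top_of_iUnion_eq_univ hcov
  have hker : ∀ y, M y = 0 → P.form k y = 0 := by
    intro y hy
    have : (⟨y, hy⟩ : LinearMap.ker M) ∈
        Submodule.comap (LinearMap.ker M).subtype (LinearMap.ker (P.form k)) := by
      rw [hk]; trivial
    simpa using this
  have hform : ∀ y, P.form k y = (P.form k y0 / M y0) * M y := by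
    intro y
    have h1 : M (y - (M y / M y0) • y0) = 0 := by
      rw [map_sub, map_smul, smul_eq_mul, div_mul_cancel₀ _ hy0, sub_self]
    have h2 := hker _ h1
    rw [map_sub, map_smul, smul_eq_mul, sub_eq_zero] at h2
    rw [h2]
    ring
  have hPk : P.form k y0 ≠ 0 := by
    intro h0
    have h1 : P.form k ≠ 0 := P.indep.ne_zero k
    apply h1
    refine LinearMap.ext fun y => ?_
    rw [hform, h0]
    simp
  refine ⟨k, M y0 / P.form k y0, fun y => ?_⟩
  rw [← hMapp, hform y]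
  field_simp

theorem eigenAct_conj (hP : Irrational P) (hQ : Irrational Q) {g : GL (Fin 3) ℤ}
    (hg : intAct g '' P.sailUnion = Q.sailUnion) {A : GL (Fin 3) ℤ} {t : Fin 3 → ℝ}
    (hA : EigenAct P A t) : ∃ u, EigenAct Q (g * A * g⁻¹) u := by
  choose σ c hσ using form_correspond hP hQ hg
  refine ⟨fun m => t (σ m), fun m => hA.pos _, fun m x => ?_⟩
  rw [intAct_mul, intAct_mul, hσ, hA.eig, mul_left_comm, ← hσ, intAct_intAct_inv]

theorem intAct_faithful {g h : GL (Fin 3) ℤ} (H : ∀ x, intAct g x = intAct h x) : g = h := by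
  apply Units.ext
  ext i j
  have := congrFun (H (Pi.single j 1)) i
  simp only [intAct, Matrix.mulVec_single_one, Matrix.col_apply, Matrix.map_apply] at this
  exact_mod_cast this

theorem EigenAct.commute {g h : GL (Fin 3) ℤ} {t u : Fin 3 → ℝ} (hg : EigenAct P g t)
    (hh : EigenAct P h u) : g * h = h * g := by
  apply intAct_faithful
  intro x
  apply P.coord_injective
  funext k
  rw [P.coord_apply, P.coord_apply, (hg.mul hh).eig, (hh.mul hg).eig]
  ring

/-- Reduction modulo 3 of an integer matrix acting on vectors over `ZMod 3`. -/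
def modAct (g : GL (Fin 3) ℤ) (z : Fin 3 → ZMod 3) : Fin 3 → ZMod 3 :=
  ((g : Matrix (Fin 3) (Fin 3) ℤ).map (Int.cast : ℤ → ZMod 3)).mulVec z

theorem modAct_mul (g h : GL (Fin 3) ℤ) (z : Fin 3 → ZMod 3) :
    modAct (g * h) z = modAct g (modAct h z) := by
  have : (((g * h : GL (Fin 3) ℤ) : Matrix (Fin 3) (Fin 3) ℤ).map (Int.cast : ℤ → ZMod 3)) =
      ((g : Matrix (Fin 3) (Fin 3) ℤ).map (Int.cast : ℤ → ZMod 3)) *
      ((h : Matrix (Fin 3) (Fin 3) ℤ).map (Int.cast : ℤ → ZMod 3)) := by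
    ext i j
    simp [Matrix.mul_apply]
  simp only [modAct]
  rw [this, Matrix.mulVec_mulVec]

theorem modAct_one (z : Fin 3 → ZMod 3) : modAct 1 z = z := by
  have : ((1 : Matrix (Fin 3) (Fin 3) ℤ).map (Int.cast : ℤ → ZMod 3)) = 1 := by
    ext i j
    by_cases h : i = j <;> simp [Matrix.one_apply, h]
  simp [modAct, this]

theorem modAct_smul (g : GL (Fin 3) ℤ) (c : ZMod 3) (z : Fin 3 → ZMod 3) :
    modAct g (c • z) = c • modAct g z :=
  Matrix.mulVec_smul _ _ _

/-- If a conjugate of `A` commutes with `A'`, if `y` spans the eigenspace of `A'` modulo 3 for the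
eigenvalue `μ`, then `A` has an eigenvector modulo 3. -/
theorem eigenvector_mod {G A A' : GL (Fin 3) ℤ}
    (hcomm : (G * A * G⁻¹) * A' = A' * (G * A * G⁻¹)) {y : Fin 3 → ZMod 3} {μ : ZMod 3}
    (hy0 : y ≠ 0) (hy : modAct A' y = μ • y)
    (hdim : ∀ z, modAct A' z = μ • z → ∃ c : ZMod 3, z = c • y) :
    ∃ z : Fin 3 → ZMod 3, z ≠ 0 ∧ ∃ c : ZMod 3, modAct A z = c • z := by
  have h1 : modAct A' (modAct (G * A * G⁻¹) y) = μ • modAct (G * A * G⁻¹) y := by
    rw [← modAct_mul, ← hcomm, modAct_mul, hy, modAct_smul]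
  obtain ⟨c, hc⟩ := hdim _ h1
  refine ⟨modAct G⁻¹ y, ?_, c, ?_⟩
  · intro h
    apply hy0
    have := congrArg (modAct G) h
    rw [← modAct_mul, mul_inv_cancel, modAct_one] at this
    rw [this]
    simp [modAct]
  · have h2 : modAct G⁻¹ (modAct (G * A * G⁻¹) y) = modAct G⁻¹ (c • y) := by rw [hc]
    rw [← modAct_mul, modAct_smul] at h2
    rw [← h2, ← modAct_mul]
    congr 1
    group

/-- The non-equivalence criterion. -/
theorem not_equivalent (hP : Irrational P) (hQ : Irrational Q) {A A' : GL (Fin 3) ℤ}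
    {t t' : Fin 3 → ℝ} (hA : EigenAct P A t) (hA' : EigenAct Q A' t')
    {y : Fin 3 → ZMod 3} {μ : ZMod 3} (hy0 : y ≠ 0) (hy : modAct A' y = μ • y)
    (hdim : ∀ z, modAct A' z = μ • z → ∃ c : ZMod 3, z = c • y)
    (hirr : ∀ z : Fin 3 → ZMod 3, z ≠ 0 → ∀ c : ZMod 3, modAct A z ≠ c • z) :
    ¬ Equivalent P Q := by
  rintro ⟨g, hg⟩
  obtain ⟨u, hu⟩ := eigenAct_conj hP hQ hg hA
  obtain ⟨z, hz0, c, hc⟩ := eigenvector_mod (hu.commute hA') hy0 hy hdim
  exact hirr z hz0 c hc

end Pool.Agent.H4Sail
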