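import Pool.Agent.H4Sail.Periodic

namespace Pool.Agent.H4Sail

open Set Topology

/-- The linear form `x 0 + al * x 1 + ga * x 2`. -/
def mkForm (al ga : ℝ) : E3 →ₗ[ℝ] ℝ where
  toFun x := x 0 + al * x 1 + ga * x 2
  map_add' x y := by simp only [Pi.add_apply]; ring
  map_smul' c x := by simp only [Pi.smul_apply, smul_eq_mul, RingHom.id_apply]; ring

theorem mkForm_apply (al ga : ℝ) (x : E3) : mkForm al ga x = x 0 + al * x 1 + ga * x 2 := rfl

theorem mkForm_indep {al ga : Fin 3 → ℝ} {p q r : ℝ} (hr : r ≠ 0)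
    (hga : ∀ k, ga k = p + q * al k + r * al k ^ 2)
    (h01 : al 0 < al 1) (h12 : al 1 < al 2) :
    LinearIndependent ℝ (fun k => mkForm (al k) (ga k)) := by
  rw [Fintype.linearIndependent_iff]
  intro c hc
  have h0 := congrArg (fun L : E3 →ₗ[ℝ] ℝ => L ![1, 0, 0]) hc
  have h1 := congrArg (fun L : E3 →ₗ[ℝ] ℝ => L ![0, 1, 0]) hc
  have h2 := congrArg (fun L : E3 →ₗ[ℝ] ℝ => L ![0, 0, 1]) hc
  simp only [Fin.sum_univ_three, LinearMap.add_apply, LinearMap.smul_apply, mkForm_apply,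
    LinearMap.zero_apply, smul_eq_mul, Matrix.cons_val_zero, Matrix.cons_val_one,
    Matrix.cons_val] at h0 h1 h2
  rw [hga 0, hga 1, hga 2] at h2
  have h3 : c 0 * al 0 ^ 2 + c 1 * al 1 ^ 2 + c 2 * al 2 ^ 2 = 0 := by
    apply mul_left_cancel₀ hr
    linear_combination h2 - p * h0 - q * h1
  have d01 : al 0 - al 1 ≠ 0 := sub_ne_zero.2 h01.ne
  have d12 : al 1 - al 2 ≠ 0 := sub_ne_zero.2 h12.ne
  have d02 : al 0 - al 2 ≠ 0 := sub_ne_zero.2 (h01.trans h12).ne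
  apply forall_fin3
  · have : c 0 * ((al 0 - al 1) * (al 0 - al 2)) = 0 := by
      linear_combination h3 - (al 1 + al 2) * h1 + al 1 * al 2 * h0
    exact (mul_eq_zero.1 this).resolve_right (mul_ne_zero d01 d02)
  · have : c 1 * ((al 0 - al 1) * (al 1 - al 2)) = 0 := by
      linear_combination -h3 + (al 0 + al 2) * h1 - al 0 * al 2 * h0
    exact (mul_eq_zero.1 this).resolve_right (mul_ne_zero d01 d12)
  · have : c 2 * ((al 0 - al 2) * (al 1 - al 2)) = 0 := by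
      linear_combination h3 - (al 0 + al 1) * h1 + al 0 * al 1 * h0
    exact (mul_eq_zero.1 this).resolve_right (mul_ne_zero d02 d12)

/-- Rational bounds for a linear form at integer points, according to the signs. -/
def CI (aL aU gL gU M x0 x1 x2 : ℤ) : Prop :=
  (0 ≤ x1 → 0 ≤ x2 → 0 < M * x0 + aU * x1 + gU * x2) ∧
  (0 ≤ x1 → x2 ≤ 0 → 0 < M * x0 + aU * x1 + gL * x2) ∧
  (x1 ≤ 0 → 0 ≤ x2 → 0 < M * x0 + aL * x1 + gU * x2) ∧
  (x1 ≤ 0 → x2 ≤ 0 → 0 < M * x0 + aL * x1 + gL * x2)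

theorem ci_of_pos {al ga : ℝ} {aL aU gL gU M x0 x1 x2 : ℤ} (hM : 0 < M)
    (h1 : (aL : ℝ) ≤ M * al) (h2 : M * al ≤ (aU : ℝ)) (h3 : (gL : ℝ) ≤ M * ga)
    (h4 : M * ga ≤ (gU : ℝ)) (h : 0 < (x0 : ℝ) + al * x1 + ga * x2) :
    CI aL aU gL gU M x0 x1 x2 := by
  have hM' : (0 : ℝ) < M := by exact_mod_cast hM
  have hpos : 0 < (M : ℝ) * x0 + (M * al) * x1 + (M * ga) * x2 := by
    have := mul_pos hM' h
    linarith
  refine ⟨fun k1 k2 => ?_, fun k1 k2 => ?_, fun k1 k2 => ?_, fun k1 k2 => ?_⟩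
  · have k1' : (0 : ℝ) ≤ x1 := by exact_mod_cast k1
    have k2' : (0 : ℝ) ≤ x2 := by exact_mod_cast k2
    have e1 := mul_le_mul_of_nonneg_right h2 k1'
    have e2 := mul_le_mul_of_nonneg_right h4 k2'
    have : (0 : ℝ) < (M : ℝ) * x0 + aU * x1 + gU * x2 := by linarith
    exact_mod_cast this
  · have k1' : (0 : ℝ) ≤ x1 := by exact_mod_cast k1
    have k2' : (x2 : ℝ) ≤ 0 := by exact_mod_cast k2
    have e1 := mul_le_mul_of_nonneg_right h2 k1'
    have e2 := mul_le_mul_of_nonpos_right h3 k2'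
    have : (0 : ℝ) < (M : ℝ) * x0 + aU * x1 + gL * x2 := by linarith
    exact_mod_cast this
  · have k1' : (x1 : ℝ) ≤ 0 := by exact_mod_cast k1
    have k2' : (0 : ℝ) ≤ x2 := by exact_mod_cast k2
    have e1 := mul_le_mul_of_nonpos_right h1 k1'
    have e2 := mul_le_mul_of_nonneg_right h4 k2'
    have : (0 : ℝ) < (M : ℝ) * x0 + aL * x1 + gU * x2 := by linarith
    exact_mod_cast this
  · have k1' : (x1 : ℝ) ≤ 0 := by exact_mod_cast k1
    have k2' : (x2 : ℝ) ≤ 0 := by exact_mod_cast k2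
    have e1 := mul_le_mul_of_nonpos_right h1 k1'
    have e2 := mul_le_mul_of_nonpos_right h3 k2'
    have : (0 : ℝ) < (M : ℝ) * x0 + aL * x1 + gL * x2 := by linarith
    exact_mod_cast this

theorem exists_root {f : ℝ → ℝ} (hf : Continuous f) {u v : ℝ} (huv : u < v)
    (h : f u * f v < 0) : ∃ x, u < x ∧ x < v ∧ f x = 0 := by
  rcases mul_neg_iff.1 h with ⟨h1, h2⟩ | ⟨h1, h2⟩
  · obtain ⟨x, hx, hfx⟩ := intermediate_value_Ioo' huv.le hf.continuousOn ⟨h2, h1⟩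
    exact ⟨x, hx.1, hx.2, hfx⟩
  · obtain ⟨x, hx, hfx⟩ := intermediate_value_Ioo huv.le hf.continuousOn ⟨h1, h2⟩
    exact ⟨x, hx.1, hx.2, hfx⟩

/-- The distances of the two classes of triangles. -/
def stdDist : Bool → ℕ
  | false => 1
  | true => 8

theorem lattice_cast {x : E3} (hx : x ∈ intLattice) :
    ∃ x0 x1 x2 : ℤ, x 0 = x0 ∧ x 1 = x1 ∧ x 2 = x2 := by
  obtain ⟨x0, h0⟩ := hx 0
  obtain ⟨x1, h1⟩ := hx 1
  obtain ⟨x2, h2⟩ := hx 2
  exact ⟨x0, x1, x2, h0, h1, h2⟩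

theorem ext3 {x y : E3} (h0 : x 0 = y 0) (h1 : x 1 = y 1) (h2 : x 2 = y 2) : x = y :=
  funext (forall_fin3 h0 h1 h2)

end Pool.Agent.H4Sail
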