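import Pool.Agent.H4Sail.Invariants

namespace Pool.Agent.H4Sail

open Set Topology

/-! ## The combinatorial structure: the triangulation of the plane by two classes of triangles -/

/-- Vertices of the two base triangles. -/
def base : Bool → Fin 3 → ℤ × ℤ
  | false => ![(0, 0), (1, 0), (1, 1)]
  | true => ![(0, 0), (1, 1), (0, 1)]

/-- Vertices of all triangles: translates of the two base triangles. -/
def stdVerts (τ : (ℤ × ℤ) × Bool) (i : Fin 3) : ℤ × ℤ := τ.1 + base τ.2 i

theorem mem_range_fin3 {α : Type*} {f : Fin 3 → α} {a : α} :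
    a ∈ range f ↔ a = f 0 ∨ a = f 1 ∨ a = f 2 := by
  constructor
  · rintro ⟨i, rfl⟩
    fin_cases i
    · left; rfl
    · right; left; rfl
    · right; right; rfl
  · rintro (h | h | h) <;> exact ⟨_, h.symm⟩

theorem forall_fin3 {p : Fin 3 → Prop} (h0 : p 0) (h1 : p 1) (h2 : p 2) : ∀ i, p i := by
  intro i
  fin_cases i
  · exact h0
  · exact h1
  · exact h2

theorem goodVerts_std : GoodVerts stdVerts := by
  constructor
  · rintro ⟨⟨x, y⟩, β⟩ i j h
    cases β <;> fin_cases i <;> fin_cases j <;> simp [stdVerts, base] at h ⊢
  · rintro ⟨⟨x, y⟩, β⟩ J hJ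
    have key : ∀ τ' : (ℤ × ℤ) × Bool,
        ((stdVerts ((x, y), β) 0 ∈ range (stdVerts τ') ↔ 0 ∈ J) ∧
        (stdVerts ((x, y), β) 1 ∈ range (stdVerts τ') ↔ 1 ∈ J) ∧
        (stdVerts ((x, y), β) 2 ∈ range (stdVerts τ') ↔ 2 ∈ J)) →
        ∃ τ', ∀ i, stdVerts ((x, y), β) i ∈ range (stdVerts τ') ↔ i ∈ J :=
      fun τ' h => ⟨τ', forall_fin3 h.1 h.2.1 h.2.2⟩
    have hsome : 0 ∈ J ∨ 1 ∈ J ∨ 2 ∈ J := by
      obtain ⟨i, hi⟩ := hJ
      fin_cases i
      · left; exact hi
      · right; left; exact hi
      · right; right; exact hi
    by_cases h0 : 0 ∈ J <;> by_cases h1 : 1 ∈ J <;> by_cases h2 : 2 ∈ J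
    · refine key ((x, y), β) ?_
      simp [h0, h1, h2]
    · cases β
      · refine key ((x, y - 1), true) ?_
        simp only [h0, h1, h2, mem_range_fin3, stdVerts, base]
        simp
      · refine key ((x, y), false) ?_
        simp only [h0, h1, h2, mem_range_fin3, stdVerts, base]
        simp
    · cases β
      · refine key ((x, y), true) ?_
        simp only [h0, h1, h2, mem_range_fin3, stdVerts, base]
        simp
      · refine key ((x - 1, y), false) ?_
        simp only [h0, h1, h2, mem_range_fin3, stdVerts, base]
        simp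
    · cases β
      · refine key ((x - 1, y - 1), false) ?_
        simp only [h0, h1, h2, mem_range_fin3, stdVerts, base]
        simp
        omega
      · refine key ((x - 1, y - 1), true) ?_
        simp only [h0, h1, h2, mem_range_fin3, stdVerts, base]
        simp
        omega
    · cases β
      · refine key ((x + 1, y), true) ?_
        simp only [h0, h1, h2, mem_range_fin3, stdVerts, base]
        simp
      · refine key ((x, y + 1), false) ?_
        simp only [h0, h1, h2, mem_range_fin3, stdVerts, base]
        simp
    · cases β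
      · refine key ((x + 1, y), false) ?_
        simp only [h0, h1, h2, mem_range_fin3, stdVerts, base]
        simp
        omega
      · refine key ((x + 1, y + 1), true) ?_
        simp only [h0, h1, h2, mem_range_fin3, stdVerts, base]
        simp
        omega
    · cases β
      · refine key ((x + 1, y + 1), false) ?_
        simp only [h0, h1, h2, mem_range_fin3, stdVerts, base]
        simp
        omega
      · refine key ((x, y + 1), true) ?_
        simp only [h0, h1, h2, mem_range_fin3, stdVerts, base]
        simp
        omega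
    · exfalso
      tauto

end Pool.Agent.H4Sail
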