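import Pool.Agent.H4Sail.OneVertex
import Pool.Agent.H4Sail.NonEquiv

namespace Pool.Agent.H4Sail

open Set Topology

/-- The first standard basis vector. -/
def e0 : E3 := ![1, 0, 0]

theorem mem_cone_one {P : PlaneTriple} {x : E3} : x ∈ P.cone 1 ↔ ∀ k, 0 < P.form k x := by
  simp [PlaneTriple.cone]

theorem EigenAct.prod_eq_one {P : PlaneTriple} {g : GL (Fin 3) ℤ} {t : Fin 3 → ℝ}
    (hg : EigenAct P g t) : t 0 * t 1 * t 2 = 1 := by
  have hcomp : P.coord ∘ₗ intLin g = (Matrix.toLin' (Matrix.diagonal t)) ∘ₗ P.coord := by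
    refine LinearMap.ext fun x => ?_
    funext k
    change P.form k (intAct g x) = _
    rw [hg.eig]
    simp only [LinearMap.comp_apply, Matrix.toLin'_apply, Matrix.mulVec_diagonal]
    rfl
  have hdet := congrArg LinearMap.det hcomp
  rw [LinearMap.det_comp, LinearMap.det_comp] at hdet
  have hne : LinearMap.det P.coord ≠ 0 := by
    have : IsUnit (LinearMap.det P.coord) := by
      have h := P.coordEquiv.isUnit_det'
      exact h
    exact this.ne_zero
  have h1 : LinearMap.det (intLin g) = t 0 * t 1 * t 2 := by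
    have h2 : LinearMap.det (Matrix.toLin' (Matrix.diagonal t)) = t 0 * t 1 * t 2 := by
      rw [LinearMap.det_toLin', Matrix.det_diagonal, Fin.prod_univ_three]
    rw [h2] at hdet
    apply mul_left_cancel₀ hne
    rw [hdet]; ring
  have h3 : LinearMap.det (intLin g) =
      (((Matrix.det (g : Matrix (Fin 3) (Fin 3) ℤ)) : ℤ) : ℝ) := by
    have h4 : LinearMap.det (intLin g) = Matrix.det
        ((g : Matrix (Fin 3) (Fin 3) ℤ).map (fun n : ℤ => (n : ℝ))) := by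
      rw [intLin, ← Matrix.toLin'_apply', LinearMap.det_toLin']
    rw [h4]
    have h5 := (Int.castRingHom ℝ).map_det (g : Matrix (Fin 3) (Fin 3) ℤ)
    exact h5.symm
  have h6 : IsUnit (Matrix.det (g : Matrix (Fin 3) (Fin 3) ℤ)) := by
    rw [← Matrix.isUnit_iff_isUnit_det]
    exact g.isUnit
  have hpos : 0 < t 0 * t 1 * t 2 := mul_pos (mul_pos (hg.pos 0) (hg.pos 1)) (hg.pos 2)
  rw [← h1, h3] at hpos ⊢
  rcases Int.isUnit_iff.1 h6 with h7 | h7
  · rw [h7]; simp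
  · rw [h7] at hpos; norm_num at hpos

/-- The vertex with index `p`. -/
noncomputable def vtx (A B : GL (Fin 3) ℤ) (p : ℤ × ℤ) : E3 :=
  intAct (A ^ p.1 * B ^ p.2) e0

/-- The linear form given by an integer vector, divided by a natural number. -/
noncomputable def fB (N : Fin 3 → ℤ) (D : ℕ) : E3 →ₗ[ℝ] ℝ :=
  (D : ℝ)⁻¹ • ∑ i, (N i : ℝ) • LinearMap.proj i

theorem fB_apply (N : Fin 3 → ℤ) (D : ℕ) (x : E3) :
    fB N D x = (D : ℝ)⁻¹ * ∑ i, (N i : ℝ) * x i := by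
  simp [fB]

/-- The data of a doubly periodic sail with one orbit of vertices and two orbits of triangles. -/
structure OneVertexData (P : PlaneTriple) (D : Bool → ℕ) where
  A : GL (Fin 3) ℤ
  B : GL (Fin 3) ℤ
  a : Fin 3 → ℝ
  b : Fin 3 → ℝ
  hA : EigenAct P A a
  hB : EigenAct P B b
  h0 : ∀ k, P.form k e0 = 1
  ha0 : a 0 < 1
  ha1 : a 1 < 1
  hb0 : 1 < b 0
  hb1 : b 1 < 1
  hb2 : b 2 < 1
  hab0 : 1 < a 0 * b 0
  hab2 : 1 < a 2 * b 2
  N : Bool → Fin 3 → ℤ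
  D_pos : ∀ β, 0 < D β
  low : ∃ c : ℝ, 0 < c ∧ ∀ x ∈ P.cone 1, ∀ β k, c * P.form k x ≤ fB (N β) (D β) x
  ge : ∀ β, ∀ x ∈ intLattice, x ∈ P.cone 1 → 1 ≤ fB (N β) (D β) x
  eq : ∀ β, ∀ x ∈ intLattice, x ∈ P.cone 1 → fB (N β) (D β) x = 1 → ∃ i, x = vtx A B (base β i)
  vert : ∀ β i, fB (N β) (D β) (vtx A B (base β i)) = 1
  indep : ∀ β, LinearIndependent ℝ (fun i => vtx A B (base β i))
  gen : ∀ β, ∀ z ∈ intLattice, fB (N β) (D β) z = 0 → ∃ m n : ℤ,
    z = m • (vtx A B (base β 1) - vtx A B (base β 0)) +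
      n • (vtx A B (base β 2) - vtx A B (base β 0))
  prim : ∀ β, ∃ x : Fin 3 → ℤ, ∑ i, N β i * x i = 1

namespace OneVertexData

variable {P : PlaneTriple} {D : Bool → ℕ} (W : OneVertexData P D)

theorem comm : W.A * W.B = W.B * W.A := W.hA.commute W.hB

/-- The group element with index `p`. -/
noncomputable def g (p : ℤ × ℤ) : GL (Fin 3) ℤ := W.A ^ p.1 * W.B ^ p.2

theorem g_add (p q : ℤ × ℤ) : W.g (p + q) = W.g p * W.g q := by
  have hc : Commute W.A W.B := W.comm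
  simp only [g, Prod.fst_add, Prod.snd_add, zpow_add]
  have h1 : Commute (W.A ^ q.1) (W.B ^ p.2) := (hc.zpow_left _).zpow_right _
  calc W.A ^ p.1 * W.A ^ q.1 * (W.B ^ p.2 * W.B ^ q.2)
      = W.A ^ p.1 * (W.A ^ q.1 * W.B ^ p.2) * W.B ^ q.2 := by group
    _ = W.A ^ p.1 * (W.B ^ p.2 * W.A ^ q.1) * W.B ^ q.2 := by rw [h1.eq]
    _ = _ := by group

/-- The eigenvalues of the group element with index `p`. -/
noncomputable def ev (p : ℤ × ℤ) (k : Fin 3) : ℝ := W.a k ^ p.1 * W.b k ^ p.2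

theorem eigenAct_g (p : ℤ × ℤ) : EigenAct P (W.g p) (W.ev p) :=
  (W.hA.zpow p.1).mul (W.hB.zpow p.2)

theorem vtx_eq (p : ℤ × ℤ) : vtx W.A W.B p = intAct (W.g p) e0 := rfl

theorem vtx_add (p q : ℤ × ℤ) : vtx W.A W.B (p + q) = intAct (W.g p) (vtx W.A W.B q) := by
  rw [vtx_eq, vtx_eq, g_add, intAct_mul]

theorem form_vtx (p : ℤ × ℤ) (k : Fin 3) : P.form k (vtx W.A W.B p) = W.ev p k := by
  rw [vtx_eq, (W.eigenAct_g p).eig, W.h0, mul_one]

theorem ev_pos (p : ℤ × ℤ) (k : Fin 3) : 0 < W.ev p k := (W.eigenAct_g p).pos k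

theorem ev_prod (p : ℤ × ℤ) : W.ev p 0 * W.ev p 1 * W.ev p 2 = 1 :=
  (W.eigenAct_g p).prod_eq_one

theorem irrational_of_contr {P : PlaneTriple}
    (contr : ∀ k, ∃ g t, EigenAct P g t ∧ ∀ l, l ≠ k → t l < 1) : Irrational P := by
  refine ⟨?_, contr⟩
  intro k x hx hk
  by_contra hx0
  obtain ⟨g, t, hg, ht⟩ := contr k
  obtain ⟨c, hc, hb⟩ := P.exists_sum_lower
  have hlow : ∀ n : ℕ, c ≤ ∑ l, t l ^ n * |P.form l x| := by
    intro n
    have h1 : intAct (g ^ n) x ≠ 0 := by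
      intro h
      rw [← intAct_zero (g ^ n)] at h
      exact hx0 (intAct_injective _ h)
    refine (hb _ (intAct_mem_intLattice hx) h1).trans (le_of_eq ?_)
    refine Finset.sum_congr rfl fun l _ => ?_
    rw [(hg.pow n).eig, abs_mul, abs_of_pos ((hg.pow n).pos l)]
  have hlim : Filter.Tendsto
      (fun n : ℕ => ∑ l, t l ^ n * |P.form l x|) Filter.atTop (𝓝 0) := by
    have : (0 : ℝ) = ∑ l : Fin 3, (0 : ℝ) := by simp
    rw [this]
    refine tendsto_finsetSum _ fun l _ => ?_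
    by_cases hl : l = k
    · subst hl
      rw [hk]
      simp
    · have h1 := tendsto_pow_atTop_nhds_zero_of_lt_one (hg.pos l).le (ht l hl)
      simpa using h1.mul_const (|P.form l x|)
  have := ge_of_tendsto' hlim hlow
  linarith

include W in
theorem irrational : Irrational P := by
  apply irrational_of_contr
  apply forall_fin3
  · refine ⟨W.B, W.b, W.hB, ?_⟩
    apply forall_fin3
    · intro h; exact absurd rfl h
    · intro _; exact W.hb1
    · intro _; exact W.hb2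
  · refine ⟨(W.A * W.B)⁻¹, _, (W.hA.mul W.hB).inv, ?_⟩
    apply forall_fin3
    · intro _; exact inv_lt_one_of_one_lt₀ W.hab0
    · intro h; exact absurd rfl h
    · intro _; exact inv_lt_one_of_one_lt₀ W.hab2
  · refine ⟨W.A, W.a, W.hA, ?_⟩
    apply forall_fin3
    · intro _; exact W.ha0
    · intro _; exact W.ha1
    · intro h; exact absurd rfl h

theorem e0_lat : e0 ∈ intLattice := by
  intro i
  fin_cases i
  · exact ⟨1, by simp [e0]⟩
  · exact ⟨0, by simp [e0]⟩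
  · exact ⟨0, by simp [e0]⟩

theorem vtx_lat (p : ℤ × ℤ) : vtx W.A W.B p ∈ intLattice := intAct_mem_intLattice e0_lat

theorem vtx_cone (p : ℤ × ℤ) : vtx W.A W.B p ∈ P.cone 1 := by
  rw [mem_cone_one]
  intro k
  rw [form_vtx]
  exact W.ev_pos p k

theorem index_eq_zero {i j : ℤ} (h : ∀ k, W.a k ^ i * W.b k ^ j = 1) : i = 0 ∧ j = 0 := by
  have hlog : ∀ k, (i : ℝ) * Real.log (W.a k) + (j : ℝ) * Real.log (W.b k) = 0 := by
    intro k
    have h1 := congrArg Real.log (h k)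
    rwa [Real.log_mul (zpow_pos (W.hA.pos k) _).ne' (zpow_pos (W.hB.pos k) _).ne',
      Real.log_zpow, Real.log_zpow, Real.log_one] at h1
  have ha0 : Real.log (W.a 0) < 0 := Real.log_neg (W.hA.pos 0) W.ha0
  have ha1 : Real.log (W.a 1) < 0 := Real.log_neg (W.hA.pos 1) W.ha1
  have hb0 : 0 < Real.log (W.b 0) := Real.log_pos W.hb0
  have hb1 : Real.log (W.b 1) < 0 := Real.log_neg (W.hB.pos 1) W.hb1
  have h0 := hlog 0
  have h1 := hlog 1
  rcases lt_trichotomy i 0 with hi | hi | hi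
  · exfalso
    have hi' : (i : ℝ) < 0 := by exact_mod_cast hi
    rcases lt_trichotomy j 0 with hj | hj | hj
    · have hj' : (j : ℝ) < 0 := by exact_mod_cast hj
      nlinarith
    · rw [hj] at h1; simp at h1; rcases h1 with h | h
      · omega
      · rcases h with h | h | h <;> linarith [W.hA.pos 1, W.ha1]
    · have hj' : (0 : ℝ) < j := by exact_mod_cast hj
      nlinarith
  · refine ⟨hi, ?_⟩
    rw [hi] at h0
    simp only [Int.cast_zero, zero_mul, zero_add, mul_eq_zero] at h0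
    rcases h0 with h | h
    · exact_mod_cast h
    · linarith
  · exfalso
    have hi' : (0 : ℝ) < i := by exact_mod_cast hi
    rcases lt_trichotomy j 0 with hj | hj | hj
    · have hj' : (j : ℝ) < 0 := by exact_mod_cast hj
      nlinarith
    · rw [hj] at h1; simp at h1; rcases h1 with h | h
      · omega
      · rcases h with h | h | h <;> linarith [W.hA.pos 1, W.ha1]
    · have hj' : (0 : ℝ) < j := by exact_mod_cast hj
      nlinarith

theorem vtx_inj : Function.Injective (vtx W.A W.B) := by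
  intro p q h
  have h1 : ∀ k, W.ev p k = W.ev q k := by
    intro k
    rw [← form_vtx, ← form_vtx, h]
  have h2 : ∀ k, W.a k ^ (p.1 - q.1) * W.b k ^ (p.2 - q.2) = 1 := by
    intro k
    have h3 := h1 k
    simp only [ev] at h3
    rw [zpow_sub₀ (W.hA.pos k).ne', zpow_sub₀ (W.hB.pos k).ne']
    have ha := (zpow_pos (W.hA.pos k) q.1).ne'
    have hb := (zpow_pos (W.hB.pos k) q.2).ne'
    field_simp
    exact h3
  obtain ⟨h3, h4⟩ := W.index_eq_zero h2
  exact Prod.ext (by omega) (by omega)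

/-- The functional of the triangle with index `τ`. -/
noncomputable def f (τ : (ℤ × ℤ) × Bool) : E3 →ₗ[ℝ] ℝ :=
  (fB (W.N τ.2) (D τ.2)).comp (intLin (W.g τ.1)⁻¹)

theorem f_apply (τ : (ℤ × ℤ) × Bool) (x : E3) :
    W.f τ x = fB (W.N τ.2) (D τ.2) (intAct (W.g τ.1)⁻¹ x) := rfl

theorem vtx_stdVerts (τ : (ℤ × ℤ) × Bool) (i : Fin 3) :
    vtx W.A W.B (stdVerts τ i) = intAct (W.g τ.1) (vtx W.A W.B (base τ.2 i)) := by
  rw [stdVerts, vtx_add]

theorem locfin' (c R : ℝ) (hc : 0 < c) :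
    {τ : (ℤ × ℤ) × Bool | ∃ y : E3, (∀ k, c ≤ P.form k y) ∧ W.f τ y ≤ R}.Finite := by
  obtain ⟨l, hl, hlow⟩ := W.low
  by_cases hR : R ≤ 0
  · convert Set.finite_empty
    ext τ
    simp only [mem_empty_iff_false, iff_false]
    rintro ⟨y, hy1, hy2⟩
    have hcone : intAct (W.g τ.1)⁻¹ y ∈ P.cone 1 := by
      rw [(W.eigenAct_g τ.1).inv.mem_cone_iff, mem_cone_one]
      intro k; linarith [hy1 k]
    have h1 := hlow _ hcone τ.2 0
    have h2 := (mem_cone_one.1 hcone) 0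
    rw [← W.f_apply] at h1
    have h3 : 0 < l * P.form 0 (intAct (W.g τ.1)⁻¹ y) := mul_pos hl h2
    linarith
  have hRpos : 0 < R := not_le.1 hR
  set δ : ℝ := l * c / R with hδ
  have hδpos : 0 < δ := by positivity
  have hfin := P.finite_bounded (1 / (δ * δ))
  have hfin2 := hfin.preimage (W.vtx_inj.injOn)
  have hfin3 : (((vtx W.A W.B) ⁻¹' {x : E3 | x ∈ intLattice ∧ ∀ k, |P.form k x| ≤ 1 / (δ * δ)})
    ×ˢ (univ : Set Bool)).Finite := hfin2.prod Set.finite_univ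
  refine hfin3.subset ?_
  rintro ⟨p, β⟩ ⟨y, hy1, hy2⟩
  refine ⟨?_, trivial⟩
  have hlowk : ∀ k, δ ≤ W.ev p k := by
    intro k
    have hcone : intAct (W.g p)⁻¹ y ∈ P.cone 1 := by
      rw [(W.eigenAct_g p).inv.mem_cone_iff, mem_cone_one]
      intro k; linarith [hy1 k]
    have h1 := hlow _ hcone β k
    rw [(W.eigenAct_g p).inv.eig] at h1
    have h2 : l * ((W.ev p k)⁻¹ * P.form k y) ≤ R := h1.trans hy2
    have h3 := W.ev_pos p k
    have h4 : l * P.form k y ≤ R * W.ev p k := by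
      have : l * P.form k y = l * ((W.ev p k)⁻¹ * P.form k y) * W.ev p k := by
        field_simp
      rw [this]
      exact mul_le_mul_of_nonneg_right h2 h3.le
    rw [hδ, div_le_iff₀ hRpos]
    have h5 : l * c ≤ l * P.form k y := mul_le_mul_of_nonneg_left (hy1 k) hl.le
    linarith
  refine ⟨W.vtx_lat p, fun k => ?_⟩
  rw [W.form_vtx, abs_of_pos (W.ev_pos p k)]
  have hprod := W.ev_prod p
  have h0 := hlowk 0
  have h1 := hlowk 1
  have h2 := hlowk 2
  have p0 := W.ev_pos p 0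
  have p1 := W.ev_pos p 1
  have p2 := W.ev_pos p 2
  rw [le_div_iff₀ (mul_pos hδpos hδpos)]
  revert k
  apply forall_fin3
  · have h3 : δ * δ ≤ W.ev p 1 * W.ev p 2 := mul_le_mul h1 h2 hδpos.le p1.le
    calc W.ev p 0 * (δ * δ) ≤ W.ev p 0 * (W.ev p 1 * W.ev p 2) :=
          mul_le_mul_of_nonneg_left h3 p0.le
      _ = 1 := by rw [← hprod]; ring
  · have h3 : δ * δ ≤ W.ev p 0 * W.ev p 2 := mul_le_mul h0 h2 hδpos.le p0.le
    calc W.ev p 1 * (δ * δ) ≤ W.ev p 1 * (W.ev p 0 * W.ev p 2) :=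
          mul_le_mul_of_nonneg_left h3 p1.le
      _ = 1 := by rw [← hprod]; ring
  · have h3 : δ * δ ≤ W.ev p 0 * W.ev p 1 := mul_le_mul h0 h1 hδpos.le p0.le
    calc W.ev p 2 * (δ * δ) ≤ W.ev p 2 * (W.ev p 0 * W.ev p 1) :=
          mul_le_mul_of_nonneg_left h3 p2.le
      _ = 1 := by rw [← hprod]; ring

theorem locfin (x : E3) (hx : x ∈ P.cone 1) (R : ℝ) :
    ∃ U ∈ 𝓝 x, {τ | ∃ y ∈ U, W.f τ y ≤ R}.Finite := by
  rw [mem_cone_one] at hx
  obtain ⟨c, hc, hcx⟩ : ∃ c : ℝ, 0 < c ∧ ∀ k, c < P.form k x := by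
    refine ⟨min (P.form 0 x) (min (P.form 1 x) (P.form 2 x)) / 2, ?_, ?_⟩
    · have := hx 0; have := hx 1; have := hx 2
      positivity
    · have h0 := hx 0
      have h1 := hx 1
      have h2 := hx 2
      have h3 : 0 < min (P.form 0 x) (min (P.form 1 x) (P.form 2 x)) := by positivity
      have h4 : min (P.form 0 x) (min (P.form 1 x) (P.form 2 x)) ≤ P.form 0 x := min_le_left _ _
      have h5 : min (P.form 0 x) (min (P.form 1 x) (P.form 2 x)) ≤ P.form 1 x :=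
        (min_le_right _ _).trans (min_le_left _ _)
      have h6 : min (P.form 0 x) (min (P.form 1 x) (P.form 2 x)) ≤ P.form 2 x :=
        (min_le_right _ _).trans (min_le_right _ _)
      apply forall_fin3 <;> linarith
  refine ⟨{y | ∀ k, c < P.form k y}, ?_, ?_⟩
  · have : {y | ∀ k, c < P.form k y} = ⋂ k, {y | c < P.form k y} := by ext y; simp
    rw [this]
    exact (isOpen_iInter_of_finite fun k => isOpen_lt continuous_const
      (P.form k).continuous_of_finiteDimensional).mem_nhds (by simpa using hcx)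
  · refine (W.locfin' c R hc).subset ?_
    rintro τ ⟨y, hy1, hy2⟩
    exact ⟨y, fun k => (hy1 k).le, hy2⟩

theorem f_vert (τ : (ℤ × ℤ) × Bool) (i : Fin 3) : W.f τ (vtx W.A W.B (stdVerts τ i)) = 1 := by
  rw [f_apply, vtx_stdVerts, intAct_inv_intAct, W.vert]

theorem f_ge (τ : (ℤ × ℤ) × Bool) (x : E3) (hx : x ∈ intLattice) (hx' : x ∈ P.cone 1) :
    1 ≤ W.f τ x := by
  rw [f_apply]
  apply W.ge _ _ (intAct_mem_intLattice hx)
  rw [(W.eigenAct_g τ.1).inv.mem_cone_iff]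
  exact hx'

theorem f_eq (τ : (ℤ × ℤ) × Bool) (x : E3) (hx : x ∈ intLattice) (hx' : x ∈ P.cone 1)
    (h : W.f τ x = 1) : ∃ i, x = vtx W.A W.B (stdVerts τ i) := by
  obtain ⟨i, hi⟩ := W.eq τ.2 _ (intAct_mem_intLattice (g := (W.g τ.1)⁻¹) hx)
    (by rw [(W.eigenAct_g τ.1).inv.mem_cone_iff]; exact hx') h
  refine ⟨i, ?_⟩
  rw [vtx_stdVerts, ← hi, intAct_intAct_inv]

theorem indep' (τ : (ℤ × ℤ) × Bool) :
    LinearIndependent ℝ (fun i => vtx W.A W.B (stdVerts τ i)) := by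
  have h1 := (W.indep τ.2).map' (intLin (W.g τ.1)) (by
    rw [LinearMap.ker_eq_bot]
    exact intAct_injective (W.g τ.1))
  have h2 : (fun i => vtx W.A W.B (stdVerts τ i)) =
      (intLin (W.g τ.1)) ∘ fun i => vtx W.A W.B (base τ.2 i) := by
    funext i
    exact W.vtx_stdVerts τ i
  rw [h2]
  exact h1

theorem cover (x : E3) (hx : x ∈ P.cone 1) :
    ∃ τ, ∃ c : Fin 3 → ℝ, (∀ i, 0 ≤ c i) ∧ x = ∑ i, c i • vtx W.A W.B (stdVerts τ i) := by
  obtain ⟨U, hU, hfin⟩ := W.locfin x hx (W.f ((0, 0), false) x)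
  have hxU : x ∈ U := mem_of_mem_nhds hU
  have hfin' : {τ | W.f τ x ≤ W.f ((0, 0), false) x}.Finite :=
    hfin.subset fun τ hτ => ⟨x, hxU, hτ⟩
  obtain ⟨τ, hτ, hmin⟩ := Set.exists_min_image _ (fun τ => W.f τ x) hfin'
    ⟨((0, 0), false), by simp⟩
  have hmin' : ∀ τ', W.f τ x ≤ W.f τ' x := by
    intro τ'
    by_cases h : W.f τ' x ≤ W.f ((0, 0), false) x
    · exact hmin τ' h
    · exact hτ.trans (not_le.1 h).le
  refine ⟨τ, ?_⟩
  let bs : Module.Basis (Fin 3) ℝ E3 :=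
    basisOfLinearIndependentOfCardEqFinrank (W.indep' τ) (by simp)
  have hbs : ∀ i, bs i = vtx W.A W.B (stdVerts τ i) := by intro i; simp [bs]
  have hsum : x = ∑ i, bs.repr x i • vtx W.A W.B (stdVerts τ i) := by
    conv_lhs => rw [← bs.sum_repr x]
    exact Finset.sum_congr rfl fun i _ => by rw [hbs]
  refine ⟨fun i => bs.repr x i, ?_, hsum⟩
  intro m
  by_contra hm
  have hm' : bs.repr x m < 0 := not_le.1 hm
  have hJ : (Finset.univ.erase m).Nonempty := by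
    rw [← Finset.card_pos, Finset.card_erase_of_mem (Finset.mem_univ _)]; simp
  obtain ⟨τ', hτ'⟩ := goodVerts_std.nbr τ (Finset.univ.erase m) hJ
  have h1 : ∀ i, i ≠ m → W.f τ' (vtx W.A W.B (stdVerts τ i)) = 1 := by
    intro i hi
    obtain ⟨j, hj⟩ := (hτ' i).2 (by simp [hi])
    rw [← hj]
    exact W.f_vert τ' j
  have h2 : 1 < W.f τ' (vtx W.A W.B (stdVerts τ m)) := by
    refine lt_of_le_of_ne (W.f_ge τ' _ (W.vtx_lat _) (W.vtx_cone _)) ?_
    intro h
    obtain ⟨j, hj⟩ := W.f_eq τ' _ (W.vtx_lat _) (W.vtx_cone _) h.symm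
    have h3 := (hτ' m).1 ⟨j, (W.vtx_inj hj).symm⟩
    simp at h3
  have h3 : W.f τ' x < W.f τ x := by
    have e1 : W.f τ' x = ∑ i, bs.repr x i * W.f τ' (vtx W.A W.B (stdVerts τ i)) := by
      conv_lhs => rw [hsum]
      rw [map_sum]
      exact Finset.sum_congr rfl fun i _ => by rw [map_smul, smul_eq_mul]
    have e2 : W.f τ x = ∑ i, bs.repr x i * W.f τ (vtx W.A W.B (stdVerts τ i)) := by
      conv_lhs => rw [hsum]
      rw [map_sum]
      exact Finset.sum_congr rfl fun i _ => by rw [map_smul, smul_eq_mul]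
    rw [e1, e2]
    apply Finset.sum_lt_sum
    · intro i _
      rw [W.f_vert]
      by_cases hi : i = m
      · subst hi; nlinarith
      · rw [h1 i hi]
    · refine ⟨m, Finset.mem_univ _, ?_⟩
      rw [W.f_vert]
      nlinarith
  linarith [hmin' τ']

theorem gen' (τ : (ℤ × ℤ) × Bool) (z : E3) (hz : z ∈ intLattice) (h : W.f τ z = 0) :
    ∃ m n : ℤ, z = m • (vtx W.A W.B (stdVerts τ 1) - vtx W.A W.B (stdVerts τ 0)) +
      n • (vtx W.A W.B (stdVerts τ 2) - vtx W.A W.B (stdVerts τ 0)) := by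
  obtain ⟨m, n, hmn⟩ := W.gen τ.2 _ (intAct_mem_intLattice (g := (W.g τ.1)⁻¹) hz) h
  refine ⟨m, n, ?_⟩
  have h1 := congrArg (intAct (W.g τ.1)) hmn
  rw [intAct_intAct_inv] at h1
  rw [h1, vtx_stdVerts, vtx_stdVerts, vtx_stdVerts]
  have h2 : ∀ (k : ℤ) (y : E3), intAct (W.g τ.1) (k • y) = k • intAct (W.g τ.1) y := by
    intro k y
    exact map_zsmul (intLin (W.g τ.1)) k y
  rw [intAct_add, h2, h2, intAct_sub, intAct_sub]

/-- The integer covector of the triangle with index `τ`. -/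
noncomputable def NN (τ : (ℤ × ℤ) × Bool) : Fin 3 → ℤ :=
  Matrix.vecMul (W.N τ.2) (((W.g τ.1)⁻¹ : GL (Fin 3) ℤ) : Matrix (Fin 3) (Fin 3) ℤ)

theorem NN_dot (τ : (ℤ × ℤ) × Bool) (y : Fin 3 → ℤ) :
    ∑ i, W.NN τ i * y i =
      ∑ i, W.N τ.2 i * (Matrix.mulVec (((W.g τ.1)⁻¹ : GL (Fin 3) ℤ) :
        Matrix (Fin 3) (Fin 3) ℤ) y) i := by
  change W.NN τ ⬝ᵥ y = W.N τ.2 ⬝ᵥ _
  rw [NN, Matrix.dotProduct_mulVec]

theorem NN_eq (τ : (ℤ × ℤ) × Bool) (x : E3) :
    ∑ i, (W.NN τ i : ℝ) * x i = D τ.2 * W.f τ x := by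
  rw [f_apply, fB_apply, ← mul_assoc, mul_inv_cancel₀
    (by exact_mod_cast (W.D_pos τ.2).ne'), one_mul]
  simp only [NN, intAct, Matrix.vecMul, Matrix.mulVec, dotProduct, Matrix.map_apply,
    Fin.sum_univ_three]
  push_cast
  ring

theorem NN_prim (τ : (ℤ × ℤ) × Bool) (d : ℤ) (hd : ∀ i, d ∣ W.NN τ i) : IsUnit d := by
  obtain ⟨x, hx⟩ := W.prim τ.2
  have h1 := W.NN_dot τ (Matrix.mulVec ((W.g τ.1 : GL (Fin 3) ℤ) : Matrix (Fin 3) (Fin 3) ℤ) x)
  rw [Matrix.mulVec_mulVec, ← Units.val_mul, inv_mul_cancel, Units.val_one,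
    Matrix.one_mulVec, hx] at h1
  have h2 : d ∣ ∑ i, W.NN τ i *
      (Matrix.mulVec ((W.g τ.1 : GL (Fin 3) ℤ) : Matrix (Fin 3) (Fin 3) ℤ) x) i :=
    Finset.dvd_sum fun i _ => (hd i).mul_right _
  rw [h1] at h2
  exact isUnit_of_dvd_one h2

/-- The sail model given by one-vertex data. -/
noncomputable def model : SailModel P 1 stdVerts (fun τ : (ℤ × ℤ) × Bool => D τ.2) where
  V := vtx W.A W.B
  f := W.f
  N := W.NN
  irr := W.irrational
  V_inj := W.vtx_inj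
  V_lat := W.vtx_lat
  V_cone := W.vtx_cone
  f_ge := W.f_ge
  f_eq := W.f_eq
  f_vert := W.f_vert
  indep := W.indep'
  cover := W.cover
  locfin := W.locfin
  gen := W.gen'
  D_pos := fun τ => W.D_pos τ.2
  N_eq := W.NN_eq
  N_prim := W.NN_prim

end OneVertexData

end Pool.Agent.H4Sail
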