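import Pool.Agent.H4Sail.Basic

namespace Pool.Agent.H4Sail

open Set Topology

/-! ## Forms as coordinates -/

/-- The three forms as a linear map. -/
noncomputable def PlaneTriple.coord (P : PlaneTriple) : E3 →ₗ[ℝ] E3 := LinearMap.pi P.form

theorem PlaneTriple.coord_apply (P : PlaneTriple) (x : E3) (k : Fin 3) :
    P.coord x k = P.form k x := rfl

theorem PlaneTriple.eq_zero_of_form (P : PlaneTriple) {x : E3} (h : ∀ k, P.form k x = 0) :
    x = 0 := by
  -- the forms span the dual space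
  have hspan : Submodule.span ℝ (Set.range P.form) = ⊤ := by
    apply P.indep.span_eq_top_of_card_eq_finrank'
    rw [Subspace.dual_finrank_eq]
    simp
  by_contra hx
  obtain ⟨f, hf⟩ : ∃ f : Module.Dual ℝ E3, f x ≠ 0 := by
    by_contra hcon
    push Not at hcon
    exact hx ((Module.forall_dual_apply_eq_zero_iff ℝ x).1 hcon)
  have hmem : f ∈ Submodule.span ℝ (Set.range P.form) := by rw [hspan]; trivial
  apply hf
  refine Submodule.span_induction (p := fun (g : Module.Dual ℝ E3) _ => g x = 0) ?_ ?_ ?_ ?_ hmem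
  · rintro g ⟨k, rfl⟩; exact h k
  · simp
  · intro a b _ _ ha hb; simp [ha, hb]
  · intro a b _ hb; simp [hb]

theorem PlaneTriple.coord_injective (P : PlaneTriple) : Function.Injective P.coord := by
  rw [← LinearMap.ker_eq_bot, LinearMap.ker_eq_bot']
  intro x hx
  apply P.eq_zero_of_form
  intro k
  have := congrFun hx k
  exact this

/-- The three forms as a linear equivalence. -/
noncomputable def PlaneTriple.coordEquiv (P : PlaneTriple) : E3 ≃ₗ[ℝ] E3 :=
  LinearEquiv.ofInjectiveEndo P.coord P.coord_injective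

theorem PlaneTriple.coordEquiv_apply (P : PlaneTriple) (x : E3) (k : Fin 3) :
    P.coordEquiv x k = P.form k x := rfl

theorem PlaneTriple.exists_bound (P : PlaneTriple) :
    ∃ c : ℝ, 0 < c ∧ ∀ x : E3, ‖x‖ ≤ c * ∑ k, |P.form k x| := by
  let e := P.coordEquiv.toContinuousLinearEquiv
  refine ⟨‖(e.symm : E3 →L[ℝ] E3)‖ + 1, by positivity, fun x => ?_⟩
  have h1 : ‖x‖ ≤ ‖(e.symm : E3 →L[ℝ] E3)‖ * ‖e x‖ := by
    have := (e.symm : E3 →L[ℝ] E3).le_opNorm (e x)
    simpa using this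
  have h2 : ‖e x‖ ≤ ∑ k, |P.form k x| := by
    rw [pi_norm_le_iff_of_nonneg (Finset.sum_nonneg fun _ _ => abs_nonneg _)]
    intro k
    have : e x k = P.form k x := P.coordEquiv_apply x k
    rw [this, Real.norm_eq_abs]
    exact Finset.single_le_sum (f := fun k => |P.form k x|) (fun _ _ => abs_nonneg _)
      (Finset.mem_univ k)
  have h3 : 0 ≤ ‖e x‖ := norm_nonneg _
  calc ‖x‖ ≤ ‖(e.symm : E3 →L[ℝ] E3)‖ * ‖e x‖ := h1
    _ ≤ (‖(e.symm : E3 →L[ℝ] E3)‖ + 1) * ‖e x‖ := by nlinarith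
    _ ≤ (‖(e.symm : E3 →L[ℝ] E3)‖ + 1) * ∑ k, |P.form k x| := by
      apply mul_le_mul_of_nonneg_left h2; positivity

theorem one_le_norm_of_mem_intLattice {x : E3} (hx : x ∈ intLattice) (h0 : x ≠ 0) : 1 ≤ ‖x‖ := by
  obtain ⟨n, rfl⟩ := mem_intLattice_iff_cast.1 hx
  have : ∃ i, n i ≠ 0 := by
    by_contra hcon
    push Not at hcon
    apply h0
    funext i
    simp [hcon i]
  obtain ⟨i, hi⟩ := this
  calc (1 : ℝ) ≤ |((n i : ℤ) : ℝ)| := by
        have : (1 : ℤ) ≤ |n i| := Int.one_le_abs hi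
        exact_mod_cast this
    _ = ‖((n i : ℤ) : ℝ)‖ := rfl
    _ ≤ _ := norm_le_pi_norm (fun i => ((n i : ℤ) : ℝ)) i

theorem finite_intLattice_of_bounded (R : ℝ) : {x : E3 | x ∈ intLattice ∧ ‖x‖ ≤ R}.Finite := by
  have hfin : (Set.pi Set.univ (fun _ : Fin 3 => Set.Icc (-⌈R⌉) ⌈R⌉)).Finite :=
    Set.Finite.pi' (fun _ => Set.finite_Icc _ _) |>.subset (by intro x hx i; exact hx i trivial)
  refine (hfin.image (fun n : Fin 3 → ℤ => (fun i => ((n i : ℤ) : ℝ)))).subset ?_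
  rintro x ⟨hx, hR⟩
  obtain ⟨n, rfl⟩ := mem_intLattice_iff_cast.1 hx
  refine ⟨n, fun i _ => ?_, rfl⟩
  have h1 : |((n i : ℤ) : ℝ)| ≤ R := (norm_le_pi_norm (fun i => ((n i : ℤ) : ℝ)) i).trans hR
  have h2 : |((n i : ℤ) : ℝ)| ≤ (⌈R⌉ : ℝ) := h1.trans (Int.le_ceil R)
  have h3 : |n i| ≤ ⌈R⌉ := by exact_mod_cast h2
  exact ⟨(abs_le.1 h3).1, (abs_le.1 h3).2⟩

theorem PlaneTriple.finite_bounded (P : PlaneTriple) (M : ℝ) :
    {x : E3 | x ∈ intLattice ∧ ∀ k, |P.form k x| ≤ M}.Finite := by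
  obtain ⟨c, hc, hb⟩ := P.exists_bound
  refine (finite_intLattice_of_bounded (c * (3 * M))).subset ?_
  rintro x ⟨hx, hM⟩
  refine ⟨hx, (hb x).trans ?_⟩
  apply mul_le_mul_of_nonneg_left _ hc.le
  rw [Fin.sum_univ_three]
  linarith [hM 0, hM 1, hM 2]

/-! ## The closed cone -/

theorem sign_mul_self (u : ℤˣ) : (((u : ℤˣ) : ℤ) : ℝ) * (((u : ℤˣ) : ℤ) : ℝ) = 1 := by
  rcases Int.units_eq_one_or u with h | h <;> simp [h]

theorem sign_mul_eq_abs {u : ℤˣ} {y : ℝ} (h : 0 ≤ (((u : ℤˣ) : ℤ) : ℝ) * y) :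
    |y| = (((u : ℤˣ) : ℤ) : ℝ) * y := by
  rcases Int.units_eq_one_or u with h1 | h1
  · subst h1; simp at h ⊢; exact h
  · subst h1; simp at h ⊢; exact h

theorem PlaneTriple.isOpen_cone (P : PlaneTriple) (s : Fin 3 → ℤˣ) : IsOpen (P.cone s) := by
  have : P.cone s = ⋂ i, {x | 0 < (((s i : ℤˣ) : ℤ) : ℝ) * P.form i x} := by
    ext x; simp [PlaneTriple.cone]
  rw [this]
  refine isOpen_iInter_of_finite fun i => ?_
  exact isOpen_lt continuous_const
    (continuous_const.mul (P.form i).continuous_of_finiteDimensional)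

theorem PlaneTriple.closure_cone_subset (P : PlaneTriple) (s : Fin 3 → ℤˣ) :
    closure (P.cone s) ⊆ {x | ∀ i, 0 ≤ (((s i : ℤˣ) : ℤ) : ℝ) * P.form i x} := by
  apply closure_minimal
  · intro x hx i
    exact (hx i).le
  · have : {x | ∀ i, 0 ≤ (((s i : ℤˣ) : ℤ) : ℝ) * P.form i x} =
      ⋂ i, {x | 0 ≤ (((s i : ℤˣ) : ℤ) : ℝ) * P.form i x} := by
      ext x; simp
    rw [this]
    refine isClosed_iInter fun i => ?_
    exact isClosed_le continuous_const
      (continuous_const.mul (P.form i).continuous_of_finiteDimensional)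

theorem PlaneTriple.cone_smul (P : PlaneTriple) {s : Fin 3 → ℤˣ} {x : E3} (hx : x ∈ P.cone s)
    {t : ℝ} (ht : 0 < t) : t • x ∈ P.cone s := by
  intro i
  have := hx i
  rw [map_smul, smul_eq_mul, mul_left_comm]
  exact mul_pos ht this

/-- The data of a totally irrational triple of planes with enough automorphisms. -/
structure Irrational (P : PlaneTriple) : Prop where
  irr : ∀ k, ∀ x ∈ intLattice, P.form k x = 0 → x = 0
  contr : ∀ k, ∃ g t, EigenAct P g t ∧ ∀ l, l ≠ k → t l < 1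

variable {P : PlaneTriple}

theorem Irrational.gen_eq (hP : Irrational P) (s : Fin 3 → ℤˣ) :
    ((closure (P.cone s) ∩ (intLattice : Set E3)) \ {0}) = P.cone s ∩ (intLattice : Set E3) := by
  ext x
  constructor
  · rintro ⟨⟨h1, h2⟩, h3⟩
    refine ⟨fun i => ?_, h2⟩
    have h4 := P.closure_cone_subset s h1 i
    rcases h4.lt_or_eq with h5 | h5
    · exact h5
    · exfalso
      apply h3
      have : P.form i x = 0 := by
        have hs := sign_mul_self (s i)
        calc P.form i x = ((((s i : ℤˣ) : ℤ) : ℝ) * (((s i : ℤˣ) : ℤ) : ℝ)) * P.form i x := by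
              rw [hs, one_mul]
          _ = (((s i : ℤˣ) : ℤ) : ℝ) * ((((s i : ℤˣ) : ℤ) : ℝ) * P.form i x) := by ring
          _ = 0 := by rw [← h5, mul_zero]
      exact hP.irr i x h2 this
  · rintro ⟨h1, h2⟩
    refine ⟨⟨subset_closure h1, h2⟩, ?_⟩
    intro h3
    have h4 := h1 0
    have h5 : x = 0 := h3
    rw [h5, map_zero, mul_zero] at h4
    exact lt_irrefl _ h4

theorem Irrational.hull_eq (hP : Irrational P) (s : Fin 3 → ℤˣ) :
    P.hull s = convexHull ℝ (P.cone s ∩ (intLattice : Set E3)) := by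
  rw [PlaneTriple.hull, hP.gen_eq]

theorem PlaneTriple.exists_sum_lower (P : PlaneTriple) :
    ∃ c : ℝ, 0 < c ∧ ∀ x ∈ intLattice, x ≠ 0 → c ≤ ∑ k, |P.form k x| := by
  obtain ⟨c, hc, hb⟩ := P.exists_bound
  refine ⟨c⁻¹, inv_pos.2 hc, fun x hx h0 => ?_⟩
  have h1 := one_le_norm_of_mem_intLattice hx h0
  have h2 := h1.trans (hb x)
  rw [inv_le_iff_one_le_mul₀ hc, mul_comm]
  exact h2

theorem Irrational.hull_lower (hP : Irrational P) :
    ∃ c : ℝ, 0 < c ∧ ∀ s, ∀ x ∈ closure (P.hull s),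
      (∀ i, 0 ≤ (((s i : ℤˣ) : ℤ) : ℝ) * P.form i x) ∧
      c ≤ ∑ k, (((s k : ℤˣ) : ℤ) : ℝ) * P.form k x := by
  obtain ⟨c, hc, hb⟩ := P.exists_sum_lower
  refine ⟨c, hc, fun s x hx => ?_⟩
  have hcont : ∀ i, Continuous fun x : E3 => (((s i : ℤˣ) : ℤ) : ℝ) * P.form i x := fun i =>
    continuous_const.mul (P.form i).continuous_of_finiteDimensional
  have key : closure (P.hull s) ⊆ {x | (∀ i, 0 ≤ (((s i : ℤˣ) : ℤ) : ℝ) * P.form i x) ∧
      c ≤ ∑ k, (((s k : ℤˣ) : ℤ) : ℝ) * P.form k x} := by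
    apply closure_minimal
    · rw [hP.hull_eq]
      apply convexHull_min
      · rintro y ⟨hy1, hy2⟩
        refine ⟨fun i => (hy1 i).le, ?_⟩
        have hy0 : y ≠ 0 := by
          rintro rfl
          have := hy1 0
          simp at this
        refine (hb y hy2 hy0).trans (le_of_eq ?_)
        exact Finset.sum_congr rfl fun k _ => sign_mul_eq_abs (hy1 k).le
      · intro y hy z hz a b ha hb' hab
        refine ⟨fun i => ?_, ?_⟩
        · simp only [map_add, map_smul, smul_eq_mul]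
          have h1 := hy.1 i
          have h2 := hz.1 i
          calc (0 : ℝ) ≤ a * ((((s i : ℤˣ) : ℤ) : ℝ) * P.form i y) +
                b * ((((s i : ℤˣ) : ℤ) : ℝ) * P.form i z) :=
                add_nonneg (mul_nonneg ha h1) (mul_nonneg hb' h2)
            _ = _ := by ring
        · have h1 := hy.2
          have h2 := hz.2
          calc c = a * c + b * c := by rw [← add_mul, hab, one_mul]
            _ ≤ a * (∑ k, (((s k : ℤˣ) : ℤ) : ℝ) * P.form k y) +
                b * (∑ k, (((s k : ℤˣ) : ℤ) : ℝ) * P.form k z) :=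
                add_le_add (mul_le_mul_of_nonneg_left h1 ha) (mul_le_mul_of_nonneg_left h2 hb')
            _ = _ := by
              rw [Finset.mul_sum, Finset.mul_sum, ← Finset.sum_add_distrib]
              refine Finset.sum_congr rfl fun k _ => ?_
              simp only [map_add, map_smul, smul_eq_mul]
              ring
    · refine IsClosed.inter ?_ ?_
      · have : {x : E3 | ∀ i, 0 ≤ (((s i : ℤˣ) : ℤ) : ℝ) * P.form i x} =
          ⋂ i, {x | 0 ≤ (((s i : ℤˣ) : ℤ) : ℝ) * P.form i x} := by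
          ext x; simp
        change IsClosed {x : E3 | ∀ i, 0 ≤ (((s i : ℤˣ) : ℤ) : ℝ) * P.form i x}
        rw [this]
        exact isClosed_iInter fun i => isClosed_le continuous_const (hcont i)
      · exact isClosed_le continuous_const (continuous_finsetSum _ fun i _ => hcont i)
  exact key hx

theorem Irrational.closure_hull_subset (hP : Irrational P) (s : Fin 3 → ℤˣ) :
    closure (P.hull s) ⊆ P.cone s := by
  intro x hx
  obtain ⟨c, hc, hb⟩ := hP.hull_lower
  by_contra hcon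
  have hex : ∃ k, ¬ 0 < (((s k : ℤˣ) : ℤ) : ℝ) * P.form k x := by
    simpa [PlaneTriple.cone] using hcon
  obtain ⟨k, hk⟩ := hex
  have hk0 : (((s k : ℤˣ) : ℤ) : ℝ) * P.form k x = 0 :=
    le_antisymm (not_lt.1 hk) ((hb s x hx).1 k)
  obtain ⟨g, t, hg, ht⟩ := hP.contr k
  have hmem : ∀ n : ℕ, intAct (g ^ n) x ∈ closure (P.hull s) := by
    intro n
    have h1 := (intHomeo (g ^ n)).image_closure (P.hull s)
    change intAct (g ^ n) '' closure (P.hull s) = closure (intAct (g ^ n) '' P.hull s) at h1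
    rw [(hg.pow n).image_hull] at h1
    rw [← h1]
    exact mem_image_of_mem _ hx
  have hlow : ∀ n : ℕ, c ≤ ∑ l, t l ^ n * ((((s l : ℤˣ) : ℤ) : ℝ) * P.form l x) := by
    intro n
    refine ((hb s _ (hmem n)).2).trans (le_of_eq ?_)
    refine Finset.sum_congr rfl fun l _ => ?_
    rw [(hg.pow n).eig]
    ring
  have hlim : Filter.Tendsto
      (fun n : ℕ => ∑ l, t l ^ n * ((((s l : ℤˣ) : ℤ) : ℝ) * P.form l x)) Filter.atTop (𝓝 0) := by
    have : (0 : ℝ) = ∑ l : Fin 3, (0 : ℝ) := by simp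
    rw [this]
    refine tendsto_finsetSum _ fun l _ => ?_
    by_cases hl : l = k
    · subst hl
      rw [hk0]
      simp
    · have h1 := tendsto_pow_atTop_nhds_zero_of_lt_one (hg.pos l).le (ht l hl)
      simpa using h1.mul_const ((((s l : ℤˣ) : ℤ) : ℝ) * P.form l x)
  have := ge_of_tendsto' hlim hlow
  linarith

/-! ## Scaling -/

theorem Irrational.smul_mem_hull (hP : Irrational P) {s : Fin 3 → ℤˣ} {x : E3}
    (hx : x ∈ P.hull s) {t : ℝ} (ht : 1 ≤ t) : t • x ∈ P.hull s := by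
  have hconv : Convex ℝ {y : E3 | t • y ∈ P.hull s} := by
    have : {y : E3 | t • y ∈ P.hull s} = (fun y : E3 => t • y) ⁻¹' P.hull s := rfl
    rw [this]
    exact (convex_convexHull ℝ _).smul_preimage t
  have hsub : P.cone s ∩ (intLattice : Set E3) ⊆ {y : E3 | t • y ∈ P.hull s} := by
    rintro y ⟨hy1, hy2⟩
    have hn : ∀ n : ℕ, 1 ≤ n → ((n : ℝ) • y) ∈ P.hull s := by
      intro n hn
      rw [hP.hull_eq]
      apply subset_convexHull
      refine ⟨P.cone_smul hy1 (by exact_mod_cast hn), ?_⟩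
      have : ((n : ℝ) • y) = n • y := by
        ext i; simp
      rw [this]
      exact AddSubgroup.nsmul_mem _ hy2 n
    have ht0 : 0 ≤ t := le_trans zero_le_one ht
    have h1 : (⌊t⌋₊ : ℝ) ≤ t := Nat.floor_le ht0
    have h2 : t < (⌊t⌋₊ : ℝ) + 1 := Nat.lt_floor_add_one t
    have h3 : 1 ≤ ⌊t⌋₊ := by
      rw [Nat.one_le_floor_iff]
      exact ht
    have h4 := hn _ h3
    have h5 := hn (⌊t⌋₊ + 1) (by omega)
    have hcv := convex_convexHull ℝ ((closure (P.cone s) ∩ (intLattice : Set E3)) \ {0})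
    have h6 := hcv h4 h5 (a := (⌊t⌋₊ : ℝ) + 1 - t) (b := t - ⌊t⌋₊) (by linarith) (by linarith)
      (by ring)
    have h7 : ((⌊t⌋₊ : ℝ) + 1 - t) • ((⌊t⌋₊ : ℝ) • y) + (t - ⌊t⌋₊) • (((⌊t⌋₊ + 1 : ℕ) : ℝ) • y)
        = t • y := by
      rw [smul_smul, smul_smul, ← add_smul]
      congr 1
      push_cast
      ring
    rw [h7] at h6
    exact h6
  have := convexHull_min hsub hconv
  rw [← hP.hull_eq] at this
  exact this hx

theorem Irrational.exists_smul_mem_hull (hP : Irrational P) {s : Fin 3 → ℤˣ} {x : E3}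
    (hx : x ∈ P.cone s) : ∃ t : ℝ, 0 < t ∧ t • x ∈ P.hull s := by
  obtain ⟨ε, hε, hball⟩ := Metric.isOpen_iff.1 (P.isOpen_cone s) x hx
  obtain ⟨N, hN⟩ := exists_nat_gt (1 / ε)
  have hNpos : (0 : ℝ) < N := lt_trans (by positivity) hN
  refine ⟨N, hNpos, ?_⟩
  have hcube : (N : ℝ) • x ∈ convexHull ℝ (Set.pi Set.univ fun i : Fin 3 =>
      ({((⌊(N : ℝ) * x i⌋ : ℤ) : ℝ), ((⌊(N : ℝ) * x i⌋ : ℤ) : ℝ) + 1} : Set ℝ)) := by
    rw [convexHull_pi]
    intro i _
    change (N : ℝ) * x i ∈ convexHull ℝ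
      ({((⌊(N : ℝ) * x i⌋ : ℤ) : ℝ), ((⌊(N : ℝ) * x i⌋ : ℤ) : ℝ) + 1} : Set ℝ)
    rw [convexHull_pair, segment_eq_Icc (by linarith)]
    refine ⟨?_, ?_⟩
    · simpa using Int.floor_le ((N : ℝ) * x i)
    · simpa using (Int.lt_floor_add_one ((N : ℝ) * x i)).le
  rw [hP.hull_eq]
  refine convexHull_mono ?_ hcube
  intro y hy
  have hy' : ∀ i, y i = ((⌊(N : ℝ) * x i⌋ : ℤ) : ℝ) ∨ y i = ((⌊(N : ℝ) * x i⌋ : ℤ) : ℝ) + 1 := by
    intro i
    have := hy i trivial
    simpa using this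
  refine ⟨?_, ?_⟩
  · have h1 : ((N : ℝ)⁻¹ • y) ∈ P.cone s := by
      apply hball
      rw [Metric.mem_ball, dist_pi_lt_iff hε]
      intro i
      have h2 : |y i - N * x i| ≤ 1 := by
        have h3 := Int.floor_le ((N : ℝ) * x i)
        have h4 := Int.lt_floor_add_one ((N : ℝ) * x i)
        rw [abs_le]
        rcases hy' i with h | h <;> rw [h] <;> constructor <;> linarith
      have h5 : (N : ℝ)⁻¹ * y i - x i = (N : ℝ)⁻¹ * (y i - N * x i) := by
        field_simp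
      simp only [Pi.smul_apply, smul_eq_mul]
      rw [Real.dist_eq, h5, abs_mul, abs_of_pos (inv_pos.2 hNpos)]
      calc (N : ℝ)⁻¹ * |y i - N * x i| ≤ (N : ℝ)⁻¹ * 1 :=
            mul_le_mul_of_nonneg_left h2 (inv_pos.2 hNpos).le
        _ = (N : ℝ)⁻¹ := mul_one _
        _ < ε := by
          rw [inv_lt_comm₀ hNpos hε]
          simpa using hN
    have h6 := P.cone_smul h1 hNpos
    rwa [smul_smul, mul_inv_cancel₀ hNpos.ne', one_smul] at h6
  · intro i
    rcases hy' i with h | h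
    · exact ⟨_, h⟩
    · exact ⟨⌊(N : ℝ) * x i⌋ + 1, by rw [h]; push_cast; rfl⟩

theorem Irrational.exists_smul_mem_sail (hP : Irrational P) {s : Fin 3 → ℤˣ} {x : E3}
    (hx : x ∈ P.cone s) : ∃ t : ℝ, 0 < t ∧ t • x ∈ P.sail s := by
  obtain ⟨t₁, ht₁, hmem₁⟩ := hP.exists_smul_mem_hull hx
  obtain ⟨c, hc, hb⟩ := hP.hull_lower
  set A : Set ℝ := {t | 0 < t ∧ t • x ∈ P.hull s} with hA
  have hne : A.Nonempty := ⟨t₁, ht₁, hmem₁⟩
  have hbdd : BddBelow A := ⟨0, fun t ht => ht.1.le⟩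
  set σ : ℝ := ∑ k, (((s k : ℤˣ) : ℤ) : ℝ) * P.form k x with hσ
  have hσpos : 0 < σ := Finset.sum_pos (fun k _ => hx k) ⟨0, Finset.mem_univ _⟩
  have hlow : ∀ t ∈ A, c / σ ≤ t := by
    rintro t ⟨ht0, ht⟩
    have h1 := (hb s _ (subset_closure ht)).2
    rw [div_le_iff₀ hσpos]
    refine h1.trans (le_of_eq ?_)
    rw [hσ, Finset.mul_sum]
    refine Finset.sum_congr rfl fun k _ => ?_
    rw [map_smul, smul_eq_mul]
    ring
  set t₀ := sInf A with ht₀
  have ht₀pos : 0 < t₀ := lt_of_lt_of_le (div_pos hc hσpos) (le_csInf hne hlow)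
  have hup : ∀ t, t₀ < t → t ∈ A := by
    intro t ht
    obtain ⟨u, hu, hut⟩ := exists_lt_of_csInf_lt hne ht
    refine ⟨ht₀pos.trans ht, ?_⟩
    have h1 : 1 ≤ t / u := by rw [le_div_iff₀ hu.1]; linarith
    have h2 := hP.smul_mem_hull hu.2 h1
    rwa [smul_smul, div_mul_cancel₀ _ hu.1.ne'] at h2
  have hcont : Continuous fun t : ℝ => t • x := continuous_id.smul continuous_const
  refine ⟨t₀, ht₀pos, ?_, ?_⟩
  · -- in the closure
    rw [Metric.mem_closure_iff]
    intro ε hε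
    have h1 := hcont.tendsto t₀
    rw [Metric.tendsto_nhds_nhds] at h1
    obtain ⟨δ, hδ, h2⟩ := h1 ε hε
    refine ⟨(t₀ + δ / 2) • x, (hup (t₀ + δ / 2) (by linarith)).2, ?_⟩
    rw [dist_comm]
    apply h2
    rw [Real.dist_eq]
    rw [show t₀ + δ / 2 - t₀ = δ / 2 by ring, abs_of_pos (by linarith)]
    linarith
  · -- not in the interior
    intro hint
    have h1 : ∀ᶠ t in 𝓝 t₀, t • x ∈ P.hull s := by
      have := hcont.continuousAt (x := t₀)
      exact this.eventually (mem_interior_iff_mem_nhds.1 hint)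
    rw [Metric.eventually_nhds_iff] at h1
    obtain ⟨δ, hδ, h2⟩ := h1
    set r := min (δ / 2) (t₀ / 2) with hr
    have hrpos : 0 < r := lt_min (by linarith) (by linarith)
    have h3 : t₀ - r ∈ A := by
      refine ⟨?_, h2 ?_⟩
      · have : r ≤ t₀ / 2 := min_le_right _ _
        linarith
      · rw [Real.dist_eq, show t₀ - r - t₀ = -r by ring, abs_neg, abs_of_pos hrpos]
        have : r ≤ δ / 2 := min_le_left _ _
        linarith
    have h4 := csInf_le hbdd h3
    linarith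

theorem Irrational.sail_subset_cone (hP : Irrational P) (s : Fin 3 → ℤˣ) : P.sail s ⊆ P.cone s :=
  fun _ hx => hP.closure_hull_subset s (frontier_subset_closure hx)

/-- The open cones are recovered from the union of the sails. -/
theorem Irrational.form_ne_zero_iff (hP : Irrational P) (y : E3) :
    (∀ k, P.form k y ≠ 0) ↔ ∃ t : ℝ, 0 < t ∧ t • y ∈ P.sailUnion := by
  constructor
  · intro h
    classical
    let s : Fin 3 → ℤˣ := fun k => if 0 < P.form k y then 1 else -1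
    have hs : y ∈ P.cone s := by
      intro k
      by_cases hk : 0 < P.form k y
      · simp [s, hk]
      · have : P.form k y < 0 := lt_of_le_of_ne (not_lt.1 hk) (h k)
        simp [s, hk, this]
    obtain ⟨t, ht, hmem⟩ := hP.exists_smul_mem_sail hs
    exact ⟨t, ht, mem_iUnion.2 ⟨s, hmem⟩⟩
  · rintro ⟨t, ht, hmem⟩ k hk
    obtain ⟨s, hs⟩ := mem_iUnion.1 hmem
    have := hP.sail_subset_cone s hs k
    rw [map_smul, hk, smul_zero, mul_zero] at this
    exact lt_irrefl _ this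

end Pool.Agent.H4Sail
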