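import Mathlib

/-!
# Two-dimensional (Klein) continued fractions and the integer invariants of their sails

Definitions used in the statement of the hand-in for MP_97563e_nt.
-/

namespace Pool.Agent.KleinSail

/-- The integer points of real 3-space. -/
def intPts : Set (Fin 3 → ℝ) := {x | ∀ i, ∃ n : ℤ, x i = (n : ℝ)}

/-- The open cone with sign vector `s` cut out by the three planes with normal vectors
`N 0`, `N 1`, `N 2`.  For linearly independent normal vectors there are eight such cones. -/
def cone (N : Fin 3 → Fin 3 → ℝ) (s : Fin 3 → ℤˣ) : Set (Fin 3 → ℝ) :=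
  {x | ∀ i, 0 < (((s i : ℤˣ) : ℤ) : ℝ) * ∑ j, N i j * x j}

/-- The convex hull of the nonzero integer points of the closed cone. -/
def hull (N : Fin 3 → Fin 3 → ℝ) (s : Fin 3 → ℤˣ) : Set (Fin 3 → ℝ) :=
  convexHull ℝ ((closure (cone N s) ∩ intPts) \ {0})

/-- The sail of the cone: the boundary of the convex hull. -/
def sail (N : Fin 3 → Fin 3 → ℝ) (s : Fin 3 → ℤˣ) : Set (Fin 3 → ℝ) := frontier (hull N s)

/-- The union of the eight sails of the continued fraction given by `N`. -/
def sailUnion (N : Fin 3 → Fin 3 → ℝ) : Set (Fin 3 → ℝ) := {x | ∃ s, x ∈ sail N s}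

/-- The action of `GL(3, ℤ)` on real 3-space. -/
def act (g : GL (Fin 3) ℤ) (x : Fin 3 → ℝ) : Fin 3 → ℝ :=
  fun i => ∑ j, (((g : Matrix (Fin 3) (Fin 3) ℤ) i j : ℤ) : ℝ) * x j

/-- Two continued fractions are equivalent if some element of `GL(3, ℤ)` maps the union of the
sails of the first onto the union of the sails of the second. -/
def Equivalent (N M : Fin 3 → Fin 3 → ℝ) : Prop :=
  ∃ g : GL (Fin 3) ℤ, act g '' sailUnion N = sailUnion M

/-- None of the three planes contains a nonzero integer point. -/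
def TotallyIrrational (N : Fin 3 → Fin 3 → ℝ) : Prop :=
  ∀ i, ∀ x ∈ intPts, ∑ j, N i j * x j = 0 → x = 0

/-- There are two commuting, independent elements of `GL(3, ℤ)`, each of which maps every one of
the eight sails onto itself. -/
def DoublyPeriodic (N : Fin 3 → Fin 3 → ℝ) : Prop :=
  ∃ A B : GL (Fin 3) ℤ, A * B = B * A ∧ (∀ i j : ℤ, A ^ i * B ^ j = 1 → i = 0 ∧ j = 0) ∧
    ∀ s, act A '' sail N s = sail N s ∧ act B '' sail N s = sail N s

/-- `F` is a `d`-dimensional cell of the boundary of the convex set `K`: a nonempty exposed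
subset of `K` whose affine span has dimension `d` (faces for `d = 2`, edges for `d = 1`, vertices
for `d = 0`). -/
def IsCell (K F : Set (Fin 3 → ℝ)) (d : ℕ) : Prop :=
  F.Nonempty ∧ IsExposed ℝ K F ∧ Module.finrank ℝ (vectorSpan ℝ F) = d

/-- The group of integer vectors parallel to the affine span of `F` (for a polygon `F`, this is
the lattice of its plane, translated to the origin). -/
def dirLattice (F : Set (Fin 3 → ℝ)) : AddSubgroup (Fin 3 → ℝ) :=
  AddSubgroup.closure {z | z ∈ intPts ∧ z ∈ vectorSpan ℝ F}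

/-- The integer length of a lattice segment: the number of lattice points on it minus one. -/
noncomputable def intLength (e : Set (Fin 3 → ℝ)) : ℕ∞ := (e ∩ intPts).encard - 1

/-- The integer area of the lattice triangle with vertex set `t`: the index, in the lattice of its
plane, of the subgroup generated by the edge vectors. -/
noncomputable def triArea (t : Set (Fin 3 → ℝ)) : ℕ :=
  (AddSubgroup.closure {z | ∃ x ∈ t, ∃ y ∈ t, z = y - x}).relIndex (dirLattice t)

/-- `T` (a finite set of vertex sets) is a triangulation of `F` into lattice triangles: all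
vertices are lattice points, every member of `T` consists of the three vertices of a
nondegenerate triangle, the triangles cover `F`, and any two of them intersect in the convex hull
of their common vertices. -/
def IsLatticeTriangulation (F : Set (Fin 3 → ℝ)) (T : Finset (Finset (Fin 3 → ℝ))) : Prop :=
  (∀ t ∈ T, ∀ x ∈ t, x ∈ intPts) ∧
  (∀ t ∈ T, t.card = 3 ∧ AffineIndependent ℝ (fun x : t => (x : Fin 3 → ℝ))) ∧
  (F = {x | ∃ t ∈ T, x ∈ convexHull ℝ (t : Set (Fin 3 → ℝ))}) ∧
  (∀ t ∈ T, ∀ u ∈ T, convexHull ℝ (t : Set (Fin 3 → ℝ)) ∩ convexHull ℝ (u : Set (Fin 3 → ℝ)) =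
    convexHull ℝ ((t : Set (Fin 3 → ℝ)) ∩ (u : Set (Fin 3 → ℝ))))

/-- The lattice polygon `F` has integer area `n`: the sum of the integer areas of the triangles of
a lattice triangulation of `F` is `n`. -/
def HasIntArea (F : Set (Fin 3 → ℝ)) (n : ℕ) : Prop :=
  ∃ T : Finset (Finset (Fin 3 → ℝ)), IsLatticeTriangulation F T ∧
    ∑ t ∈ T, triArea (t : Set (Fin 3 → ℝ)) = n

/-- `F` lies in a plane at integer distance `n` from the origin: the plane has an equation
`a 0 * x 0 + a 1 * x 1 + a 2 * x 2 = c` where `a` is a primitive integer vector and `|c| = n`. -/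
def HasIntDist (F : Set (Fin 3 → ℝ)) (n : ℕ) : Prop :=
  ∃ a : Fin 3 → ℤ, (∀ d : ℤ, (∀ i, d ∣ a i) → IsUnit d) ∧
    ∃ c : ℤ, c.natAbs = n ∧ ∀ x ∈ F, ∑ i, (a i : ℝ) * x i = (c : ℝ)

/-- The ray from `v` through the segment `e` with endpoint `v`. -/
def rayFrom (v : Fin 3 → ℝ) (e : Set (Fin 3 → ℝ)) : Set (Fin 3 → ℝ) :=
  {x | ∃ y ∈ e, ∃ t : ℝ, 0 ≤ t ∧ x = v + t • (y - v)}

/-- The integer angle at the common endpoint `v` of the segments `e₁`, `e₂`: the index, in the
lattice of their plane, of the subgroup generated by the lattice points on the two rays from `v`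
(with `v` as the origin). -/
noncomputable def intAngle (v : Fin 3 → ℝ) (e₁ e₂ : Set (Fin 3 → ℝ)) : ℕ :=
  (AddSubgroup.closure {z | ∃ x ∈ intPts, (x ∈ rayFrom v e₁ ∨ x ∈ rayFrom v e₂) ∧
    z = x - v}).relIndex (dirLattice (e₁ ∪ e₂))

/-- `f` restricts to a homeomorphism from `S` onto `S'`, with inverse the restriction of `g`. -/
def IsHomeo (S S' : Set (Fin 3 → ℝ)) (f g : (Fin 3 → ℝ) → (Fin 3 → ℝ)) : Prop :=
  ContinuousOn f S ∧ ContinuousOn g S' ∧ (∀ x ∈ S, f x ∈ S' ∧ g (f x) = x) ∧
    (∀ y ∈ S', g y ∈ S ∧ f (g y) = y)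

/-- The map `f` from the sail of the cone `s` of `N` to the sail of the cone `t` of `M` carries
faces to faces, edges to edges and vertices to vertices (in both directions); corresponding faces
have the same (well defined) integer area and the same (well defined) integer distance to the
origin; corresponding edges have the same integer length; corresponding pairs of adjacent edges of
a face have the same integer angle. -/
def PreservesInvariants (N M : Fin 3 → Fin 3 → ℝ) (s t : Fin 3 → ℤˣ)
    (f : (Fin 3 → ℝ) → (Fin 3 → ℝ)) : Prop :=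
  (∀ d : ℕ, d ≤ 2 → ∀ F ⊆ sail N s, (IsCell (hull N s) F d ↔ IsCell (hull M t) (f '' F) d)) ∧
  (∀ F ⊆ sail N s, IsCell (hull N s) F 2 →
    ∃ n, ∀ m, (HasIntArea F m ↔ m = n) ∧ (HasIntArea (f '' F) m ↔ m = n)) ∧
  (∀ F ⊆ sail N s, IsCell (hull N s) F 2 →
    ∃ n, ∀ m, (HasIntDist F m ↔ m = n) ∧ (HasIntDist (f '' F) m ↔ m = n)) ∧
  (∀ e ⊆ sail N s, IsCell (hull N s) e 1 → intLength e = intLength (f '' e)) ∧
  (∀ F ⊆ sail N s, IsCell (hull N s) F 2 → ∀ e₁ ⊆ F, ∀ e₂ ⊆ F,
    IsCell (hull N s) e₁ 1 → IsCell (hull N s) e₂ 1 → ∀ v, e₁ ∩ e₂ = {v} →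
      intAngle v e₁ e₂ = intAngle (f v) (f '' e₁) (f '' e₂))

end Pool.Agent.KleinSail
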